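import Mathlib

set_option autoImplicit false

/-!
# Minimal idempotents in `βM`, homomorphic images, and group inverses

General tools: for a commutative monoid `M` the ultrafilters on `M` form a compact right
topological semigroup; `IsMin p` says that `p` is a minimal idempotent; below every idempotent
there is a minimal one (`exists_isMin_le`), idempotents below a minimal one are equal to it
(`IsMin.eq_of_le`), `p + βM + p` is a group (`G_inv`).
-/

namespace Pool.Agent.H273R3.GR

open Filter

attribute [local instance] Ultrafilter.add Ultrafilter.addSemigroup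

section general

variable {M : Type*} [AddCommMonoid M]

/-- minimal idempotents -/
def IsMin (p : Ultrafilter M) : Prop :=
  p + p = p ∧ ∀ r : Ultrafilter M, ∃ h : Ultrafilter M, h + (r + p) = p

theorem mem_add (p q : Ultrafilter M) (A : Set M) :
    A ∈ p + q ↔ {x | {y | x + y ∈ A} ∈ q} ∈ p := Iff.rfl

theorem shift_mem (x : M) (C : Set M) (q r : Ultrafilter M) :
    {y | x + y ∈ C} ∈ q + r ↔ {y | {z | (x + y) + z ∈ C} ∈ r} ∈ q := by
  rw [mem_add]
  simp only [Set.mem_ofPred_eq, add_assoc]

/-- below every idempotent there is a minimal idempotent -/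
theorem exists_isMin_le {P : Ultrafilter M} (hP : P + P = P) :
    ∃ e : Ultrafilter M, IsMin e ∧ P + e = e ∧ e + P = e := by
  let R : Set (Ultrafilter M) := Set.range (fun x : Ultrafilter M => x + P)
  let S : Set (Set (Ultrafilter M)) :=
    {L | IsClosed L ∧ L.Nonempty ∧ L ⊆ R ∧ ∀ r : Ultrafilter M, ∀ q ∈ L, r + q ∈ L}
  rsuffices ⟨L, hL⟩ : ∃ L, Minimal (· ∈ S) L
  · obtain ⟨hclosed, hne, hR, hleft⟩ := hL.prop
    obtain ⟨e', heL, hee⟩ := exists_idempotent_in_compact_add_subsemigroup
      (M := Ultrafilter M) Ultrafilter.continuous_add_left L hne hclosed.isCompact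
      (fun x _ y hy => hleft x y hy)
    obtain ⟨x, hx⟩ := hR heL
    have heP : e' + P = e' := by
      have hx' : x + P = e' := hx
      rw [← hx', add_assoc, hP]
    have h1 : P + (P + e') = P + e' := by rw [← add_assoc, hP]
    have h2 : (P + e') + P = P + e' := by rw [add_assoc, heP]
    have h3 : (P + e') + (P + e') = P + e' := by
      rw [← add_assoc, h2, add_assoc, hee]
    refine ⟨P + e', ⟨h3, fun r => ?_⟩, h1, h2⟩
    have hq : r + (P + e') ∈ L := hleft r _ (hleft P e' heL)
    have hcont : Continuous (fun h : Ultrafilter M => h + (r + (P + e'))) :=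
      Ultrafilter.continuous_add_left (r + (P + e'))
    have hL' : Set.range (fun h : Ultrafilter M => h + (r + (P + e'))) ∈ S := by
      refine ⟨?_, ⟨_, ⟨P, rfl⟩⟩, ?_, ?_⟩
      · exact (isCompact_range hcont).isClosed
      · rintro _ ⟨h, rfl⟩
        refine ⟨h + (r + (P + e')), ?_⟩
        change h + (r + (P + e')) + P = h + (r + (P + e'))
        rw [add_assoc, add_assoc, h2]
      · rintro r' _ ⟨h, rfl⟩
        exact ⟨r' + h, add_assoc _ _ _⟩
    have hsub : Set.range (fun h : Ultrafilter M => h + (r + (P + e'))) ⊆ L := by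
      rintro _ ⟨h, rfl⟩
      exact hleft h _ hq
    have heq := hL.eq_of_subset hL' hsub
    have hmem : P + e' ∈ L := hleft P e' heL
    rw [← heq] at hmem
    obtain ⟨h, hh⟩ := hmem
    exact ⟨h, hh⟩
  refine zorn_superset _ fun c hcs hc => ?_
  obtain rfl | hcnemp := c.eq_empty_or_nonempty
  · refine ⟨R, ⟨?_, ⟨_, ⟨P, rfl⟩⟩, subset_rfl, ?_⟩, fun s hs => hs.elim⟩
    · exact (isCompact_range (Ultrafilter.continuous_add_left P)).isClosed
    · rintro r _ ⟨x, rfl⟩
      exact ⟨r + x, add_assoc _ _ _⟩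
  refine ⟨⋂₀ c, ⟨isClosed_sInter fun t ht => (hcs ht).1, ?_, ?_, fun r q hq => ?_⟩, fun s hs =>
      Set.sInter_subset_of_mem hs⟩
  · convert!
      @IsCompact.nonempty_iInter_of_directed_nonempty_isCompact_isClosed _ _ _ hcnemp.coe_sort
        ((↑) : c → Set (Ultrafilter M)) ?_ ?_ ?_ ?_
    · exact Set.sInter_eq_iInter
    · refine DirectedOn.directed_val (IsChain.directedOn hc.symm)
    exacts [fun i => (hcs i.prop).2.1, fun i => (hcs i.prop).1.isCompact, fun i => (hcs i.prop).1]
  · obtain ⟨t, ht⟩ := hcnemp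
    exact (Set.sInter_subset_of_mem ht).trans (hcs ht).2.2.1
  · rw [Set.mem_sInter]
    exact fun t ht => (hcs ht).2.2.2 r q (Set.mem_sInter.mp hq t ht)

/-- idempotents below a minimal idempotent are equal to it -/
theorem IsMin.eq_of_le {p q : Ultrafilter M} (hp : IsMin p) (hq : q + q = q)
    (h1 : q + p = q) (h2 : p + q = q) : q = p := by
  obtain ⟨h, hh⟩ := hp.2 q
  rw [h1] at hh
  calc q = p + q := h2.symm
    _ = (h + q) + q := by rw [hh]
    _ = h + (q + q) := add_assoc _ _ _
    _ = p := by rw [hq, hh]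

/-- the group `p + βM + p` -/
def G (p : Ultrafilter M) : Set (Ultrafilter M) := {g | p + g = g ∧ g + p = g}

theorem G_inv {p : Ultrafilter M} (hp : IsMin p) {g : Ultrafilter M} (hg : g ∈ G p) :
    ∃ h ∈ G p, h + g = p ∧ g + h = p := by
  have key : ∀ g : Ultrafilter M, g ∈ G p → ∃ h ∈ G p, h + g = p := by
    intro g hg
    obtain ⟨h0, hh0⟩ := hp.2 g
    rw [hg.2] at hh0
    refine ⟨p + (h0 + p), ⟨?_, ?_⟩, ?_⟩
    · rw [← add_assoc, hp.1]
    · rw [add_assoc, add_assoc, hp.1]
    · rw [add_assoc, add_assoc, hg.1, hh0, hp.1]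
  obtain ⟨h, hh, hhg⟩ := key g hg
  obtain ⟨h1, hh1, hh1h⟩ := key h hh
  refine ⟨h, hh, hhg, ?_⟩
  have e1 : g = h1 := by
    calc g = p + g := hg.1.symm
      _ = (h1 + h) + g := by rw [hh1h]
      _ = h1 + (h + g) := add_assoc _ _ _
      _ = h1 + p := by rw [hhg]
      _ = h1 := hh1.2
  rw [e1]; exact hh1h

variable {N : Type*} [AddCommMonoid N]

/-- homomorphisms extend to homomorphisms of ultrafilters -/
theorem map_add' (π : M →+ N) (q r : Ultrafilter M) :
    Ultrafilter.map π (q + r) = Ultrafilter.map π q + Ultrafilter.map π r := by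
  ext A
  rw [Ultrafilter.mem_map, mem_add, mem_add, Ultrafilter.mem_map]
  simp only [Set.preimage, Ultrafilter.mem_map, Set.mem_ofPred_eq, map_add]

theorem map_comp' (π : M →+ N) {K : Type*} (f : K → M) (q : Ultrafilter K) :
    Ultrafilter.map π (Ultrafilter.map f q) = Ultrafilter.map (fun x => π (f x)) q := by
  rw [Ultrafilter.map_map]; rfl

end general

end Pool.Agent.H273R3.GR
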