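import Pool.Agent.H273R3.GRa

set_option autoImplicit false

/-!
# The junction ultrafilter on `ℕ × ℕ`

There are a minimal idempotent `p` of `βℕ` and an ultrafilter `μ` on `ℕ × ℕ` with
`π₁₁ μ = p`, `π₁₂ μ + π₂₁ μ = p`, `p + π₁₀ μ = π₁₀ μ`, `2p + π₂₁ μ = π₂₁ μ`,
where `π_ij (a, b) = i a + j b`.
-/

namespace Pool.Agent.H273R3.GR

open Filter

attribute [local instance] Ultrafilter.add Ultrafilter.addSemigroup

/-- `x ↦ k x` -/
def mulk (k : ℕ) : ℕ →+ ℕ := AddMonoidHom.mulLeft k

/-- `(a, b) ↦ i a + j b` -/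
def lin (i j : ℕ) : ℕ × ℕ →+ ℕ where
  toFun x := i * x.1 + j * x.2
  map_zero' := by simp
  map_add' x y := by simp only [Prod.fst_add, Prod.snd_add]; ring

/-- swap -/
def sw : ℕ × ℕ →+ ℕ × ℕ where
  toFun x := (x.2, x.1)
  map_zero' := rfl
  map_add' _ _ := rfl

/-- `x ↦ (x, 0)` -/
def inS : ℕ →+ ℕ × ℕ where
  toFun x := (x, 0)
  map_zero' := rfl
  map_add' x y := by simp

/-- `x ↦ (x, x)` -/
def inD : ℕ →+ ℕ × ℕ where
  toFun x := (x, x)
  map_zero' := rfl
  map_add' x y := by simp

/-- an idempotent of `βℕ` contains `kℕ` (here `k = 3`) -/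
theorem three_mem {q : Ultrafilter ℕ} (hq : q + q = q) : {x | x % 3 = 0} ∈ q := by
  have hc : ∀ c : ℕ, {x | x % 3 = c} ∈ q → {x | x % 3 = 0} ∈ q := by
    intro c hc
    have h1 := hc
    rw [← hq, mem_add] at h1
    obtain ⟨x, hx⟩ := Ultrafilter.nonempty_of_mem (Filter.inter_mem hc h1)
    obtain ⟨hx1, hx2⟩ := hx
    obtain ⟨y, hy⟩ := Ultrafilter.nonempty_of_mem (Filter.inter_mem hc hx2)
    obtain ⟨hy1, hy2⟩ := hy
    simp only [Set.mem_ofPred_eq] at hx1 hy1 hy2
    have : c = 0 := by omega
    rw [this] at hc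
    exact hc
  have hu : ({x | x % 3 = 0} ∪ ({x | x % 3 = 1} ∪ {x | x % 3 = 2}) : Set ℕ) ∈ q := by
    filter_upwards with x
    simp only [Set.mem_union, Set.mem_ofPred_eq]
    omega
  rw [Ultrafilter.union_mem_iff, Ultrafilter.union_mem_iff] at hu
  rcases hu with h | h | h
  · exact h
  · exact hc 1 h
  · exact hc 2 h

/-- an idempotent below `3p` equals `3p` -/
theorem three_min {p q : Ultrafilter ℕ} (hp : IsMin p) (hq : q + q = q)
    (h1 : q + Ultrafilter.map (mulk 3) p = q) (h2 : Ultrafilter.map (mulk 3) p + q = q) :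
    q = Ultrafilter.map (mulk 3) p := by
  set q' : Ultrafilter ℕ := Ultrafilter.map (fun x => x / 3) q with hq'
  have hqq' : Ultrafilter.map (mulk 3) q' = q := by
    ext A
    rw [hq', Ultrafilter.map_map, Ultrafilter.mem_map]
    have h3 := three_mem hq
    constructor
    · intro h
      filter_upwards [h, h3] with x hx hx3
      have : (⇑(mulk 3) ∘ fun x => x / 3) x = x := by
        change 3 * (x / 3) = x
        change x % 3 = 0 at hx3
        omega
      change (⇑(mulk 3) ∘ fun x => x / 3) x ∈ A at hx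
      rwa [this] at hx
    · intro h
      filter_upwards [h, h3] with x hx hx3
      have : (⇑(mulk 3) ∘ fun x => x / 3) x = x := by
        change 3 * (x / 3) = x
        change x % 3 = 0 at hx3
        omega
      change (⇑(mulk 3) ∘ fun x => x / 3) x ∈ A
      rwa [this]
  have hinj : Function.Injective (Ultrafilter.map (mulk 3) : Ultrafilter ℕ → Ultrafilter ℕ) := by
    intro a b hab
    have h3 : Function.Injective (mulk 3) := by
      intro x y hxy
      have : 3 * x = 3 * y := hxy
      omega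
    have h4 : Filter.map (mulk 3) (a : Filter ℕ) = Filter.map (mulk 3) (b : Filter ℕ) := by
      have := congrArg (fun u : Ultrafilter ℕ => (u : Filter ℕ)) hab
      simpa using this
    exact Ultrafilter.coe_injective (Filter.map_injective h3 h4)
  have e1 : q' + q' = q' := hinj (by rw [map_add', hqq', hq])
  have e2 : q' + p = q' := hinj (by rw [map_add', hqq', h1])
  have e3 : p + q' = q' := hinj (by rw [map_add', hqq', h2])
  rw [← hqq', hp.eq_of_le e1 e2 e3]

theorem pure_zero_idem : (pure 0 : Ultrafilter ℕ) + pure 0 = pure 0 := by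
  ext A
  simp [mem_add]

/-- the main algebraic theorem -/
theorem junction : ∃ (p : Ultrafilter ℕ) (μ : Ultrafilter (ℕ × ℕ)),
    p + p = p ∧
    Ultrafilter.map (lin 1 1) μ = p ∧
    Ultrafilter.map (lin 1 2) μ + Ultrafilter.map (lin 2 1) μ = p ∧
    p + Ultrafilter.map (lin 1 0) μ = Ultrafilter.map (lin 1 0) μ ∧
    Ultrafilter.map (lin 2 2) μ + Ultrafilter.map (lin 2 1) μ = Ultrafilter.map (lin 2 1) μ ∧
    {x : ℕ × ℕ | 0 < x.1} ∈ μ := by
  obtain ⟨p, hp, -, -⟩ := exists_isMin_le pure_zero_idem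
  set PS : Ultrafilter (ℕ × ℕ) := Ultrafilter.map inS p with hPS
  set PD : Ultrafilter (ℕ × ℕ) := Ultrafilter.map inD p with hPD
  have hSS : PS + PS = PS := by rw [hPS, ← map_add', hp.1]
  have hDD : PD + PD = PD := by rw [hPD, ← map_add', hp.1]
  obtain ⟨e, he, hSe, heS⟩ := exists_isMin_le hSS
  have hg : e + (PD + e) ∈ G e := ⟨by rw [← add_assoc, he.1], by rw [add_assoc, add_assoc, he.1]⟩
  obtain ⟨h, ⟨heh, hhe⟩, hh1, hh2⟩ := G_inv he hg
  -- `h + (e + (PD + e)) = e`, `(e + (PD + e)) + h = e`
  have k1 : e + (PD + h) = e := by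
    have : (e + (PD + e)) + h = e + (PD + h) := by
      rw [add_assoc, add_assoc, heh]
    rw [← this, hh2]
  have k2 : h + (PD + h) = h := by
    calc h + (PD + h) = h + (e + (PD + h)) := by rw [← add_assoc h e, hhe]
      _ = h + e := by rw [k1]
      _ = h := hhe
  have hcomp : ∀ (i j : ℕ) (q : Ultrafilter (ℕ × ℕ)),
      Ultrafilter.map (lin i j) (Ultrafilter.map sw q) = Ultrafilter.map (lin j i) q := by
    intro i j q
    rw [Ultrafilter.map_map]
    congr 1
    funext x
    change i * x.2 + j * x.1 = j * x.1 + i * x.2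
    ring
  have hS : ∀ i j : ℕ, Ultrafilter.map (lin i j) PS = Ultrafilter.map (mulk i) p := by
    intro i j
    rw [hPS, Ultrafilter.map_map]
    congr 1
  have hD : ∀ i j : ℕ, Ultrafilter.map (lin i j) PD = Ultrafilter.map (mulk (i + j)) p := by
    intro i j
    rw [hPD, Ultrafilter.map_map]
    congr 1
    funext x
    change i * x + j * x = (i + j) * x
    ring
  have hone : Ultrafilter.map (mulk 1) p = p := by
    have : (⇑(mulk 1) : ℕ → ℕ) = id := by
      funext x
      change 1 * x = x
      ring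
    rw [this, Ultrafilter.map_id]
  -- `π_{1j} e = p`
  have hpe : ∀ j : ℕ, Ultrafilter.map (lin 1 j) e = p := by
    intro j
    refine hp.eq_of_le ?_ ?_ ?_
    · rw [← map_add', he.1]
    · have := congrArg (Ultrafilter.map (lin 1 j)) heS
      rw [map_add', hS, hone] at this
      exact this
    · have := congrArg (Ultrafilter.map (lin 1 j)) hSe
      rw [map_add', hS, hone] at this
      exact this
  set μ : Ultrafilter (ℕ × ℕ) := e + (PD + Ultrafilter.map sw h) with hμ
  have hSμ : PS + μ = μ := by rw [hμ, ← add_assoc, hSe]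
  have hmμ : ∀ i j : ℕ, Ultrafilter.map (lin i j) μ =
      Ultrafilter.map (lin i j) e + (Ultrafilter.map (mulk (i + j)) p +
        Ultrafilter.map (lin j i) h) := by
    intro i j
    rw [hμ, map_add', map_add', hD, hcomp]
  have hf1 : Ultrafilter.map (mulk 3) p + (Ultrafilter.map (lin 2 1) h +
      Ultrafilter.map (mulk 3) p) = Ultrafilter.map (mulk 3) p := by
    have h3 : Ultrafilter.map (mulk 3) p = Ultrafilter.map (lin 2 1) PD := (hD 2 1).symm
    have hgen : Ultrafilter.map (mulk 3) p + (Ultrafilter.map (lin 2 1) h +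
      Ultrafilter.map (mulk 3) p) = Ultrafilter.map (lin 2 1) (PD + (h + PD)) := by
      rw [h3, map_add', map_add']
    rw [hgen]
    have hid : (PD + (h + PD)) + (PD + (h + PD)) = PD + (h + PD) := by
      calc (PD + (h + PD)) + (PD + (h + PD)) = PD + (h + ((PD + PD) + (h + PD))) := by
            simp only [add_assoc]
        _ = PD + ((h + (PD + h)) + PD) := by rw [hDD]; simp only [add_assoc]
        _ = PD + (h + PD) := by rw [k2]
    refine three_min hp ?_ ?_ ?_
    · rw [← map_add', hid]
    · rw [h3, ← map_add']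
      congr 1
      rw [add_assoc, add_assoc, hDD]
    · rw [h3, ← map_add']
      congr 1
      rw [← add_assoc, hDD]
  refine ⟨p, μ, hp.1, ?_, ?_, ?_, ?_, ?_⟩
  · -- π₁₁
    have h2 := congrArg (Ultrafilter.map (lin 1 1)) k1
    rw [map_add', map_add', hD, hpe] at h2
    rw [hmμ, hpe]
    exact h2
  · -- π₁₂ + π₂₁
    have h2 := congrArg (Ultrafilter.map (lin 1 2)) k1
    rw [map_add', map_add', hD, hpe] at h2
    have h2e : Ultrafilter.map (lin 2 1) h + Ultrafilter.map (lin 2 1) e
        = Ultrafilter.map (lin 2 1) h := by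
      rw [← map_add', hhe]
    rw [hmμ, hmμ, hpe]
    change p + (Ultrafilter.map (mulk 3) p + Ultrafilter.map (lin 2 1) h) +
      (Ultrafilter.map (lin 2 1) e + (Ultrafilter.map (mulk 3) p + Ultrafilter.map (lin 1 2) h)) = p
    change p + (Ultrafilter.map (mulk 3) p + Ultrafilter.map (lin 1 2) h) = p at h2
    calc p + (Ultrafilter.map (mulk 3) p + Ultrafilter.map (lin 2 1) h) +
          (Ultrafilter.map (lin 2 1) e + (Ultrafilter.map (mulk 3) p +
            Ultrafilter.map (lin 1 2) h))
        = p + (Ultrafilter.map (mulk 3) p + ((Ultrafilter.map (lin 2 1) h +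
          Ultrafilter.map (lin 2 1) e) + (Ultrafilter.map (mulk 3) p +
            Ultrafilter.map (lin 1 2) h))) := by simp only [add_assoc]
      _ = p + (Ultrafilter.map (mulk 3) p + (Ultrafilter.map (lin 2 1) h +
            Ultrafilter.map (mulk 3) p) + Ultrafilter.map (lin 1 2) h) := by
          rw [h2e]; simp only [add_assoc]
      _ = p := by rw [hf1, h2]
  · -- p + π₁₀
    have h2 := congrArg (Ultrafilter.map (lin 1 0)) hSμ
    rw [map_add', hS, hone] at h2
    exact h2
  · -- π₂₂ + π₂₁ = π₂₁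
    have h11 : Ultrafilter.map (lin 1 1) μ = p := by
      have h2 := congrArg (Ultrafilter.map (lin 1 1)) k1
      rw [map_add', map_add', hD, hpe] at h2
      rw [hmμ, hpe]
      exact h2
    have h22 : Ultrafilter.map (lin 2 2) μ = Ultrafilter.map (mulk 2) p := by
      rw [← h11, Ultrafilter.map_map]
      congr 1
      funext x
      change 2 * x.1 + 2 * x.2 = 2 * (1 * x.1 + 1 * x.2)
      ring
    have h2 := congrArg (Ultrafilter.map (lin 2 1)) hSμ
    rw [map_add', hS] at h2
    rw [h22]
    exact h2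
  · -- positivity
    have hpos : ∀ q : Ultrafilter (ℕ × ℕ), {x : ℕ × ℕ | 0 < x.2} ∈
        (q + ((pure (0, 1) : Ultrafilter (ℕ × ℕ)) + e)) := by
      intro q
      rw [mem_add]
      filter_upwards with x
      change {y : ℕ × ℕ | {z : ℕ × ℕ | 0 < (x + (y + z)).2} ∈ e} ∈
        (pure (0, 1) : Ultrafilter (ℕ × ℕ))
      rw [Ultrafilter.mem_pure]
      change {z : ℕ × ℕ | 0 < (x + ((0, 1) + z)).2} ∈ e
      filter_upwards with z
      change 0 < (x + ((0, 1) + z)).2
      simp only [Prod.snd_add]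
      omega
    obtain ⟨h0, hh0⟩ := he.2 (pure (0, 1))
    have hepos : {x : ℕ × ℕ | 0 < x.2} ∈ e := by
      have := hpos h0
      rwa [hh0] at this
    have hhpos : {x : ℕ × ℕ | 0 < x.2} ∈ h := by
      rw [← hhe, mem_add]
      filter_upwards with x
      change _ ∈ e
      filter_upwards [hepos] with z hz
      change 0 < (x + z).2
      change 0 < z.2 at hz
      simp only [Prod.snd_add]
      omega
    rw [hμ, mem_add]
    filter_upwards with x
    change _ ∈ PD + Ultrafilter.map sw h
    rw [mem_add]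
    filter_upwards with y
    change _ ∈ Ultrafilter.map sw h
    rw [Ultrafilter.mem_map]
    filter_upwards [hhpos] with z hz
    change 0 < (x + (y + (z.2, z.1))).1
    change 0 < z.2 at hz
    simp only [Prod.fst_add]
    omega

end Pool.Agent.H273R3.GR
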