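import Pool.Agent.H273R3.GRb

set_option autoImplicit false

/-!
# Monochromatic initial segment sums with coefficients 1 and 2
-/

namespace Pool.Agent.H273R3.GR

open Filter

attribute [local instance] Ultrafilter.add Ultrafilter.addSemigroup

section build

variable (p : Ultrafilter ℕ) (μ : Ultrafilter (ℕ × ℕ)) (C : Set ℕ)

/-- good partial sums (last coefficient `1`) -/
def Good1 (s : ℕ) : Prop := {y | s + y ∈ C} ∈ Ultrafilter.map (lin 1 0) μ

/-- good partial sums (last coefficient `2`) -/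
def Good2 (s : ℕ) : Prop :=
  {y | s + y ∈ C} ∈ Ultrafilter.map (lin 2 1) μ + Ultrafilter.map (lin 1 0) μ

theorem trans_of (i j : ℕ) (s : ℕ) (r : Ultrafilter ℕ) :
    {y | s + y ∈ C} ∈ Ultrafilter.map (lin i j) μ + r ↔
      {x : ℕ × ℕ | {y | (s + (i * x.1 + j * x.2)) + y ∈ C} ∈ r} ∈ μ := by
  rw [shift_mem, Ultrafilter.mem_map]
  rfl

/-- a stage of the construction -/
structure St where
  F1 : Finset ℕ
  F2 : Finset ℕ
  h1 : ∀ s ∈ F1, Good1 μ C s
  h2 : ∀ s ∈ F2, Good2 μ C s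

variable {p μ C}

theorem step (hp1 : Ultrafilter.map (lin 1 1) μ = p)
    (hp2 : Ultrafilter.map (lin 1 2) μ + Ultrafilter.map (lin 2 1) μ = p)
    (hp3 : p + Ultrafilter.map (lin 1 0) μ = Ultrafilter.map (lin 1 0) μ)
    (hp4 : Ultrafilter.map (lin 2 2) μ + Ultrafilter.map (lin 2 1) μ =
      Ultrafilter.map (lin 2 1) μ)
    (hp5 : {x : ℕ × ℕ | 0 < x.1} ∈ μ) (σ : St μ C) :
    ∃ x : ℕ × ℕ, 0 < x.1 ∧ (∀ s ∈ σ.F1, s + x.1 ∈ C) ∧
      (∀ s ∈ σ.F1, Good1 μ C (s + (x.1 + x.2))) ∧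
      (∀ s ∈ σ.F1, Good2 μ C (s + (x.1 + 2 * x.2))) ∧
      (∀ s ∈ σ.F2, Good1 μ C (s + (2 * x.1 + x.2))) ∧
      (∀ s ∈ σ.F2, Good2 μ C (s + (2 * x.1 + 2 * x.2))) := by
  have e1 : ∀ s ∈ σ.F1, {x : ℕ × ℕ | s + x.1 ∈ C ∧ Good1 μ C (s + (x.1 + x.2)) ∧
      Good2 μ C (s + (x.1 + 2 * x.2))} ∈ μ := by
    intro s hs
    have g1 := σ.h1 s hs
    have a1 : {x : ℕ × ℕ | s + x.1 ∈ C} ∈ μ := by
      have := g1
      rw [Good1, Ultrafilter.mem_map] at this
      filter_upwards [this] with x hx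
      change s + (1 * x.1 + 0 * x.2) ∈ C at hx
      simpa using hx
    have a2 : {x : ℕ × ℕ | Good1 μ C (s + (x.1 + x.2))} ∈ μ := by
      have := g1
      rw [Good1, ← hp3, ← hp1, trans_of] at this
      filter_upwards [this] with x hx
      rw [one_mul, one_mul] at hx
      exact hx
    have a3 : {x : ℕ × ℕ | Good2 μ C (s + (x.1 + 2 * x.2))} ∈ μ := by
      have := g1
      rw [Good1, ← hp3, ← hp2, add_assoc, trans_of] at this
      filter_upwards [this] with x hx
      rw [one_mul] at hx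
      exact hx
    filter_upwards [a1, a2, a3] with x h1 h2 h3
    exact ⟨h1, h2, h3⟩
  have e2 : ∀ s ∈ σ.F2, {x : ℕ × ℕ | Good1 μ C (s + (2 * x.1 + x.2)) ∧
      Good2 μ C (s + (2 * x.1 + 2 * x.2))} ∈ μ := by
    intro s hs
    have g2 := σ.h2 s hs
    have a2 : {x : ℕ × ℕ | Good1 μ C (s + (2 * x.1 + x.2))} ∈ μ := by
      have := g2
      rw [Good2, trans_of] at this
      filter_upwards [this] with x hx
      rw [one_mul] at hx
      exact hx
    have a3 : {x : ℕ × ℕ | Good2 μ C (s + (2 * x.1 + 2 * x.2))} ∈ μ := by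
      have := g2
      rw [Good2, ← hp4, add_assoc, trans_of] at this
      exact this
    filter_upwards [a2, a3] with x h1 h2
    exact ⟨h1, h2⟩
  have E1 : {x : ℕ × ℕ | ∀ s ∈ σ.F1, s + x.1 ∈ C ∧ Good1 μ C (s + (x.1 + x.2)) ∧
      Good2 μ C (s + (x.1 + 2 * x.2))} ∈ μ := by
    have := (Filter.biInter_finset_mem (f := (μ : Filter (ℕ × ℕ))) σ.F1 (s := fun s =>
      {x : ℕ × ℕ | s + x.1 ∈ C ∧ Good1 μ C (s + (x.1 + x.2)) ∧
      Good2 μ C (s + (x.1 + 2 * x.2))})).2 e1
    filter_upwards [this] with x hx s hs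
    exact Set.mem_iInter₂.1 hx s hs
  have E2 : {x : ℕ × ℕ | ∀ s ∈ σ.F2, Good1 μ C (s + (2 * x.1 + x.2)) ∧
      Good2 μ C (s + (2 * x.1 + 2 * x.2))} ∈ μ := by
    have := (Filter.biInter_finset_mem (f := (μ : Filter (ℕ × ℕ))) σ.F2 (s := fun s =>
      {x : ℕ × ℕ | Good1 μ C (s + (2 * x.1 + x.2)) ∧
      Good2 μ C (s + (2 * x.1 + 2 * x.2))})).2 e2
    filter_upwards [this] with x hx s hs
    exact Set.mem_iInter₂.1 hx s hs
  obtain ⟨x, ⟨hx1, hx2⟩, hx3⟩ := Ultrafilter.nonempty_of_mem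
    (Filter.inter_mem (Filter.inter_mem E1 E2) hp5)
  exact ⟨x, hx3, fun s hs => (hx1 s hs).1, fun s hs => (hx1 s hs).2.1,
    fun s hs => (hx1 s hs).2.2, fun s hs => (hx2 s hs).1, fun s hs => (hx2 s hs).2⟩

end build

theorem main (r : ℕ) (c : ℕ → Fin r) : ∃ y : ℕ → ℕ, (∀ n, 0 < y n) ∧ ∃ col : Fin r,
      ∀ k : ℕ, 1 ≤ k → ∀ a : ℕ → ℕ, (∀ i, a i = 1 ∨ a i = 2) → a 0 = 1 → a (k - 1) = 1 →
        c (∑ i ∈ Finset.range k, a i * y i) = col := by
  obtain ⟨p, μ, -, hp1, hp2, hp3, hp4, hp5⟩ := junction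
  -- the colour
  obtain ⟨col, hcol⟩ : ∃ col : Fin r, c ⁻¹' {col} ∈ Ultrafilter.map (lin 1 0) μ := by
    have hu : (⋃ i ∈ (Set.univ : Set (Fin r)), c ⁻¹' {i}) ∈ Ultrafilter.map (lin 1 0) μ := by
      filter_upwards with x
      simp
    rw [Ultrafilter.finite_biUnion_mem_iff Set.finite_univ] at hu
    obtain ⟨i, -, hi⟩ := hu
    exact ⟨i, hi⟩
  set C : Set ℕ := c ⁻¹' {col} with hC
  have hstep := fun σ : St μ C => step hp1 hp2 hp3 hp4 hp5 σ
  choose f hf0 hf1 hf2 hf3 hf4 hf5 using hstep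
  let nxt : St μ C → St μ C := fun σ =>
    { F1 := σ.F1.image (fun s => s + ((f σ).1 + (f σ).2)) ∪
        σ.F2.image (fun s => s + (2 * (f σ).1 + (f σ).2))
      F2 := σ.F1.image (fun s => s + ((f σ).1 + 2 * (f σ).2)) ∪
        σ.F2.image (fun s => s + (2 * (f σ).1 + 2 * (f σ).2))
      h1 := by
        intro s hs
        rw [Finset.mem_union, Finset.mem_image, Finset.mem_image] at hs
        rcases hs with ⟨t, ht, rfl⟩ | ⟨t, ht, rfl⟩
        · exact hf2 σ t ht
        · exact hf4 σ t ht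
      h2 := by
        intro s hs
        rw [Finset.mem_union, Finset.mem_image, Finset.mem_image] at hs
        rcases hs with ⟨t, ht, rfl⟩ | ⟨t, ht, rfl⟩
        · exact hf3 σ t ht
        · exact hf5 σ t ht }
  let st0 : St μ C :=
    { F1 := {0}
      F2 := ∅
      h1 := by
        intro s hs
        rw [Finset.mem_singleton] at hs
        subst hs
        change {y | 0 + y ∈ C} ∈ _
        simpa using hcol
      h2 := by
        intro s hs
        exact absurd hs (Finset.notMem_empty s) }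
  let st : ℕ → St μ C := fun n => nxt^[n] st0
  have hst : ∀ n, st (n + 1) = nxt (st n) := fun n => Function.iterate_succ_apply' nxt n st0
  let J : ℕ → ℕ × ℕ := fun n => f (st n)
  let y : ℕ → ℕ := fun n => Nat.casesOn n (J 0).1 (fun m => (J m).2 + (J (m + 1)).1)
  have hy0 : y 0 = (J 0).1 := rfl
  have hy1 : ∀ m, y (m + 1) = (J m).2 + (J (m + 1)).1 := fun m => rfl
  refine ⟨y, ?_, col, ?_⟩
  · intro n
    cases n with
    | zero => rw [hy0]; exact hf0 _
    | succ m => rw [hy1]; have := hf0 (st (m + 1)); change 0 < (J m).2 + (f (st (m + 1))).1; omega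
  · -- the main claim
    have key : ∀ n : ℕ, ∀ a : ℕ → ℕ, (∀ i, a i = 1 ∨ a i = 2) → a 0 = 1 →
        (a n = 1 → (∑ i ∈ Finset.range n, (a i * (J i).1 + a (i + 1) * (J i).2)) ∈ (st n).F1) ∧
        (a n = 2 → (∑ i ∈ Finset.range n, (a i * (J i).1 + a (i + 1) * (J i).2)) ∈ (st n).F2) := by
      intro n a ha ha0
      induction n with
      | zero =>
        refine ⟨fun _ => ?_, fun h => ?_⟩
        · rw [Finset.sum_range_zero]
          exact Finset.mem_singleton_self 0
        · omega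
      | succ n ih =>
        rw [Finset.sum_range_succ, hst]
        refine ⟨fun h => ?_, fun h => ?_⟩
        · rw [h]
          change _ ∈ (st n).F1.image (fun s => s + ((f (st n)).1 + (f (st n)).2)) ∪
            (st n).F2.image (fun s => s + (2 * (f (st n)).1 + (f (st n)).2))
          rw [Finset.mem_union, Finset.mem_image, Finset.mem_image]
          rcases ha n with h1 | h1
          · left
            refine ⟨_, ih.1 h1, ?_⟩
            rw [h1, one_mul, one_mul]
          · right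
            refine ⟨_, ih.2 h1, ?_⟩
            rw [h1, one_mul]
        · rw [h]
          change _ ∈ (st n).F1.image (fun s => s + ((f (st n)).1 + 2 * (f (st n)).2)) ∪
            (st n).F2.image (fun s => s + (2 * (f (st n)).1 + 2 * (f (st n)).2))
          rw [Finset.mem_union, Finset.mem_image, Finset.mem_image]
          rcases ha n with h1 | h1
          · left
            refine ⟨_, ih.1 h1, ?_⟩
            rw [h1, one_mul]
          · right
            refine ⟨_, ih.2 h1, ?_⟩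
            rw [h1]
    have hsum : ∀ n : ℕ, ∀ a : ℕ → ℕ, (∑ i ∈ Finset.range (n + 1), a i * y i) =
        (∑ i ∈ Finset.range n, (a i * (J i).1 + a (i + 1) * (J i).2)) + a n * (J n).1 := by
      intro n a
      induction n with
      | zero => simp [hy0]
      | succ n ih =>
        rw [Finset.sum_range_succ, ih, Finset.sum_range_succ _ n, hy1]
        ring
    intro k hk a ha ha0 hak
    obtain ⟨n, rfl⟩ : ∃ n, k = n + 1 := ⟨k - 1, by omega⟩
    rw [Nat.add_sub_cancel] at hak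
    rw [hsum, hak, one_mul]
    exact hf1 (st n) _ ((key n a ha ha0).1 hak)

end Pool.Agent.H273R3.GR
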