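import Mathlib

set_option autoImplicit false

/-!
# Minimal idempotent ultrafilters and a recurrence theorem

`KL`: if `p` is a minimal idempotent of `βℕ` and `w : ℕ → βℕ` is a one-generator subsemigroup
of the group `p + βℕ + p` (with `w 0 = p`), then for all `C, E ∈ p` and all `K` there are
`x ∈ E` and `k ≥ K` with `{y | x + y ∈ C} ∈ w k`.
(In the language of Ellis groups: `p` lies in the `τ`-closure of `{w k : k ≥ K}`.)
-/

namespace Pool.Agent.H273R3.HLS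

open Filter

attribute [local instance] Ultrafilter.add Ultrafilter.addSemigroup

abbrev U := Ultrafilter ℕ

/-- minimal idempotents -/
def IsMin (p : U) : Prop := p + p = p ∧ ∀ r : U, ∃ h : U, h + (r + p) = p

theorem mem_add (p q : U) (A : Set ℕ) : A ∈ p + q ↔ {x | {y | x + y ∈ A} ∈ q} ∈ p := Iff.rfl

theorem shift_add (x : ℕ) (C : Set ℕ) (q r : U)
    (h : {y | {y' | x + y + y' ∈ C} ∈ r} ∈ q) : {y | x + y ∈ C} ∈ q + r := by
  have h' : {y | {y' | x + (y + y') ∈ C} ∈ r} ∈ q := by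
    simpa only [add_assoc] using h
  exact h'

theorem exists_isMin : ∃ p : U, IsMin p := by
  let S : Set (Set U) := {L | IsClosed L ∧ L.Nonempty ∧ ∀ r : U, ∀ q ∈ L, r + q ∈ L}
  rsuffices ⟨L, hL⟩ : ∃ L, Minimal (· ∈ S) L
  · obtain ⟨hclosed, hne, hleft⟩ := hL.prop
    obtain ⟨p, hpL, hpp⟩ := exists_idempotent_in_compact_add_subsemigroup
      (M := U) Ultrafilter.continuous_add_left L hne hclosed.isCompact
      (fun x _ y hy => hleft x y hy)
    refine ⟨p, hpp, fun r => ?_⟩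
    have hq : r + p ∈ L := hleft r p hpL
    have hcont : Continuous (fun h : U => h + (r + p)) := Ultrafilter.continuous_add_left (r + p)
    have hL' : Set.range (fun h : U => h + (r + p)) ∈ S := by
      refine ⟨?_, ⟨_, ⟨p, rfl⟩⟩, ?_⟩
      · exact (isCompact_range hcont).isClosed
      · rintro r' _ ⟨h, rfl⟩
        exact ⟨r' + h, add_assoc _ _ _⟩
    have hsub : Set.range (fun h : U => h + (r + p)) ⊆ L := by
      rintro _ ⟨h, rfl⟩
      exact hleft h _ hq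
    have heq := hL.eq_of_subset hL' hsub
    rw [← heq] at hpL
    obtain ⟨h, hh⟩ := hpL
    exact ⟨h, hh⟩
  refine zorn_superset _ fun c hcs hc => ?_
  refine ⟨⋂₀ c, ⟨isClosed_sInter fun t ht => (hcs ht).1, ?_, fun r q hq => ?_⟩, fun s hs =>
      Set.sInter_subset_of_mem hs⟩
  · obtain rfl | hcnemp := c.eq_empty_or_nonempty
    · rw [Set.sInter_empty]
      apply Set.univ_nonempty
    convert!
      @IsCompact.nonempty_iInter_of_directed_nonempty_isCompact_isClosed _ _ _ hcnemp.coe_sort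
        ((↑) : c → Set U) ?_ ?_ ?_ ?_
    · exact Set.sInter_eq_iInter
    · refine DirectedOn.directed_val (IsChain.directedOn hc.symm)
    exacts [fun i => (hcs i.prop).2.1, fun i => (hcs i.prop).1.isCompact, fun i => (hcs i.prop).1]
  · rw [Set.mem_sInter]
    exact fun t ht => (hcs ht).2.2 r q (Set.mem_sInter.mp hq t ht)

section group

variable {p : U}

/-- the group `p + βℕ + p` -/
def G (p : U) : Set U := {g | p + g = g ∧ g + p = g}

theorem G_add {g h : U} (hg : g ∈ G p) (hh : h ∈ G p) : g + h ∈ G p := by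
  refine ⟨?_, ?_⟩
  · rw [← add_assoc, hg.1]
  · rw [add_assoc, hh.2]

theorem G_self (hp : IsMin p) : p ∈ G p := ⟨hp.1, hp.1⟩

theorem G_inv (hp : IsMin p) {g : U} (hg : g ∈ G p) : ∃ h ∈ G p, h + g = p ∧ g + h = p := by
  have key : ∀ g : U, g ∈ G p → ∃ h ∈ G p, h + g = p := by
    intro g hg
    obtain ⟨h0, hh0⟩ := hp.2 g
    rw [hg.2] at hh0
    refine ⟨p + (h0 + p), ⟨?_, ?_⟩, ?_⟩
    · rw [← add_assoc, hp.1]
    · rw [add_assoc, add_assoc, hp.1]
    · rw [add_assoc, add_assoc, hg.1, hh0, hp.1]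
  obtain ⟨h, hh, hhg⟩ := key g hg
  obtain ⟨h1, hh1, hh1h⟩ := key h hh
  refine ⟨h, hh, hhg, ?_⟩
  have e1 : g = h1 := by
    calc g = p + g := hg.1.symm
      _ = (h1 + h) + g := by rw [hh1h]
      _ = h1 + (h + g) := add_assoc _ _ _
      _ = h1 + p := by rw [hhg]
      _ = h1 := hh1.2
  rw [e1]; exact hh1h

end group

section KL

variable {p : U} {w : ℕ → U}

/-- `r` is a limit of `x + w k`, `x → p`, `k → ∞`. -/
def T (p : U) (w : ℕ → U) (r : U) : Prop :=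
  ∀ K : ℕ, ∀ C E : Set ℕ, C ∈ r → E ∈ p → ∃ x ∈ E, ∃ k, K ≤ k ∧ {y | x + y ∈ C} ∈ w k

theorem w_mem (hw0 : w 0 = p) (hw : ∀ j k, w j + w k = w (j + k)) (k : ℕ) : w k ∈ G p := by
  refine ⟨?_, ?_⟩
  · rw [← hw0, hw, Nat.zero_add]
  · rw [← hw0, hw, Nat.add_zero]

/-- the star trick -/
theorem star_mem (hp : IsMin p) {E : Set ℕ} (hE : E ∈ p) :
    {x | x ∈ E ∧ {y | x + y ∈ E} ∈ p} ∈ p := by
  have h1 : {x | {y | x + y ∈ E} ∈ p} ∈ p := by
    have := hE
    rw [← hp.1] at this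
    exact this
  exact Filter.inter_mem hE h1

theorem T_exists (hp : IsMin p) (hw0 : w 0 = p) (hw : ∀ j k, w j + w k = w (j + k)) :
    ∃ r ∈ G p, T p w r := by
  -- a limit point
  let Q : Ultrafilter (ℕ × ℕ) := Ultrafilter.of ((p : Filter ℕ) ×ˢ (atTop : Filter ℕ))
  have hQ : (Q : Filter (ℕ × ℕ)) ≤ (p : Filter ℕ) ×ˢ (atTop : Filter ℕ) := Ultrafilter.of_le _
  let z : U := Ultrafilter.bind Q (fun xk => (pure xk.1 : U) + w xk.2)
  have hz : ∀ C : Set ℕ, C ∈ z → {xk : ℕ × ℕ | {y | xk.1 + y ∈ C} ∈ w xk.2} ∈ Q := by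
    intro C hC
    exact hC
  have hTz : T p w z := by
    intro K C E hC hE
    have h1 := hz C hC
    have h2 : E ×ˢ Set.Ici K ∈ (Q : Filter (ℕ × ℕ)) :=
      hQ (Filter.prod_mem_prod hE (Filter.Ici_mem_atTop K))
    obtain ⟨⟨x, k⟩, hx1, hx2⟩ := Ultrafilter.nonempty_of_mem (Filter.inter_mem h1 h2)
    exact ⟨x, hx2.1, k, hx2.2, hx1⟩
  refine ⟨p + (z + p), ⟨?_, ?_⟩, ?_⟩
  · rw [← add_assoc, hp.1]
  · rw [add_assoc, add_assoc, hp.1]
  · have hT1 : T p w (z + p) := by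
      intro K C E hC hE
      obtain ⟨x, hx, k, hk, hxk⟩ := hTz K _ E hC hE
      refine ⟨x, hx, k, hk, ?_⟩
      have h3 : {y | x + y ∈ C} ∈ w k + p :=
        shift_add x C _ _ hxk
      rw [(w_mem hw0 hw k).2] at h3
      exact h3
    intro K C E hC hE
    have h1 : {x | {y | x + y ∈ C} ∈ z + p} ∈ p := hC
    obtain ⟨x, hx1, hx2⟩ := Ultrafilter.nonempty_of_mem (Filter.inter_mem h1 (star_mem hp hE))
    obtain ⟨x', hx', k, hk, hxk⟩ := hT1 K _ _ hx1 hx2.2
    refine ⟨x + x', hx', k, hk, ?_⟩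
    have : {y | x + (x' + y) ∈ C} ∈ w k := hxk
    simpa [add_assoc] using this

/-- left translation by `w j` preserves `T` -/
theorem T_left (hp : IsMin p) (hw0 : w 0 = p) (hw : ∀ j k, w j + w k = w (j + k))
    {r : U} (hr : T p w r) (j : ℕ) : T p w (w j + r) := by
  intro K C E hC hE
  obtain ⟨h, hh, hhg, hgh⟩ := G_inv hp (w_mem hw0 hw j)
  have e1 : w j + (p + h) = p := by rw [hh.1, hgh]
  have hE' : {a | {x' | {y | a + (x' + y) ∈ E} ∈ h} ∈ p} ∈ w j := by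
    have := hE
    rw [← e1] at this
    exact this
  have hC' : {a | {y | a + y ∈ C} ∈ r} ∈ w j := hC
  obtain ⟨a, ha1, ha2⟩ := Ultrafilter.nonempty_of_mem (Filter.inter_mem hE' hC')
  obtain ⟨x', hx', k, hk, hxk⟩ := hr K _ _ ha2 ha1
  have hxk' : {y | a + (x' + y) ∈ C} ∈ w k := hxk
  have e2 : w k = h + w (j + k) := by
    rw [← hw j k, ← add_assoc, hhg, (w_mem hw0 hw k).1]
  rw [e2] at hxk'
  have h3 : {z | {y | a + (x' + (z + y)) ∈ C} ∈ w (j + k)} ∈ h := hxk'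
  have h4 : {y | a + (x' + y) ∈ E} ∈ h := hx'
  obtain ⟨z, hz1, hz2⟩ := Ultrafilter.nonempty_of_mem (Filter.inter_mem h3 h4)
  refine ⟨a + (x' + z), hz2, j + k, by omega, ?_⟩
  have : {y | a + (x' + (z + y)) ∈ C} ∈ w (j + k) := hz1
  simpa [add_assoc] using this

theorem T_add (hp : IsMin p) (hw0 : w 0 = p) (hw : ∀ j k, w j + w k = w (j + k))
    {r r' : U} (hr : T p w r) (hr' : T p w r') : T p w (r + r') := by
  intro K C E hC hE
  have hC' : {a | {y | a + y ∈ C} ∈ r'} ∈ r := hC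
  obtain ⟨x, hx, j, -, hxj⟩ := hr 0 _ _ hC' (star_mem hp hE)
  have h1 : {z | x + z ∈ C} ∈ w j + r' :=
    shift_add x C _ _ hxj
  obtain ⟨x', hx', k, hk, hxk⟩ := T_left hp hw0 hw hr' j K _ _ h1 hx.2
  refine ⟨x + x', hx', k, hk, ?_⟩
  have : {y | x + (x' + y) ∈ C} ∈ w k := hxk
  simpa [add_assoc] using this

/-- `z` is a limit of `x + s`, `x → p`, `s ∈ M` -/
def PC (p : U) (M : Set U) : Set U :=
  {z | ∀ C E : Set ℕ, C ∈ z → E ∈ p → ∃ x ∈ E, ∃ s ∈ M, {y | x + y ∈ C} ∈ s}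

theorem PC_closed (M : Set U) : IsClosed (PC p M) := by
  have : PC p M = ⋂ (C : Set ℕ), ⋂ (_ : ∃ E ∈ p, ∀ x ∈ E, ∀ s ∈ M, {y | x + y ∈ C} ∉ s),
      {z : U | C ∈ z}ᶜ := by
    ext z
    simp only [PC, Set.mem_ofPred_eq, Set.mem_iInter, Set.mem_compl_iff]
    constructor
    · rintro h C ⟨E, hE, hbad⟩ hC
      obtain ⟨x, hx, s, hs, hxs⟩ := h C E hC hE
      exact hbad x hx s hs hxs
    · intro h C E hC hE
      by_contra hcon
      push Not at hcon
      exact h C ⟨E, hE, hcon⟩ hC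
  rw [this]
  exact isClosed_iInter fun C => isClosed_iInter fun _ => (ultrafilter_isOpen_basic C).isClosed_compl

theorem PC_mono {M M' : Set U} (h : M ⊆ M') : PC p M ⊆ PC p M' := by
  intro z hz C E hC hE
  obtain ⟨x, hx, s, hs, hxs⟩ := hz C E hC hE
  exact ⟨x, hx, s, h hs, hxs⟩

theorem subset_PC {M : Set U} (hM : M ⊆ G p) : M ⊆ PC p M := by
  intro s hs C E hC hE
  rw [← (hM hs).1] at hC
  have h1 : {x | {y | x + y ∈ C} ∈ s} ∈ p := hC
  obtain ⟨x, hx1, hx2⟩ := Ultrafilter.nonempty_of_mem (Filter.inter_mem h1 hE)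
  exact ⟨x, hx2, s, hs, hx1⟩

theorem PC_conj (hp : IsMin p) {M : Set U} (hM : M ⊆ G p) {z : U} (hz : z ∈ PC p M) :
    p + (z + p) ∈ PC p M := by
  have hT1 : z + p ∈ PC p M := by
    intro C E hC hE
    obtain ⟨x, hx, s, hs, hxs⟩ := hz _ E hC hE
    refine ⟨x, hx, s, hs, ?_⟩
    have h3 : {y | x + y ∈ C} ∈ s + p :=
      shift_add x C _ _ hxs
    rw [(hM hs).2] at h3
    exact h3
  intro C E hC hE
  have h1 : {x | {y | x + y ∈ C} ∈ z + p} ∈ p := hC
  obtain ⟨x, hx1, hx2⟩ := Ultrafilter.nonempty_of_mem (Filter.inter_mem h1 (star_mem hp hE))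
  obtain ⟨x', hx', s, hs, hxs⟩ := hT1 _ _ hx1 hx2.2
  refine ⟨x + x', hx', s, hs, ?_⟩
  have : {y | x + (x' + y) ∈ C} ∈ s := hxs
  simpa [add_assoc] using this

/-- Recurrence: `p` is in the `τ`-closure of `{w k : k ≥ K}`. -/
theorem KL (hp : IsMin p) (hw0 : w 0 = p) (hw : ∀ j k, w j + w k = w (j + k)) : T p w p := by
  let M0 : Set U := {r | r ∈ G p ∧ T p w r}
  let S : Set (Set U) := {M | M ⊆ M0 ∧ M.Nonempty ∧ (∀ r ∈ G p, r ∈ PC p M → r ∈ M) ∧
    ∀ a ∈ M, ∀ b ∈ M, a + b ∈ M}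
  have hM0 : M0 ∈ S := by
    refine ⟨subset_rfl, ?_, ?_, ?_⟩
    · obtain ⟨r, hr, hT⟩ := T_exists hp hw0 hw
      exact ⟨r, hr, hT⟩
    · intro r hr hPC
      refine ⟨hr, ?_⟩
      intro K C E hC hE
      obtain ⟨x, hx, s, hs, hxs⟩ := hPC C _ hC (star_mem hp hE)
      obtain ⟨x', hx', k, hk, hxk⟩ := hs.2 K _ _ hxs hx.2
      refine ⟨x + x', hx', k, hk, ?_⟩
      have : {y | x + (x' + y) ∈ C} ∈ w k := hxk
      simpa [add_assoc] using this
    · intro a ha b hb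
      exact ⟨G_add ha.1 hb.1, T_add hp hw0 hw ha.2 hb.2⟩
  obtain ⟨M, hMM0, hM⟩ := zorn_superset_nonempty S (by
    intro c hcs hc hcne
    refine ⟨⋂₀ c, ⟨?_, ?_, ?_, ?_⟩, fun s hs => Set.sInter_subset_of_mem hs⟩
    · obtain ⟨t, ht⟩ := hcne
      exact (Set.sInter_subset_of_mem ht).trans (hcs ht).1
    · have hsubG : ∀ t ∈ c, t ⊆ G p := fun t ht s hs => ((hcs ht).1 hs).1
      have hne : (⋂ i : c, PC p (i : Set U)).Nonempty := by
        refine @IsCompact.nonempty_iInter_of_directed_nonempty_isCompact_isClosed _ _ _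
          hcne.coe_sort (fun i : c => PC p (i : Set U)) ?_ ?_ ?_ ?_
        · intro i j
          rcases hc.total i.2 j.2 with h | h
          · exact ⟨i, subset_rfl, PC_mono h⟩
          · exact ⟨j, PC_mono h, subset_rfl⟩
        · intro i
          exact (hcs i.2).2.1.mono (subset_PC (hsubG _ i.2))
        · intro i; exact (PC_closed _).isCompact
        · intro i; exact PC_closed _
      obtain ⟨z, hz⟩ := hne
      refine ⟨p + (z + p), ?_⟩
      rw [Set.mem_sInter]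
      intro t ht
      refine (hcs ht).2.2.1 _ ⟨?_, ?_⟩ (PC_conj hp (hsubG t ht) (Set.mem_iInter.mp hz ⟨t, ht⟩))
      · rw [← add_assoc, hp.1]
      · rw [add_assoc, add_assoc, hp.1]
    · intro r hr hPC
      rw [Set.mem_sInter]
      intro t ht
      exact (hcs ht).2.2.1 r hr (PC_mono (Set.sInter_subset_of_mem ht) hPC)
    · intro a ha b hb
      rw [Set.mem_sInter] at *
      intro t ht
      exact (hcs ht).2.2.2 a (ha t ht) b (hb t ht)) M0 hM0
  obtain ⟨hsub, ⟨a, ha⟩, hclosed, hadd⟩ := hM.prop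
  have hMG : M ⊆ G p := fun s hs => (hsub hs).1
  obtain ⟨b, hb, hba, hab⟩ := G_inv hp (hMG ha)
  have hM' : (fun s => s + a) '' M ∈ S := by
    refine ⟨?_, ⟨_, ⟨a, ha, rfl⟩⟩, ?_, ?_⟩
    · rintro _ ⟨s, hs, rfl⟩
      exact hsub (hadd s hs a ha)
    · intro r hr hPC
      refine ⟨r + b, ?_, ?_⟩
      · refine hclosed _ (G_add hr hb) ?_
        intro C E hC hE
        have hC' : {x | {y | x + y ∈ C} ∈ b} ∈ r := hC
        obtain ⟨x, hx, _, ⟨s, hs, rfl⟩, hxs⟩ := hPC _ E hC' hE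
        refine ⟨x, hx, s, hs, ?_⟩
        have h3 : {y | x + y ∈ C} ∈ (s + a) + b :=
          shift_add x C _ _ hxs
        rw [add_assoc, hab, (hMG hs).2] at h3
        exact h3
      · show r + b + a = r
        rw [add_assoc, hba, hr.2]
    · rintro _ ⟨s, hs, rfl⟩ _ ⟨s', hs', rfl⟩
      refine ⟨s + a + s', hadd _ (hadd s hs a ha) s' hs', ?_⟩
      exact add_assoc _ _ _
  have hsub' : (fun s => s + a) '' M ⊆ M := by
    rintro _ ⟨s, hs, rfl⟩
    exact hadd s hs a ha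
  have heq := hM.eq_of_subset hM' hsub'
  have ha' := ha
  rw [← heq] at ha'
  obtain ⟨s, hs, hsa⟩ := ha'
  have hsp : s = p := by
    have hsa' : s + a = a := hsa
    calc s = s + p := (hMG hs).2.symm
      _ = s + (a + b) := by rw [hab]
      _ = (s + a) + b := (add_assoc _ _ _).symm
      _ = a + b := by rw [hsa']
      _ = p := hab
  rw [hsp] at hs
  exact (hsub hs).2

end KL

end Pool.Agent.H273R3.HLS
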