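import Pool.Agent.H273R3.HLSa

set_option autoImplicit false

/-!
# The block lemma
-/

namespace Pool.Agent.H273R3.HLS

open Filter

attribute [local instance] Ultrafilter.add Ultrafilter.addSemigroup

/-- the ultrafilter `2p` -/
def dbl (p : U) : U := p.map (fun x => 2 * x)

theorem mem_dbl (p : U) (A : Set ℕ) : A ∈ dbl p ↔ {x | 2 * x ∈ A} ∈ p := Iff.rfl

/-- powers of `u = p + 2p + p` -/
def pw (p : U) : ℕ → U
  | 0 => p
  | k + 1 => p + (dbl p + pw p k)

theorem pw_left {p : U} (hp : p + p = p) (k : ℕ) : p + pw p k = pw p k := by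
  cases k with
  | zero => exact hp
  | succ k =>
    show p + (p + (dbl p + pw p k)) = p + (dbl p + pw p k)
    rw [← add_assoc, hp]

theorem pw_add {p : U} (hp : p + p = p) (j k : ℕ) : pw p j + pw p k = pw p (j + k) := by
  induction j with
  | zero => rw [Nat.zero_add]; exact pw_left hp k
  | succ j ih =>
    rw [show j + 1 + k = (j + k) + 1 by omega]
    show (p + (dbl p + pw p j)) + pw p k = p + (dbl p + pw p (j + k))
    rw [add_assoc, add_assoc, ih]

/-- the star set of `A` -/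
def St (p : U) (A : Set ℕ) : Set ℕ := {x | x ∈ A ∧ {y | x + y ∈ A} ∈ p}

/-- `s` is good for `A` -/
def Good (p : U) (A : Set ℕ) (s : ℕ) : Prop := {y | s + y ∈ St p A} ∈ p

theorem good_of_mem {p : U} (hp : p + p = p) {A : Set ℕ} {s : ℕ} (hs : {y | s + y ∈ A} ∈ p) :
    Good p A s := by
  have h1 : {y | {y' | s + y + y' ∈ A} ∈ p} ∈ p := by
    have h2 := hs
    rw [← hp] at h2
    have h3 : {y | {y' | s + (y + y') ∈ A} ∈ p} ∈ p := h2
    simpa only [add_assoc] using h3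
  exact Filter.inter_mem hs h1

theorem good_zero {p : U} (hp : p + p = p) {A : Set ℕ} (hA : A ∈ p) : Good p A 0 :=
  good_of_mem hp (by simpa using hA)

theorem good_add {p : U} (hp : p + p = p) {A : Set ℕ} {s y : ℕ} (h : s + y ∈ St p A) :
    Good p A (s + y) := good_of_mem hp h.2

theorem good_St {p : U} (hp : p + p = p) {A : Set ℕ} {s : ℕ} (h : s ∈ St p A) :
    Good p A s := good_of_mem hp h.2

/-- choose one generic -/
theorem pick {p : U} (hp : p + p = p) (S : List (ℕ × Set ℕ)) (hS : ∀ q ∈ S, Good p q.2 q.1) :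
    {t | ∀ q ∈ S, q.1 + t ∈ St p q.2} ∈ p := by
  induction S with
  | nil =>
    refine Filter.mem_of_superset Filter.univ_mem ?_
    intro t _ q hq
    simp at hq
  | cons q S ih =>
    have h1 := hS q (by simp)
    have h2 := ih (fun q' hq' => hS q' (by simp [hq']))
    refine Filter.mem_of_superset (Filter.inter_mem h1 h2) ?_
    rintro t ⟨ht1, ht2⟩ q' hq'
    rcases List.mem_cons.mp hq' with rfl | h
    · exact ht1
    · exact ht2 q' h

/-- The block lemma. -/
theorem block {p : U} (hp : p + p = p) (hpos : {x : ℕ | 0 < x} ∈ p) (C : Set ℕ) (m' : ℕ) :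
    ∀ (m : ℕ) (X e : ℕ) (S : List (ℕ × Set ℕ)),
      (∀ q ∈ S, Good p q.2 q.1) →
      {y | X + y ∈ C} ∈ pw p (m + 1) →
      {y | e + y ∈ C} ∈ dbl p + pw p (m + m') →
      ∃ e' z' : ℕ, 0 < z' ∧
        (∀ q ∈ S, q.1 + e' ∈ St p q.2 ∧ q.1 + z' ∈ St p q.2 ∧ q.1 + (e' + z') ∈ St p q.2) ∧
        {y | X + 2 * z' + e' + y ∈ C} ∈ p ∧
        {y | e + z' + 2 * e' + y ∈ C} ∈ pw p m' := by
  intro m
  induction m with
  | zero =>
    intro X e S hS hX hE
    rw [Nat.zero_add] at hE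
    -- choose t1
    have hX1 : {t | {y | X + (t + y) ∈ C} ∈ dbl p + p} ∈ p := hX
    have hE1 : {t | {y | e + (2 * t + y) ∈ C} ∈ pw p m'} ∈ p := hE
    obtain ⟨t1, ht1⟩ := Ultrafilter.nonempty_of_mem
      (Filter.inter_mem (Filter.inter_mem hX1 hE1) (Filter.inter_mem (pick hp S hS) hpos))
    obtain ⟨⟨ha, hb⟩, hc, -⟩ := ht1
    -- choose t2
    have ha1 : {t | {y | X + (t1 + (2 * t + y)) ∈ C} ∈ p} ∈ p := ha
    have hb1 : {t | {y | e + (2 * t1 + (t + y)) ∈ C} ∈ pw p m'} ∈ p := by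
      have := hb
      change {y | e + (2 * t1 + y) ∈ C} ∈ pw p m' at this
      rw [← pw_left hp m'] at this
      exact this
    have hS2 : ∀ q ∈ S.map (fun q => (q.1 + t1, q.2)), Good p q.2 q.1 := by
      intro q hq
      obtain ⟨q0, hq0, rfl⟩ := List.mem_map.mp hq
      exact good_St hp (hc q0 hq0)
    obtain ⟨t2, ht2⟩ := Ultrafilter.nonempty_of_mem
      (Filter.inter_mem (Filter.inter_mem ha1 hb1)
        (Filter.inter_mem (Filter.inter_mem (pick hp S hS) (pick hp _ hS2)) hpos))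
    obtain ⟨⟨ha2, hb2⟩, ⟨hc2, hd2⟩, hpos2⟩ := ht2
    refine ⟨t1, t2, hpos2, ?_, ?_, ?_⟩
    · intro q hq
      refine ⟨hc q hq, hc2 q hq, ?_⟩
      have := hd2 (q.1 + t1, q.2) (List.mem_map.mpr ⟨q, hq, rfl⟩)
      rw [← add_assoc]; exact this
    · have : {y | X + (t1 + (2 * t2 + y)) ∈ C} ∈ p := ha2
      refine Filter.mem_of_superset this ?_
      intro y hy
      have hy' : X + (t1 + (2 * t2 + y)) ∈ C := hy
      show X + 2 * t2 + t1 + y ∈ C
      rwa [show X + 2 * t2 + t1 + y = X + (t1 + (2 * t2 + y)) by ring]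
    · have : {y | e + (2 * t1 + (t2 + y)) ∈ C} ∈ pw p m' := hb2
      refine Filter.mem_of_superset this ?_
      intro y hy
      have hy' : e + (2 * t1 + (t2 + y)) ∈ C := hy
      show e + t2 + 2 * t1 + y ∈ C
      rwa [show e + t2 + 2 * t1 + y = e + (2 * t1 + (t2 + y)) by ring]
  | succ m ih =>
    intro X e S hS hX hE
    have hX1 : {t | {y | X + (t + y) ∈ C} ∈ dbl p + pw p (m + 1)} ∈ p := hX
    rw [show m + 1 + m' = (m + m') + 1 by omega] at hE
    have hE1 : {t | {y | e + (2 * t + y) ∈ C} ∈ pw p ((m + m') + 1)} ∈ p := hE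
    obtain ⟨t1, ht1⟩ := Ultrafilter.nonempty_of_mem
      (Filter.inter_mem (Filter.inter_mem hX1 hE1) (Filter.inter_mem (pick hp S hS) hpos))
    obtain ⟨⟨ha, hb⟩, hc, -⟩ := ht1
    have ha1 : {t | {y | X + (t1 + (2 * t + y)) ∈ C} ∈ pw p (m + 1)} ∈ p := ha
    have hb1 : {t | {y | e + (2 * t1 + (t + y)) ∈ C} ∈ dbl p + pw p (m + m')} ∈ p := hb
    have hS2 : ∀ q ∈ S.map (fun q => (q.1 + t1, q.2)), Good p q.2 q.1 := by
      intro q hq
      obtain ⟨q0, hq0, rfl⟩ := List.mem_map.mp hq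
      exact good_St hp (hc q0 hq0)
    obtain ⟨t2, ht2⟩ := Ultrafilter.nonempty_of_mem
      (Filter.inter_mem (Filter.inter_mem ha1 hb1)
        (Filter.inter_mem (Filter.inter_mem (pick hp S hS) (pick hp _ hS2)) hpos))
    obtain ⟨⟨ha2, hb2⟩, ⟨hc2, hd2⟩, hpos2⟩ := ht2
    have hS3 : ∀ q ∈ S.map (fun q => (q.1 + t2, q.2)), Good p q.2 q.1 := by
      intro q hq
      obtain ⟨q0, hq0, rfl⟩ := List.mem_map.mp hq
      exact good_St hp (hc2 q0 hq0)
    have hS4 : ∀ q ∈ S.map (fun q => (q.1 + t1 + t2, q.2)), Good p q.2 q.1 := by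
      intro q hq
      obtain ⟨q0, hq0, rfl⟩ := List.mem_map.mp hq
      exact good_St hp (hd2 (q0.1 + t1, q0.2) (List.mem_map.mpr ⟨q0, hq0, rfl⟩))
    obtain ⟨e', z', hz', hall, hXX, hEE⟩ := ih (X + t1 + 2 * t2) (e + 2 * t1 + t2)
      (S.map (fun q => (q.1 + t1, q.2)) ++ (S.map (fun q => (q.1 + t2, q.2)) ++
        S.map (fun q => (q.1 + t1 + t2, q.2))))
      (by
        intro q hq
        rcases List.mem_append.mp hq with h | h
        · exact hS2 q h
        · rcases List.mem_append.mp h with h | h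
          · exact hS3 q h
          · exact hS4 q h)
      (by
        have : {y | X + (t1 + (2 * t2 + y)) ∈ C} ∈ pw p (m + 1) := ha2
        refine Filter.mem_of_superset this ?_
        intro y hy
        have hy' : X + (t1 + (2 * t2 + y)) ∈ C := hy
        show X + t1 + 2 * t2 + y ∈ C
        rwa [show X + t1 + 2 * t2 + y = X + (t1 + (2 * t2 + y)) by ring])
      (by
        have : {y | e + (2 * t1 + (t2 + y)) ∈ C} ∈ dbl p + pw p (m + m') := hb2
        have h2 : {y | e + (2 * t1 + (t2 + y)) ∈ C} = {y | e + 2 * t1 + t2 + y ∈ C} := by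
          ext y
          show e + (2 * t1 + (t2 + y)) ∈ C ↔ e + 2 * t1 + t2 + y ∈ C
          rw [show e + 2 * t1 + t2 + y = e + (2 * t1 + (t2 + y)) by ring]
        rwa [h2] at this)
    refine ⟨t1 + e', t2 + z', by omega, ?_, ?_, ?_⟩
    · intro q hq
      have h1 := hall (q.1 + t1, q.2) (List.mem_append.mpr (Or.inl (List.mem_map.mpr ⟨q, hq, rfl⟩)))
      have h2 := hall (q.1 + t2, q.2) (List.mem_append.mpr (Or.inr (List.mem_append.mpr
        (Or.inl (List.mem_map.mpr ⟨q, hq, rfl⟩)))))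
      have h3 := hall (q.1 + t1 + t2, q.2) (List.mem_append.mpr (Or.inr (List.mem_append.mpr
        (Or.inr (List.mem_map.mpr ⟨q, hq, rfl⟩)))))
      refine ⟨?_, ?_, ?_⟩
      · rw [← add_assoc]; exact h1.1
      · rw [← add_assoc]; exact h2.2.1
      · have := h3.2.2
        change q.1 + t1 + t2 + (e' + z') ∈ St p q.2 at this
        rwa [show q.1 + (t1 + e' + (t2 + z')) = q.1 + t1 + t2 + (e' + z') by ring]
    · have h2 : {y | X + t1 + 2 * t2 + 2 * z' + e' + y ∈ C} =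
          {y | X + 2 * (t2 + z') + (t1 + e') + y ∈ C} := by
        ext y
        show X + t1 + 2 * t2 + 2 * z' + e' + y ∈ C ↔ X + 2 * (t2 + z') + (t1 + e') + y ∈ C
        rw [show X + t1 + 2 * t2 + 2 * z' + e' + y = X + 2 * (t2 + z') + (t1 + e') + y by ring]
      rwa [h2] at hXX
    · have h2 : {y | e + 2 * t1 + t2 + z' + 2 * e' + y ∈ C} =
          {y | e + (t2 + z') + 2 * (t1 + e') + y ∈ C} := by
        ext y
        show e + 2 * t1 + t2 + z' + 2 * e' + y ∈ C ↔ e + (t2 + z') + 2 * (t1 + e') + y ∈ C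
        rw [show e + 2 * t1 + t2 + z' + 2 * e' + y = e + (t2 + z') + 2 * (t1 + e') + y by ring]
      rwa [h2] at hEE

/-- the set of `e` that can be continued by `(2p + p)^(k+1)` for some `k ≥ K` -/
def H (p : U) (C : Set ℕ) (K : ℕ) : Set ℕ :=
  {e | ∃ k, K ≤ k ∧ {y | e + y ∈ C} ∈ dbl p + pw p k}

theorem H_mem {p : U} (hp : IsMin p) {C : Set ℕ} (hC : C ∈ p) (K : ℕ) : H p C K ∈ p := by
  by_contra hcon
  have hcon' : (H p C K)ᶜ ∈ p := Ultrafilter.compl_mem_iff_notMem.mpr hcon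
  obtain ⟨x, hx, k, hk, hxk⟩ := KL (w := pw p) hp rfl (pw_add hp.1) (K + 1) C _ hC
    (star_mem hp hcon')
  obtain ⟨k, rfl⟩ : ∃ k', k = k' + 1 := ⟨k - 1, by omega⟩
  have h1 : {t | {y | x + (t + y) ∈ C} ∈ dbl p + pw p k} ∈ p := hxk
  obtain ⟨t, ht1, ht2⟩ := Ultrafilter.nonempty_of_mem (Filter.inter_mem h1 hx.2)
  apply ht2
  refine ⟨k, by omega, ?_⟩
  have ht1' : {y | x + (t + y) ∈ C} ∈ dbl p + pw p k := ht1
  simpa only [add_assoc] using ht1'

theorem pos_mem {p : U} (hp : IsMin p) : {x : ℕ | 0 < x} ∈ p := by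
  obtain ⟨h, hh⟩ := hp.2 (pure 1)
  rw [← hh]
  show {a | {b | 0 < a + b} ∈ (pure 1 : U) + p} ∈ h
  refine Filter.mem_of_superset Filter.univ_mem ?_
  intro a _
  show {b | {c | 0 < a + (b + c)} ∈ p} ∈ (pure 1 : U)
  show {c | 0 < a + (1 + c)} ∈ p
  refine Filter.mem_of_superset Filter.univ_mem ?_
  intro c _
  show 0 < a + (1 + c)
  omega

end Pool.Agent.H273R3.HLS
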