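import Pool.Agent.H273R3.HLSb

set_option autoImplicit false

/-!
# The sequence
-/

namespace Pool.Agent.H273R3.HLS

open Filter

attribute [local instance] Ultrafilter.add Ultrafilter.addSemigroup

structure State (p : U) (C : Set ℕ) where
  e : ℕ
  X : ℕ
  W : ℕ
  m : ℕ
  m' : ℕ
  S0 : List ℕ
  h0 : 0 ∈ S0
  hG : ∀ s ∈ S0, Good p C s
  hC : ∀ s ∈ S0, s = 0 ∨ s ∈ C
  hSe : ∀ s ∈ S0, s + e ∈ St p C
  hW : {y | W + y ∈ C} ∈ p
  hX : {y | X + y ∈ C} ∈ pw p (m + 1)
  hE : {y | e + y ∈ C} ∈ dbl p + pw p (m + (m' + 1))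

theorem step {p : U} (hp : IsMin p) {C : Set ℕ} (hCp : C ∈ p) (σ : State p C) :
    ∃ (z : ℕ) (τ : State p C), 0 < z ∧ σ.W + z ∈ C ∧ τ.X = σ.e + z + 2 * τ.e ∧
      τ.W = σ.X + 2 * z + τ.e ∧ τ.S0 = σ.S0 ++ σ.S0.map (fun s => s + (σ.e + z)) := by
  obtain ⟨e', z', hz', hall, hXX, hEE⟩ := block hp.1 (pos_mem hp) C (σ.m' + 1) σ.m σ.X σ.e
    (σ.S0.map (fun s => (s, C)) ++ (σ.S0.map (fun s => (s + σ.e, C)) ++
      [(σ.W, C), (0, H p C (σ.m' + 1))]))
    (by
      intro q hq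
      rcases List.mem_append.mp hq with h | h
      · obtain ⟨s, hs, rfl⟩ := List.mem_map.mp h
        exact σ.hG s hs
      · rcases List.mem_append.mp h with h | h
        · obtain ⟨s, hs, rfl⟩ := List.mem_map.mp h
          exact good_St hp.1 (σ.hSe s hs)
        · rcases List.mem_cons.mp h with rfl | h
          · exact good_of_mem hp.1 σ.hW
          · rcases List.mem_cons.mp h with rfl | h
            · exact good_zero hp.1 (H_mem hp hCp _)
            · simp at h) σ.hX σ.hE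
  have hall1 : ∀ s ∈ σ.S0, s + e' ∈ St p C ∧ s + z' ∈ St p C ∧ s + (e' + z') ∈ St p C :=
    fun s hs => hall (s, C) (List.mem_append.mpr (Or.inl (List.mem_map.mpr ⟨s, hs, rfl⟩)))
  have hall2 : ∀ s ∈ σ.S0, s + σ.e + e' ∈ St p C ∧ s + σ.e + z' ∈ St p C ∧
      s + σ.e + (e' + z') ∈ St p C :=
    fun s hs => hall (s + σ.e, C) (List.mem_append.mpr (Or.inr (List.mem_append.mpr
      (Or.inl (List.mem_map.mpr ⟨s, hs, rfl⟩)))))
  have hall3 := hall (σ.W, C) (by simp)
  have hall4 := hall (0, H p C (σ.m' + 1)) (by simp)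
  obtain ⟨k, hk, hek⟩ : 0 + e' ∈ H p C (σ.m' + 1) := hall4.1.1
  rw [Nat.zero_add] at hek
  obtain ⟨m'', rfl⟩ : ∃ m'', k = σ.m' + (m'' + 1) := ⟨k - σ.m' - 1, by omega⟩
  refine ⟨z', ⟨e', σ.e + z' + 2 * e', σ.X + 2 * z' + e', σ.m', m'',
    σ.S0 ++ σ.S0.map (fun s => s + (σ.e + z')), ?_, ?_, ?_, ?_, hXX, hEE, hek⟩, hz',
    hall3.2.1.1, rfl, rfl, rfl⟩
  · exact List.mem_append.mpr (Or.inl σ.h0)
  · intro s hs
    rcases List.mem_append.mp hs with h | h
    · exact σ.hG s h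
    · obtain ⟨s0, hs0, rfl⟩ := List.mem_map.mp h
      refine good_St hp.1 ?_
      rw [← add_assoc]
      exact (hall2 s0 hs0).2.1
  · intro s hs
    rcases List.mem_append.mp hs with h | h
    · exact σ.hC s h
    · obtain ⟨s0, hs0, rfl⟩ := List.mem_map.mp h
      right
      rw [← add_assoc]
      exact (hall2 s0 hs0).2.1.1
  · intro s hs
    rcases List.mem_append.mp hs with h | h
    · exact (hall1 s h).1
    · obtain ⟨s0, hs0, rfl⟩ := List.mem_map.mp h
      have := (hall2 s0 hs0).2.2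
      rwa [show s0 + (σ.e + z') + e' = s0 + σ.e + (e' + z') by ring]

theorem init {p : U} (hp : IsMin p) {C : Set ℕ} (hCp : C ∈ p) :
    ∃ σ : State p C, σ.S0 = [0] := by
  obtain ⟨x, -, k, hk, hxk⟩ := KL (w := pw p) hp rfl (pw_add hp.1) 1 C Set.univ hCp
    Filter.univ_mem
  obtain ⟨m, rfl⟩ : ∃ m, k = m + 1 := ⟨k - 1, by omega⟩
  obtain ⟨e, he1, k', hk', hek⟩ := Ultrafilter.nonempty_of_mem
    (Filter.inter_mem (star_mem hp hCp) (H_mem hp hCp (m + 1)))
  obtain ⟨m', rfl⟩ : ∃ m', k' = m + (m' + 1) := ⟨k' - m - 1, by omega⟩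
  refine ⟨⟨e, x, 0, m, m', [0], by simp, ?_, ?_, ?_, ?_, hxk, hek⟩, rfl⟩
  · intro s hs
    rw [List.mem_singleton.mp hs]
    exact good_zero hp.1 hCp
  · intro s hs
    left; exact List.mem_singleton.mp hs
  · intro s hs
    rw [List.mem_singleton.mp hs, Nat.zero_add]
    exact he1
  · simpa using hCp

theorem main (k : ℕ) (c : ℕ → Fin k) : ∃ y : ℕ → ℕ, (∀ n, 0 < y n) ∧
      ∃ col : Fin k,
        (∀ s : Finset ℕ, s.Nonempty → c (∑ i ∈ s, y i) = col) ∧
        (∀ n : ℕ, c (y n + 2 * y (n + 1) + y (n + 2)) = col) := by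
  obtain ⟨p, hp⟩ := exists_isMin
  obtain ⟨col, hcol⟩ := (p.map c).eq_pure_of_finite
  set C : Set ℕ := {x | c x = col} with hCdef
  have hCp : C ∈ p := by
    have : ({col} : Set (Fin k)) ∈ p.map c := by
      rw [hcol]; exact Set.mem_singleton col
    exact this
  choose z τ h1 h2 h3 h4 h5 using fun σ : State p C => step hp hCp σ
  obtain ⟨σ0, hσ0⟩ := init hp hCp
  let σ : ℕ → State p C := fun n => Nat.rec σ0 (fun _ s => τ s) n
  have hσ : ∀ n, σ (n + 1) = τ (σ n) := fun n => rfl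
  let y : ℕ → ℕ := fun n => (σ n).e + z (σ n)
  have hy : ∀ n, 0 < y n := fun n => by
    have := h1 (σ n)
    show 0 < (σ n).e + z (σ n)
    omega
  have hsum : ∀ n, ∀ F : Finset ℕ, (∀ i ∈ F, i < n) → ∑ i ∈ F, y i ∈ (σ n).S0 := by
    intro n
    induction n with
    | zero =>
      intro F hF
      have : F = ∅ := by
        apply Finset.eq_empty_of_forall_notMem
        intro i hi
        exact absurd (hF i hi) (Nat.not_lt_zero i)
      subst this
      show _ ∈ σ0.S0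
      rw [hσ0]; simp
    | succ n ih =>
      intro F hF
      rw [hσ, h5]
      by_cases hn : n ∈ F
      · refine List.mem_append.mpr (Or.inr (List.mem_map.mpr ⟨∑ i ∈ F.erase n, y i, ?_, ?_⟩))
        · apply ih
          intro i hi
          have h6 := hF i (Finset.mem_of_mem_erase hi)
          have h7 := Finset.ne_of_mem_erase hi
          omega
        · exact Finset.sum_erase_add F y hn
      · refine List.mem_append.mpr (Or.inl (ih F ?_))
        intro i hi
        have h6 := hF i hi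
        have h7 : i ≠ n := fun h => hn (h ▸ hi)
        omega
  refine ⟨y, hy, col, ?_, ?_⟩
  · intro s hs
    obtain ⟨N, hN⟩ : ∃ N, ∀ i ∈ s, i < N := ⟨s.sup id + 1, fun i hi =>
      Nat.lt_succ_of_le (Finset.le_sup (f := id) hi)⟩
    have h6 := hsum N s hN
    rcases (σ N).hC _ h6 with h | h
    · exfalso
      have : 0 < ∑ i ∈ s, y i := Finset.sum_pos (fun i _ => hy i) hs
      omega
    · exact h
  · intro n
    have h6 := h2 (σ (n + 2))
    have e1 : (σ (n + 2)).W = (σ (n + 1)).X + 2 * z (σ (n + 1)) + (σ (n + 2)).e := h4 (σ (n + 1))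
    have e2 : (σ (n + 1)).X = (σ n).e + z (σ n) + 2 * (σ (n + 1)).e := h3 (σ n)
    have e3 : y n + 2 * y (n + 1) + y (n + 2) = (σ (n + 2)).W + z (σ (n + 2)) := by
      rw [e1, e2]
      show (σ n).e + z (σ n) + 2 * ((σ (n + 1)).e + z (σ (n + 1))) +
        ((σ (n + 2)).e + z (σ (n + 2))) = _
      ring
    rw [e3]
    exact h6

end Pool.Agent.H273R3.HLS
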