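import Mathlib

set_option autoImplicit false

namespace Pool.Agent.H273R3.Pat

open Finset

/-- The listed edges of the forest: a double star whose leaf edges are one class and whose central
edge lies in the second class, two more edges of the second class, and a double star forming the
third class. -/
def L : List (Fin 16 × Fin 16) :=
  [(8,9),(12,13),(14,15),(8,7),(8,6),(9,5),(9,4),(10,11),(10,3),(10,2),(11,1),(11,0)]

/-- The forest. -/
def F : Finset (Finset (Fin 16)) :=
  (L.map (fun q => ({q.1, q.2} : Finset (Fin 16)))).toFinset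

/-- The classes of the pattern. -/
def p (e : Finset (Fin 16)) : Fin 3 :=
  if e = {8,9} ∨ e = {12,13} ∨ e = {14,15} then 1
  else if e = {8,7} ∨ e = {8,6} ∨ e = {9,5} ∨ e = {9,4} then 0 else 2

lemma mem_F (e : Finset (Fin 16)) : e ∈ F ↔ ∃ q ∈ L, e = {q.1, q.2} := by
  rw [F, List.mem_toFinset, List.mem_map]
  constructor
  · rintro ⟨q, hq, h⟩; exact ⟨q, hq, h.symm⟩
  · rintro ⟨q, hq, h⟩; exact ⟨q, hq, h.symm⟩

lemma F_card : ∀ e ∈ F, e.card = 2 := by
  intro e he
  obtain ⟨q, hq, rfl⟩ := (mem_F e).mp he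
  revert q
  decide +kernel

set_option maxRecDepth 100000 in
lemma F_linear : ∀ e ∈ F, ∀ f ∈ F, e ≠ f → (e ∩ f).card ≤ 1 := by
  intro e he f hf
  obtain ⟨q, hq, rfl⟩ := (mem_F e).mp he
  obtain ⟨q', hq', rfl⟩ := (mem_F f).mp hf
  revert q q'
  decide +kernel

/-- class of a listed pair -/
def cls (q : Fin 16 × Fin 16) : Fin 3 :=
  if q = (8,9) ∨ q = (12,13) ∨ q = (14,15) then 1
  else if q = (8,7) ∨ q = (8,6) ∨ q = (9,5) ∨ q = (9,4) then 0 else 2

lemma p_cls : ∀ q ∈ L, p {q.1, q.2} = cls q := by decide +kernel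

lemma p_surj : ∀ i : Fin 3, ∃ e ∈ F, p e = i := by
  intro i
  have h : ∀ i : Fin 3, ∃ q ∈ L, cls q = i := by decide +kernel
  obtain ⟨q, hq, hi⟩ := h i
  exact ⟨{q.1, q.2}, (mem_F _).mpr ⟨q, hq, rfl⟩, (p_cls q hq).trans hi⟩

/-- Choosing a new vertex. -/
lemma pick {n : ℕ} (S : Finset (Fin n)) (l : List (Fin n)) (h : l.length < S.card) :
    ∃ x ∈ S, x ∉ l := by
  by_contra hcon
  push Not at hcon
  have hsub : S ⊆ l.toFinset := fun x hx => List.mem_toFinset.mpr (hcon x hx)
  have h1 := Finset.card_le_card hsub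
  have h2 := List.toFinset_card_le l
  omega

/-- Greedy embedding of the sixteen vertices. -/
lemma embed {n : ℕ} (Nα Nγ : Fin n → Finset (Fin n)) (a b c d x y z w : Fin n)
    (hnd : [a, b, c, d, x, y, z, w].Nodup)
    (ha : 16 ≤ (Nα a).card) (hb : 16 ≤ (Nα b).card)
    (hc : 16 ≤ (Nγ c).card) (hd : 16 ≤ (Nγ d).card) :
    ∃ φ : Fin 16 → Fin n, Function.Injective φ ∧ φ 8 = a ∧ φ 9 = b ∧ φ 10 = c ∧ φ 11 = d ∧
      φ 12 = x ∧ φ 13 = y ∧ φ 14 = z ∧ φ 15 = w ∧
      φ 7 ∈ Nα a ∧ φ 6 ∈ Nα a ∧ φ 5 ∈ Nα b ∧ φ 4 ∈ Nα b ∧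
      φ 3 ∈ Nγ c ∧ φ 2 ∈ Nγ c ∧ φ 1 ∈ Nγ d ∧ φ 0 ∈ Nγ d := by
  obtain ⟨l0, h0, n0⟩ := pick (Nα a) [a, b, c, d, x, y, z, w] (by simp only [List.length_cons, List.length_nil]; omega)
  obtain ⟨l1, h1, n1⟩ := pick (Nα a) (l0 :: [a, b, c, d, x, y, z, w]) (by simp only [List.length_cons, List.length_nil]; omega)
  obtain ⟨l2, h2, n2⟩ := pick (Nα b) (l1 :: l0 :: [a, b, c, d, x, y, z, w]) (by simp only [List.length_cons, List.length_nil]; omega)
  obtain ⟨l3, h3, n3⟩ := pick (Nα b) (l2 :: l1 :: l0 :: [a, b, c, d, x, y, z, w]) (by simp only [List.length_cons, List.length_nil]; omega)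
  obtain ⟨l4, h4, n4⟩ := pick (Nγ c) (l3 :: l2 :: l1 :: l0 :: [a, b, c, d, x, y, z, w]) (by simp only [List.length_cons, List.length_nil]; omega)
  obtain ⟨l5, h5, n5⟩ := pick (Nγ c) (l4 :: l3 :: l2 :: l1 :: l0 :: [a, b, c, d, x, y, z, w]) (by simp only [List.length_cons, List.length_nil]; omega)
  obtain ⟨l6, h6, n6⟩ := pick (Nγ d) (l5 :: l4 :: l3 :: l2 :: l1 :: l0 :: [a, b, c, d, x, y, z, w]) (by simp only [List.length_cons, List.length_nil]; omega)
  obtain ⟨l7, h7, n7⟩ := pick (Nγ d) (l6 :: l5 :: l4 :: l3 :: l2 :: l1 :: l0 :: [a, b, c, d, x, y, z, w]) (by simp only [List.length_cons, List.length_nil]; omega)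
  have hall : [l7, l6, l5, l4, l3, l2, l1, l0, a, b, c, d, x, y, z, w].Nodup :=
    List.nodup_cons.mpr ⟨n7, List.nodup_cons.mpr ⟨n6, List.nodup_cons.mpr ⟨n5,
      List.nodup_cons.mpr ⟨n4, List.nodup_cons.mpr ⟨n3, List.nodup_cons.mpr ⟨n2,
      List.nodup_cons.mpr ⟨n1, List.nodup_cons.mpr ⟨n0, hnd⟩⟩⟩⟩⟩⟩⟩⟩
  refine ⟨![l7, l6, l5, l4, l3, l2, l1, l0, a, b, c, d, x, y, z, w], ?_,
    rfl, rfl, rfl, rfl, rfl, rfl, rfl, rfl, h0, h1, h2, h3, h4, h5, h6, h7⟩
  rw [← List.nodup_ofFn]
  exact hall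

/-- Matching or cover. -/
lemma matching_or_cover {n : ℕ} (q : ℕ) : ∀ (R : Fin n → Fin n → Prop), (∀ u, ¬ R u u) →
    (∃ l : List (Fin n × Fin n), l.length = q + 1 ∧ (∀ e ∈ l, R e.1 e.2) ∧
      (l.flatMap (fun e => [e.1, e.2])).Nodup) ∨
    (∃ Z : Finset (Fin n), Z.card ≤ 2 * q ∧ ∀ u v, R u v → u ∈ Z ∨ v ∈ Z) := by
  induction q with
  | zero =>
    intro R hR
    by_cases h : ∃ u v, R u v
    · obtain ⟨u, v, huv⟩ := h
      left
      refine ⟨[(u, v)], rfl, by simpa using huv, ?_⟩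
      have : u ≠ v := by rintro rfl; exact hR u huv
      simpa using this
    · right
      push Not at h
      exact ⟨∅, by simp, fun u v huv => absurd huv (h u v)⟩
  | succ q ih =>
    intro R hR
    by_cases h : ∃ u v, R u v
    · obtain ⟨u, v, huv⟩ := h
      have huv' : u ≠ v := by rintro rfl; exact hR u huv
      rcases ih (fun x y => R x y ∧ x ≠ u ∧ x ≠ v ∧ y ≠ u ∧ y ≠ v) (fun x hx => hR x hx.1) with
        ⟨l, hl, hlR, hnd⟩ | ⟨Z, hZ, hcov⟩
      · left
        refine ⟨(u, v) :: l, by simp [hl], ?_, ?_⟩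
        · intro e he
          rcases List.mem_cons.mp he with rfl | he
          · exact huv
          · exact (hlR e he).1
        · rw [List.flatMap_cons]
          have hu : u ∉ l.flatMap (fun e => [e.1, e.2]) := by
            intro hmem
            rw [List.mem_flatMap] at hmem
            obtain ⟨e, he, hx⟩ := hmem
            have := hlR e he
            simp only [List.mem_cons, List.not_mem_nil, or_false] at hx
            rcases hx with hx | hx
            · exact this.2.1 hx.symm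
            · exact this.2.2.2.1 hx.symm
          have hv : v ∉ l.flatMap (fun e => [e.1, e.2]) := by
            intro hmem
            rw [List.mem_flatMap] at hmem
            obtain ⟨e, he, hx⟩ := hmem
            have := hlR e he
            simp only [List.mem_cons, List.not_mem_nil, or_false] at hx
            rcases hx with hx | hx
            · exact this.2.2.1 hx.symm
            · exact this.2.2.2.2 hx.symm
          show (u :: v :: l.flatMap (fun e => [e.1, e.2])).Nodup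
          rw [List.nodup_cons, List.nodup_cons, List.mem_cons]
          refine ⟨?_, hv, hnd⟩
          rintro (h1 | h1)
          · exact huv' h1
          · exact hu h1
      · right
        refine ⟨Z ∪ {u, v}, ?_, ?_⟩
        · have h1 := Finset.card_union_le Z {u, v}
          have h2 : ({u, v} : Finset (Fin n)).card ≤ 2 := Finset.card_le_two
          omega
        · intro x y hxy
          by_cases h1 : x = u ∨ x = v
          · left; rcases h1 with rfl | rfl <;> simp
          · by_cases h2 : y = u ∨ y = v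
            · right; rcases h2 with rfl | rfl <;> simp
            · push Not at h1 h2
              rcases hcov x y ⟨hxy, h1.1, h1.2, h2.1, h2.2⟩ with h3 | h3
              · left; simp [h3]
              · right; simp [h3]
    · right
      push Not at h
      exact ⟨∅, by simp, fun u v huv => absurd huv (h u v)⟩

/-- Counting pairs through a set of vertices. -/
lemma count_pairs {n : ℕ} (E : Finset (Finset (Fin n))) (B : Finset (Fin n))
    (N : Fin n → Finset (Fin n)) (m : ℕ) (hN : ∀ v ∈ B, (N v).card ≤ m)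
    (hE : ∀ e ∈ E, ∃ v ∈ B, ∃ u ∈ N v, e = {v, u}) : E.card ≤ B.card * m := by
  classical
  have hsub : E ⊆ B.biUnion (fun v => (N v).image (fun u => {v, u})) := by
    intro e he
    obtain ⟨v, hv, u, hu, rfl⟩ := hE e he
    rw [Finset.mem_biUnion]
    exact ⟨v, hv, Finset.mem_image.mpr ⟨u, hu, rfl⟩⟩
  calc E.card ≤ _ := Finset.card_le_card hsub
    _ ≤ ∑ v ∈ B, ((N v).image (fun u => ({v, u} : Finset (Fin n)))).card := Finset.card_biUnion_le
    _ ≤ ∑ v ∈ B, m := Finset.sum_le_sum (fun v hv => Finset.card_image_le.trans (hN v hv))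
    _ = B.card * m := by rw [Finset.sum_const, smul_eq_mul]

/-- Counting a product of two vertex sets. -/
lemma count_prod {n : ℕ} (B G : Finset (Fin n)) (N1 N2 : Fin n → Finset (Fin n)) (m1 m2 : ℕ)
    (h1 : ∀ v ∈ B, (N1 v).card ≤ m1) (h2 : ∀ u ∈ G, (N2 u).card ≤ m2)
    (h : ∀ v ∈ B, ∀ u ∈ G, u ∈ N1 v ∨ v ∈ N2 u) : B.card * G.card ≤ B.card * m1 + G.card * m2 := by
  classical
  have hsub : B ×ˢ G ⊆ (B.biUnion (fun v => (N1 v).image (fun u => (v, u)))) ∪
      (G.biUnion (fun u => (N2 u).image (fun v => (v, u)))) := by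
    intro q hq
    obtain ⟨v, u⟩ := q
    rw [Finset.mem_product] at hq
    rw [Finset.mem_union, Finset.mem_biUnion, Finset.mem_biUnion]
    rcases h v hq.1 u hq.2 with h' | h'
    · exact Or.inl ⟨v, hq.1, Finset.mem_image.mpr ⟨u, h', rfl⟩⟩
    · exact Or.inr ⟨u, hq.2, Finset.mem_image.mpr ⟨v, h', rfl⟩⟩
  rw [← Finset.card_product]
  calc (B ×ˢ G).card ≤ _ := Finset.card_le_card hsub
    _ ≤ _ + _ := Finset.card_union_le _ _
    _ ≤ (∑ v ∈ B, ((N1 v).image (fun u => (v, u))).card) +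
        (∑ u ∈ G, ((N2 u).image (fun v => (v, u))).card) :=
          Nat.add_le_add Finset.card_biUnion_le Finset.card_biUnion_le
    _ ≤ (∑ v ∈ B, m1) + (∑ u ∈ G, m2) :=
          Nat.add_le_add (Finset.sum_le_sum (fun v hv => Finset.card_image_le.trans (h1 v hv)))
            (Finset.sum_le_sum (fun u hu => Finset.card_image_le.trans (h2 u hu)))
    _ = B.card * m1 + G.card * m2 := by simp [Finset.sum_const, smul_eq_mul]

end Pool.Agent.H273R3.Pat
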