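import Mathlib
import Pool.Agent.H273R3.PatA

set_option autoImplicit false

namespace Pool.Agent.H273R3.Pat

open Finset

/-- All pairs. -/
abbrev K (n : ℕ) : Finset (Finset (Fin n)) := Finset.powersetCard 2 Finset.univ

/-- Neighbours in colour `i`. -/
def Nb {n : ℕ} (c : Finset (Fin n) → Option (Fin 3)) (i : Fin 3) (v : Fin n) : Finset (Fin n) :=
  Finset.univ.filter (fun u => c {v, u} = some i)

/-- Vertices with many neighbours in colour `i`. -/
def A {n : ℕ} (c : Finset (Fin n) → Option (Fin 3)) (i : Fin 3) : Finset (Fin n) :=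
  Finset.univ.filter (fun v => 16 ≤ (Nb c i v).card)

lemma mem_Nb {n : ℕ} (c : Finset (Fin n) → Option (Fin 3)) (i : Fin 3) (v u : Fin n) :
    u ∈ Nb c i v ↔ c {v, u} = some i := by simp [Nb]

lemma mem_A {n : ℕ} (c : Finset (Fin n) → Option (Fin 3)) (i : Fin 3) (v : Fin n) :
    v ∈ A c i ↔ 16 ≤ (Nb c i v).card := by simp [A]

/-- No copy of the forest in the pattern. -/
def Pfree {n : ℕ} (H : Finset (Finset (Fin n))) (c : Finset (Fin n) → Option (Fin 3)) : Prop :=
  ¬ ∃ φ : Fin 16 → Fin n, Function.Injective φ ∧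
                (∀ e ∈ F, e.image φ ∈ H) ∧
                (∀ e ∈ F, ∀ e' ∈ F,
                  (c (e.image φ) = c (e'.image φ) ↔ p e = p e'))

lemma image_pair {n : ℕ} (φ : Fin 16 → Fin n) (a b : Fin 16) :
    ({a, b} : Finset (Fin 16)).image φ = {φ a, φ b} := by
  simp [Finset.image_insert]

/-- The pattern appears once the core edges are found. -/
lemma core {n : ℕ} (c : Finset (Fin n) → Option (Fin 3)) (hK : ∀ e, c e = none ↔ e ∉ K n)
    (hfree : Pfree (K n) c) (α β γ : Fin 3) (hαβ : α ≠ β) (hαγ : α ≠ γ) (hβγ : β ≠ γ)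
    (a b u v x y z w : Fin n) (hnd : [a, b, u, v, x, y, z, w].Nodup)
    (hab : c {a, b} = some β) (ha : a ∈ A c α) (hb : b ∈ A c α)
    (huv : c {u, v} = some γ) (hu : u ∈ A c γ) (hv : v ∈ A c γ)
    (hxy : c {x, y} = some β) (hzw : c {z, w} = some β) : False := by
  rw [mem_A] at ha hb hu hv
  obtain ⟨φ, hinj, e8, e9, e10, e11, e12, e13, e14, e15, e7, e6, e5, e4, e3, e2, e1, e0⟩ :=
    embed (Nb c α) (Nb c γ) a b u v x y z w hnd ha hb hu hv
  rw [mem_Nb] at e7 e6 e5 e4 e3 e2 e1 e0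
  let σ : Fin 3 → Fin 3 := ![α, β, γ]
  have hσ : Function.Injective σ := by
    rw [← List.nodup_ofFn]
    show [α, β, γ].Nodup
    simp [hαβ, hαγ, hβγ]
  have hcol : ∀ q ∈ L, c (({q.1, q.2} : Finset (Fin 16)).image φ) = some (σ (cls q)) := by
    intro q hq
    rw [image_pair]
    simp only [L, List.mem_cons, List.not_mem_nil, or_false] at hq
    rcases hq with rfl | rfl | rfl | rfl | rfl | rfl | rfl | rfl | rfl | rfl | rfl | rfl
    · show c {φ 8, φ 9} = some (σ 1); rw [e8, e9]; exact hab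
    · show c {φ 12, φ 13} = some (σ 1); rw [e12, e13]; exact hxy
    · show c {φ 14, φ 15} = some (σ 1); rw [e14, e15]; exact hzw
    · show c {φ 8, φ 7} = some (σ 0); rw [e8]; exact e7
    · show c {φ 8, φ 6} = some (σ 0); rw [e8]; exact e6
    · show c {φ 9, φ 5} = some (σ 0); rw [e9]; exact e5
    · show c {φ 9, φ 4} = some (σ 0); rw [e9]; exact e4
    · show c {φ 10, φ 11} = some (σ 2); rw [e10, e11]; exact huv
    · show c {φ 10, φ 3} = some (σ 2); rw [e10]; exact e3
    · show c {φ 10, φ 2} = some (σ 2); rw [e10]; exact e2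
    · show c {φ 11, φ 1} = some (σ 2); rw [e11]; exact e1
    · show c {φ 11, φ 0} = some (σ 2); rw [e11]; exact e0
  apply hfree
  refine ⟨φ, hinj, ?_, ?_⟩
  · intro e he
    obtain ⟨q, hq, rfl⟩ := (mem_F e).mp he
    by_contra hcon
    rw [← hK, hcol q hq] at hcon
    exact absurd hcon (by simp)
  · intro e he e' he'
    obtain ⟨q, hq, rfl⟩ := (mem_F e).mp he
    obtain ⟨q', hq', rfl⟩ := (mem_F e').mp he'
    rw [hcol q hq, hcol q' hq', p_cls q hq, p_cls q' hq', Option.some_inj]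
    exact hσ.eq_iff

section Structure

variable {n : ℕ} {c : Finset (Fin n) → Option (Fin 3)} (hK : ∀ e, c e = none ↔ e ∉ K n)
include hK

lemma irr (u : Fin n) (i : Fin 3) : c {u, u} ≠ some i := by
  intro h
  have : ({u, u} : Finset (Fin n)) ∉ K n := by
    rw [Finset.mem_powersetCard]
    intro h2
    have := h2.2
    rw [Finset.pair_eq_singleton, Finset.card_singleton] at this
    omega
  rw [← hK, h] at this
  exact absurd this (by simp)

lemma ne_of_col {u v : Fin n} {i : Fin 3} (h : c {u, v} = some i) : u ≠ v := by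
  rintro rfl
  exact irr hK u i h

lemma col_cases (α β γ : Fin 3) (hαβ : α ≠ β) (hαγ : α ≠ γ) (hβγ : β ≠ γ) {u v : Fin n}
    (huv : u ≠ v) : c {u, v} = some α ∨ c {u, v} = some β ∨ c {u, v} = some γ := by
  have hmem : ({u, v} : Finset (Fin n)) ∈ K n := by
    rw [Finset.mem_powersetCard]
    exact ⟨Finset.subset_univ _, Finset.card_pair huv⟩
  have hne : c {u, v} ≠ none := by
    intro h
    rw [hK] at h
    exact h hmem
  obtain ⟨i, hi⟩ := Option.ne_none_iff_exists'.mp hne
  rw [hi]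
  have : ∀ i α β γ : Fin 3, α ≠ β → α ≠ γ → β ≠ γ → i = α ∨ i = β ∨ i = γ := by decide
  rcases this i α β γ hαβ hαγ hβγ with rfl | rfl | rfl <;> simp

/-- Degrees add up. -/
lemma deg_sum (α β γ : Fin 3) (hαβ : α ≠ β) (hαγ : α ≠ γ) (hβγ : β ≠ γ) (v : Fin n) :
    n - 1 ≤ (Nb c α v).card + (Nb c β v).card + (Nb c γ v).card := by
  classical
  have hsub : Finset.univ.erase v ⊆ (Nb c α v ∪ Nb c β v) ∪ Nb c γ v := by
    intro u hu
    have hne : v ≠ u := (Finset.ne_of_mem_erase hu).symm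
    rw [Finset.mem_union, Finset.mem_union, mem_Nb, mem_Nb, mem_Nb]
    rcases col_cases hK α β γ hαβ hαγ hβγ hne with h | h | h
    · exact Or.inl (Or.inl h)
    · exact Or.inl (Or.inr h)
    · exact Or.inr h
  have h1 := Finset.card_le_card hsub
  rw [Finset.card_erase_of_mem (Finset.mem_univ _), Finset.card_univ, Fintype.card_fin] at h1
  have h2 := Finset.card_union_le (Nb c α v ∪ Nb c β v) (Nb c γ v)
  have h3 := Finset.card_union_le (Nb c α v) (Nb c β v)
  omega

/-- Pairs as elements of `K n`. -/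
lemma pair_of_mem {e : Finset (Fin n)} (he : e ∈ K n) : ∃ u v, u ≠ v ∧ e = {u, v} := by
  rw [Finset.mem_powersetCard] at he
  obtain ⟨u, v, huv, rfl⟩ := Finset.card_eq_two.mp he.2
  exact ⟨u, v, huv, rfl⟩

/-- If some `γ`-edge joins two vertices of high `γ`-degree, then the `β`-edges inside `A α`
have a small cover. -/
lemma cover6 (hfree : Pfree (K n) c) (α β γ : Fin 3) (hαβ : α ≠ β) (hαγ : α ≠ γ) (hβγ : β ≠ γ)
    (hγ : ∃ u v, c {u, v} = some γ ∧ u ∈ A c γ ∧ v ∈ A c γ) :
    ∃ Z : Finset (Fin n), Z.card ≤ 6 ∧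
      ∀ x y, c {x, y} = some β → x ∈ A c α → y ∈ A c α → x ∈ Z ∨ y ∈ Z := by
  obtain ⟨u, v, huv, hu, hv⟩ := hγ
  have hne := ne_of_col hK huv
  rcases matching_or_cover 2 (fun x y => c {x, y} = some β ∧ x ∈ A c α ∧ y ∈ A c α ∧
      x ≠ u ∧ x ≠ v ∧ y ≠ u ∧ y ≠ v) (fun x hx => irr hK x β hx.1) with
    ⟨l, hl, hlR, hnd⟩ | ⟨Z, hZ, hcov⟩
  · exfalso
    obtain ⟨e1, e2, e3, rfl⟩ := List.length_eq_three.mp hl
    obtain ⟨a, b⟩ := e1
    obtain ⟨x, y⟩ := e2
    obtain ⟨z, w⟩ := e3
    have h1 := hlR (a, b) (by simp)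
    have h2 := hlR (x, y) (by simp)
    have h3 := hlR (z, w) (by simp)
    simp only at h1 h2 h3
    have hnd' : [a, b, x, y, z, w].Nodup := hnd
    refine core c hK hfree α β γ hαβ hαγ hβγ a b u v x y z w ?_ h1.1 h1.2.1 h1.2.2.1 huv hu hv
      h2.1 h3.1
    have hperm : [u, v, a, b, x, y, z, w].Nodup := by
      rw [List.nodup_cons, List.nodup_cons]
      refine ⟨?_, ?_, hnd'⟩
      · simp only [List.mem_cons, List.not_mem_nil, or_false, not_or]
        exact ⟨hne, h1.2.2.2.1.symm, h1.2.2.2.2.2.1.symm, h2.2.2.2.1.symm, h2.2.2.2.2.2.1.symm,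
          h3.2.2.2.1.symm, h3.2.2.2.2.2.1.symm⟩
      · simp only [List.mem_cons, List.not_mem_nil, or_false, not_or]
        exact ⟨h1.2.2.2.2.1.symm, h1.2.2.2.2.2.2.symm, h2.2.2.2.2.1.symm, h2.2.2.2.2.2.2.symm,
          h3.2.2.2.2.1.symm, h3.2.2.2.2.2.2.symm⟩
    have hp : ([u, v] ++ ([a, b] ++ [x, y, z, w])).Perm ([a, b] ++ ([u, v] ++ [x, y, z, w])) := by
      rw [← List.append_assoc, ← List.append_assoc]
      exact List.perm_append_comm.append_right _
    exact hp.nodup_iff.mp hperm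
  · refine ⟨Z ∪ {u, v}, ?_, ?_⟩
    · have h1 := Finset.card_union_le Z {u, v}
      have h2 : ({u, v} : Finset (Fin n)).card ≤ 2 := Finset.card_le_two
      omega
    · intro x y hxy hx hy
      by_cases h1 : x = u ∨ x = v
      · left; rcases h1 with rfl | rfl <;> simp
      · by_cases h2 : y = u ∨ y = v
        · right; rcases h2 with rfl | rfl <;> simp
        · push Not at h1 h2
          rcases hcov x y ⟨hxy, hx, hy, h1.1, h1.2, h2.1, h2.2⟩ with h3 | h3
          · left; simp [h3]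
          · right; simp [h3]

/-- A colour with no edge between two of its high-degree vertices is sparse. -/
lemma sparse_pairs (γ : Fin 3) (Z : Finset (Fin n))
    (hγ : ∀ u v, c {u, v} = some γ → u ∈ A c γ → v ∈ A c γ → u ∈ Z ∨ v ∈ Z) :
    ((K n).filter (fun e => c e = some γ)).card ≤ n * 16 + Z.card * n := by
  classical
  have hsub : (K n).filter (fun e => c e = some γ) ⊆
      ((K n).filter (fun e => ∃ v ∈ (Finset.univ : Finset (Fin n)), ∃ u ∈ (if v ∈ A c γ then ∅ else Nb c γ v),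
          e = {v, u})) ∪ ((K n).filter (fun e => ∃ v ∈ Z, ∃ u ∈ (Finset.univ : Finset (Fin n)), e = {v, u})) := by
    intro e he
    rw [Finset.mem_filter] at he
    obtain ⟨u, v, huv, rfl⟩ := pair_of_mem hK he.1
    rw [Finset.mem_union, Finset.mem_filter, Finset.mem_filter]
    by_cases hu : u ∈ A c γ
    · by_cases hv : v ∈ A c γ
      · right
        rcases hγ u v he.2 hu hv with h | h
        · exact ⟨he.1, u, h, v, Finset.mem_univ _, rfl⟩
        · exact ⟨he.1, v, h, u, Finset.mem_univ _, Finset.pair_comm _ _⟩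
      · left
        refine ⟨he.1, v, Finset.mem_univ _, u, ?_, Finset.pair_comm _ _⟩
        rw [if_neg hv, mem_Nb, Finset.pair_comm]; exact he.2
    · left
      refine ⟨he.1, u, Finset.mem_univ _, v, ?_, rfl⟩
      rw [if_neg hu, mem_Nb]; exact he.2
  have h1 : ((K n).filter (fun e => ∃ v ∈ (Finset.univ : Finset (Fin n)), ∃ u ∈ (if v ∈ A c γ then ∅ else Nb c γ v),
          e = {v, u})).card ≤ n * 16 := by
    have := count_pairs ((K n).filter (fun e => ∃ v ∈ (Finset.univ : Finset (Fin n)), ∃ u ∈ (if v ∈ A c γ then ∅ else Nb c γ v),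
          e = {v, u})) Finset.univ (fun v => if v ∈ A c γ then ∅ else Nb c γ v) 16 ?_ ?_
    · rwa [Finset.card_univ, Fintype.card_fin] at this
    · intro v _
      by_cases hv : v ∈ A c γ
      · simp [hv]
      · simp only [hv, if_false]
        rw [mem_A] at hv; omega
    · intro e he
      rw [Finset.mem_filter] at he
      exact he.2
  have h2 : ((K n).filter (fun e => ∃ v ∈ Z, ∃ u ∈ (Finset.univ : Finset (Fin n)), e = {v, u})).card ≤ Z.card * n := by
    refine count_pairs _ Z (fun _ => Finset.univ) n ?_ ?_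
    · intro v _
      rw [Finset.card_univ, Fintype.card_fin]
    · intro e he
      rw [Finset.mem_filter] at he
      exact he.2
  have h3 := Finset.card_le_card hsub
  have h4 := Finset.card_union_le ((K n).filter (fun e => ∃ v ∈ (Finset.univ : Finset (Fin n)), ∃ u ∈ (if v ∈ A c γ then ∅ else Nb c γ v),
          e = {v, u})) ((K n).filter (fun e => ∃ v ∈ Z, ∃ u ∈ (Finset.univ : Finset (Fin n)), e = {v, u}))
  omega

end Structure

end Pool.Agent.H273R3.Pat
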