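import Mathlib
import Pool.Agent.H273R3.PatB

set_option autoImplicit false
set_option linter.unusedSectionVars false

namespace Pool.Agent.H273R3.Pat

open Finset

/-- Almost all pairs have colour `β`. -/
def Small {n : ℕ} (c : Finset (Fin n) → Option (Fin 3)) (β : Fin 3) : Prop :=
  ((K n).filter (fun e => c e ≠ some β)).card ≤ 96 * n

/-- Colour `γ` is confined to one vertex, up to boundedly many pairs. -/
def MainAt {n : ℕ} (c : Finset (Fin n) → Option (Fin 3)) (γ : Fin 3) : Prop :=
  ∃ w : Fin n, ((K n).filter (fun e => c e = some γ ∧ w ∉ e)).card ≤ 855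

section Structure

variable {n : ℕ} {c : Finset (Fin n) → Option (Fin 3)} (hK : ∀ e, c e = none ↔ e ∉ K n)
include hK

lemma small_of (α β γ : Fin 3) (hαβ : α ≠ β) (hαγ : α ≠ γ) (hβγ : β ≠ γ)
    (h : ((K n).filter (fun e => c e = some β)).card + ((K n).filter (fun e => c e = some γ)).card
      ≤ 96 * n) : Small c α := by
  classical
  have hsub : (K n).filter (fun e => c e ≠ some α) ⊆
      (K n).filter (fun e => c e = some β) ∪ (K n).filter (fun e => c e = some γ) := by
    intro e he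
    rw [Finset.mem_filter] at he
    obtain ⟨u, v, huv, rfl⟩ := pair_of_mem hK he.1
    rw [Finset.mem_union, Finset.mem_filter, Finset.mem_filter]
    rcases col_cases hK α β γ hαβ hαγ hβγ huv with h | h | h
    · exact absurd h he.2
    · exact Or.inl ⟨he.1, h⟩
    · exact Or.inr ⟨he.1, h⟩
  exact (Finset.card_le_card hsub).trans ((Finset.card_union_le _ _).trans h)

lemma case_two (α β γ : Fin 3) (hαβ : α ≠ β) (hαγ : α ≠ γ) (hβγ : β ≠ γ)
    (Iβ : ∀ u v, c {u, v} = some β → u ∈ A c β → v ∈ A c β → False)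
    (Iγ : ∀ u v, c {u, v} = some γ → u ∈ A c γ → v ∈ A c γ → False) : Small c α := by
  have h1 := sparse_pairs hK β ∅ (fun u v h1 h2 h3 => (Iβ u v h1 h2 h3).elim)
  have h2 := sparse_pairs hK γ ∅ (fun u v h1 h2 h3 => (Iγ u v h1 h2 h3).elim)
  rw [Finset.card_empty, zero_mul] at h1 h2
  apply small_of hK α β γ hαβ hαγ hβγ
  omega

lemma case_none (hn : 300 ≤ n) (hfree : Pfree (K n) c)
    (α β γ : Fin 3) (hαβ : α ≠ β) (hαγ : α ≠ γ) (hβγ : β ≠ γ)
    (hα : ∃ u v, c {u, v} = some α ∧ u ∈ A c α ∧ v ∈ A c α)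
    (hβ : ∃ u v, c {u, v} = some β ∧ u ∈ A c β ∧ v ∈ A c β)
    (hγ : ∃ u v, c {u, v} = some γ ∧ u ∈ A c γ ∧ v ∈ A c γ)
    (hbig : n ≤ 3 * (A c α).card) : Small c α := by
  classical
  obtain ⟨Z1, hZ1, c1⟩ := cover6 hK hfree α β γ hαβ hαγ hβγ hγ
  obtain ⟨Z2, hZ2, c2⟩ := cover6 hK hfree α γ β hαγ hαβ hβγ.symm hβ
  obtain ⟨Z3, hZ3, c3⟩ := cover6 hK hfree β α γ hαβ.symm hβγ hαγ hγ
  obtain ⟨Z4, hZ4, c4⟩ := cover6 hK hfree γ α β hαγ.symm hβγ.symm hαβ hβ
  set Z := (Z1 ∪ Z2) ∪ (Z3 ∪ Z4) with hZ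
  have hZc : Z.card ≤ 24 := by
    rw [hZ]
    have h1 := Finset.card_union_le (Z1 ∪ Z2) (Z3 ∪ Z4)
    have h2 := Finset.card_union_le Z1 Z2
    have h3 := Finset.card_union_le Z3 Z4
    omega
  have m1 : ∀ x, x ∈ Z1 → x ∈ Z := fun x hx => by simp [hZ, hx]
  have m2 : ∀ x, x ∈ Z2 → x ∈ Z := fun x hx => by simp [hZ, hx]
  have m3 : ∀ x, x ∈ Z3 → x ∈ Z := fun x hx => by simp [hZ, hx]
  have m4 : ∀ x, x ∈ Z4 → x ∈ Z := fun x hx => by simp [hZ, hx]
  -- intersections are small
  have i1 : ((A c α ∩ A c β) \ Z).card ≤ 1 := by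
    rw [Finset.card_le_one]
    intro u hu v hv
    by_contra huv
    rw [Finset.mem_sdiff, Finset.mem_inter] at hu hv
    rcases col_cases hK α β γ hαβ hαγ hβγ huv with h | h | h
    · rcases c3 u v h hu.1.2 hv.1.2 with h' | h'
      · exact hu.2 (m3 _ h')
      · exact hv.2 (m3 _ h')
    · rcases c1 u v h hu.1.1 hv.1.1 with h' | h'
      · exact hu.2 (m1 _ h')
      · exact hv.2 (m1 _ h')
    · rcases c2 u v h hu.1.1 hv.1.1 with h' | h'
      · exact hu.2 (m2 _ h')
      · exact hv.2 (m2 _ h')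
  have i2 : ((A c α ∩ A c γ) \ Z).card ≤ 1 := by
    rw [Finset.card_le_one]
    intro u hu v hv
    by_contra huv
    rw [Finset.mem_sdiff, Finset.mem_inter] at hu hv
    rcases col_cases hK α β γ hαβ hαγ hβγ huv with h | h | h
    · rcases c4 u v h hu.1.2 hv.1.2 with h' | h'
      · exact hu.2 (m4 _ h')
      · exact hv.2 (m4 _ h')
    · rcases c1 u v h hu.1.1 hv.1.1 with h' | h'
      · exact hu.2 (m1 _ h')
      · exact hv.2 (m1 _ h')
    · rcases c2 u v h hu.1.1 hv.1.1 with h' | h'
      · exact hu.2 (m2 _ h')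
      · exact hv.2 (m2 _ h')
  set G := A c α \ (Z ∪ (A c β ∪ A c γ)) with hG
  have hGc : (A c α).card ≤ G.card + 26 := by
    have hsub : A c α ⊆ (G ∪ Z) ∪ (((A c α ∩ A c β) \ Z) ∪ ((A c α ∩ A c γ) \ Z)) := by
      intro x hx
      simp only [hG, Finset.mem_union, Finset.mem_sdiff, Finset.mem_inter]
      by_cases z : x ∈ Z <;> by_cases b : x ∈ A c β <;> by_cases g : x ∈ A c γ <;> simp [hx, z, b, g]
    have h1 := Finset.card_le_card hsub
    have h2 := Finset.card_union_le (G ∪ Z) (((A c α ∩ A c β) \ Z) ∪ ((A c α ∩ A c γ) \ Z))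
    have h3 := Finset.card_union_le G Z
    have h4 := Finset.card_union_le ((A c α ∩ A c β) \ Z) ((A c α ∩ A c γ) \ Z)
    omega
  set B := Finset.univ \ A c α with hB
  have hcount := count_prod B G (fun v => Nb c α v) (fun u => Nb c β u ∪ Nb c γ u) 15 30
    (by
      intro v hv
      rw [hB, Finset.mem_sdiff, mem_A] at hv
      omega)
    (by
      intro u hu
      rw [hG, Finset.mem_sdiff] at hu
      have hb : u ∉ A c β := fun h => hu.2 (Finset.mem_union_right _ (Finset.mem_union_left _ h))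
      have hg : u ∉ A c γ := fun h => hu.2 (Finset.mem_union_right _ (Finset.mem_union_right _ h))
      rw [mem_A] at hb hg
      have := Finset.card_union_le (Nb c β u) (Nb c γ u)
      omega)
    (by
      intro v hv u hu
      rw [hB, Finset.mem_sdiff] at hv
      rw [hG, Finset.mem_sdiff] at hu
      have hne : v ≠ u := by rintro rfl; exact hv.2 hu.1
      rcases col_cases hK α β γ hαβ hαγ hβγ hne with h | h | h
      · left; rw [mem_Nb]; exact h
      · right; rw [Finset.mem_union, mem_Nb, mem_Nb, Finset.pair_comm]; exact Or.inl h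
      · right; rw [Finset.mem_union, mem_Nb, mem_Nb, Finset.pair_comm]; exact Or.inr h)
  have hBc : B.card ≤ 60 := by
    by_contra hcon
    have h1 : 61 ≤ B.card := by omega
    have h2 : 30 ≤ G.card := by omega
    nlinarith
  -- count the non-α pairs
  have hfin : ((K n).filter (fun e => c e ≠ some α)).card ≤ (B ∪ Z).card * n := by
    refine count_pairs _ (B ∪ Z) (fun _ => Finset.univ) n ?_ ?_
    · intro v _
      rw [Finset.card_univ, Fintype.card_fin]
    · intro e he
      rw [Finset.mem_filter] at he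
      obtain ⟨u, v, huv, rfl⟩ := pair_of_mem hK he.1
      by_cases hu : u ∈ A c α
      · by_cases hv : v ∈ A c α
        · have : u ∈ Z ∨ v ∈ Z := by
            rcases col_cases hK α β γ hαβ hαγ hβγ huv with h | h | h
            · exact absurd h he.2
            · exact (c1 u v h hu hv).imp (m1 _) (m1 _)
            · exact (c2 u v h hu hv).imp (m2 _) (m2 _)
          rcases this with h | h
          · exact ⟨u, by simp [h], v, Finset.mem_univ _, rfl⟩
          · exact ⟨v, by simp [h], u, Finset.mem_univ _, Finset.pair_comm _ _⟩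
        · exact ⟨v, by simp [hB, hv], u, Finset.mem_univ _, Finset.pair_comm _ _⟩
      · exact ⟨u, by simp [hB, hu], v, Finset.mem_univ _, rfl⟩
  have h5 := Finset.card_union_le B Z
  have h6 : (B ∪ Z).card ≤ 96 := by omega
  exact hfin.trans (Nat.mul_le_mul_right _ h6)

lemma case_pair (hfree : Pfree (K n) c)
    (α β γ : Fin 3) (hαβ : α ≠ β) (hαγ : α ≠ γ) (hβγ : β ≠ γ)
    (Iγ : ∀ u v, c {u, v} = some γ → u ∈ A c γ → v ∈ A c γ → False)
    (u v : Fin n) (hu : u ∈ A c γ) (hv : v ∈ A c γ) (huv : c {u, v} = some β) :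
    ∃ i, Small c i := by
  classical
  have hg := sparse_pairs hK γ ∅ (fun u v h1 h2 h3 => (Iγ u v h1 h2 h3).elim)
  rw [Finset.card_empty, zero_mul] at hg
  have hne := ne_of_col hK huv
  by_cases h2 : ∃ x y, c {x, y} = some α ∧ x ∈ A c α ∧ y ∈ A c α ∧ x ≠ u ∧ x ≠ v ∧ y ≠ u ∧ y ≠ v
  · obtain ⟨x, y, hxy, hx, hy, xu, xv, yu, yv⟩ := h2
    have hxyne := ne_of_col hK hxy
    refine ⟨α, small_of hK α β γ hαβ hαγ hβγ ?_⟩
    have hb : ((K n).filter (fun e => c e = some β)).card ≤ 6 * n := by
      rcases matching_or_cover 1 (fun s t => c {s, t} = some β ∧ (s ≠ u ∧ s ≠ v ∧ s ≠ x ∧ s ≠ y) ∧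
          (t ≠ u ∧ t ≠ v ∧ t ≠ x ∧ t ≠ y)) (fun s hs => irr hK s β hs.1) with
        ⟨l, hl, hlR, hnd⟩ | ⟨Z, hZ, hcov⟩
      · exfalso
        obtain ⟨e1, e2, rfl⟩ := List.length_eq_two.mp hl
        obtain ⟨s, t⟩ := e1
        obtain ⟨z, w⟩ := e2
        have h1 := hlR (s, t) (by simp)
        have h2 := hlR (z, w) (by simp)
        simp only at h1 h2
        have hnd' : [s, t, z, w].Nodup := hnd
        refine core c hK hfree γ β α hβγ.symm hαγ.symm hαβ.symm u v x y s t z w ?_ huv hu hv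
          hxy hx hy h1.1 h2.1
        rw [List.nodup_cons, List.nodup_cons, List.nodup_cons, List.nodup_cons]
        simp only [List.mem_cons, List.not_mem_nil, or_false, not_or]
        obtain ⟨_, ⟨a1, a2, a3, a4⟩, a5, a6, a7, a8⟩ := h1
        obtain ⟨_, ⟨b1, b2, b3, b4⟩, b5, b6, b7, b8⟩ := h2
        exact ⟨⟨hne, xu.symm, yu.symm, a1.symm, a5.symm, b1.symm, b5.symm⟩,
          ⟨xv.symm, yv.symm, a2.symm, a6.symm, b2.symm, b6.symm⟩,
          ⟨hxyne, a3.symm, a7.symm, b3.symm, b7.symm⟩,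
          ⟨a4.symm, a8.symm, b4.symm, b8.symm⟩, hnd'⟩
      · have h1 : (Z ∪ ({u, v} ∪ {x, y})).card ≤ 6 := by
          have h1 := Finset.card_union_le Z ({u, v} ∪ {x, y})
          have h2 := Finset.card_union_le ({u, v} : Finset (Fin n)) {x, y}
          have h3 : ({u, v} : Finset (Fin n)).card ≤ 2 := Finset.card_le_two
          have h4 : ({x, y} : Finset (Fin n)).card ≤ 2 := Finset.card_le_two
          omega
        refine le_trans ?_ (Nat.mul_le_mul_right _ h1)
        refine count_pairs _ _ (fun _ => Finset.univ) n ?_ ?_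
        · intro v _
          rw [Finset.card_univ, Fintype.card_fin]
        · intro e he
          rw [Finset.mem_filter] at he
          obtain ⟨s, t, hst, rfl⟩ := pair_of_mem hK he.1
          by_cases k1 : s ≠ u ∧ s ≠ v ∧ s ≠ x ∧ s ≠ y
          · by_cases k2 : t ≠ u ∧ t ≠ v ∧ t ≠ x ∧ t ≠ y
            · rcases hcov s t ⟨he.2, k1, k2⟩ with h | h
              · exact ⟨s, by simp [h], t, Finset.mem_univ _, rfl⟩
              · exact ⟨t, by simp [h], s, Finset.mem_univ _, Finset.pair_comm _ _⟩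
            · refine ⟨t, ?_, s, Finset.mem_univ _, Finset.pair_comm _ _⟩
              simp only [Finset.mem_union, Finset.mem_insert, Finset.mem_singleton]
              tauto
          · refine ⟨s, ?_, t, Finset.mem_univ _, rfl⟩
            simp only [Finset.mem_union, Finset.mem_insert, Finset.mem_singleton]
            tauto
    omega
  · refine ⟨β, small_of hK β α γ hαβ.symm hβγ hαγ ?_⟩
    have ha := sparse_pairs hK α {u, v} (by
      intro x y hxy hx hy
      by_contra hcon
      simp only [Finset.mem_insert, Finset.mem_singleton, not_or] at hcon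
      exact h2 ⟨x, y, hxy, hx, hy, hcon.1.1, hcon.1.2, hcon.2.1, hcon.2.2⟩)
    have h4 : ({u, v} : Finset (Fin n)).card ≤ 2 := Finset.card_le_two
    have h5 : ({u, v} : Finset (Fin n)).card * n ≤ 2 * n := Nat.mul_le_mul_right _ h4
    omega

lemma case_one (hn : 300 ≤ n) (hfree : Pfree (K n) c)
    (α β γ : Fin 3) (hαβ : α ≠ β) (hαγ : α ≠ γ) (hβγ : β ≠ γ)
    (hα : ∃ u v, c {u, v} = some α ∧ u ∈ A c α ∧ v ∈ A c α)
    (hβ : ∃ u v, c {u, v} = some β ∧ u ∈ A c β ∧ v ∈ A c β)
    (Iγ : ∀ u v, c {u, v} = some γ → u ∈ A c γ → v ∈ A c γ → False) :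
    (∃ i, Small c i) ∨ MainAt c γ := by
  classical
  by_cases hpair : ∃ u v, u ≠ v ∧ u ∈ A c γ ∧ v ∈ A c γ
  · left
    obtain ⟨u, v, huv, hu, hv⟩ := hpair
    rcases col_cases hK α β γ hαβ hαγ hβγ huv with h | h | h
    · exact case_pair hK hfree β α γ hαβ.symm hβγ hαγ Iγ u v hu hv h
    · exact case_pair hK hfree α β γ hαβ hαγ hβγ Iγ u v hu hv h
    · exact (Iγ u v h hu hv).elim
  · right
    push Not at hpair
    obtain ⟨w, hw⟩ : ∃ w : Fin n, ∀ v ∈ A c γ, v = w := by
      by_cases hne : (A c γ).Nonempty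
      · obtain ⟨w, hw⟩ := hne
        refine ⟨w, fun v hv => ?_⟩
        by_contra hcon
        exact hpair v w hcon hv hw
      · rw [Finset.not_nonempty_iff_eq_empty] at hne
        exact ⟨⟨0, by omega⟩, fun v hv => by rw [hne] at hv; exact absurd hv (Finset.notMem_empty _)⟩
    obtain ⟨Z1, hZ1, c1⟩ := cover6 hK hfree α γ β hαγ hαβ hβγ.symm hβ
    obtain ⟨Z2, hZ2, c2⟩ := cover6 hK hfree β γ α hβγ hαβ.symm hαγ.symm hα
    have low : ∀ v, v ≠ w → (Nb c γ v).card ≤ 15 := by
      intro v hv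
      by_contra hcon
      exact hv (hw v ((mem_A c γ v).mpr (by omega)))
    have hAB : ∀ v, v ≠ w → v ∈ A c α ∨ v ∈ A c β := by
      intro v hv
      have h1 := low v hv
      have h2 := deg_sum hK α β γ hαβ hαγ hβγ v
      rw [mem_A, mem_A]
      omega
    set P := Finset.univ \ (A c β ∪ {w}) with hP
    set Q := Finset.univ \ (A c α ∪ {w}) with hQ
    have hcount := count_prod P Q (fun x => Nb c β x ∪ Nb c γ x) (fun y => Nb c α y) 30 15
      (by
        intro x hx
        rw [hP, Finset.mem_sdiff, Finset.mem_union, Finset.mem_singleton, not_or, mem_A] at hx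
        have h1 := low x hx.2.2
        have h2 := Finset.card_union_le (Nb c β x) (Nb c γ x)
        omega)
      (by
        intro y hy
        rw [hQ, Finset.mem_sdiff, Finset.mem_union, Finset.mem_singleton, not_or, mem_A] at hy
        omega)
      (by
        intro x hx y hy
        rw [hP, Finset.mem_sdiff, Finset.mem_union, Finset.mem_singleton, not_or] at hx
        rw [hQ, Finset.mem_sdiff, Finset.mem_union, Finset.mem_singleton, not_or] at hy
        have hxa : x ∈ A c α := (hAB x hx.2.2).resolve_right hx.2.1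
        have hne : x ≠ y := by rintro rfl; exact hy.2.1 hxa
        rcases col_cases hK α β γ hαβ hαγ hβγ hne with h | h | h
        · right; rw [mem_Nb, Finset.pair_comm]; exact h
        · left; rw [Finset.mem_union, mem_Nb, mem_Nb]; exact Or.inl h
        · left; rw [Finset.mem_union, mem_Nb, mem_Nb]; exact Or.inr h)
    obtain ⟨B, hBc, hB⟩ : ∃ B : Finset (Fin n), B.card ≤ 45 ∧ (B = P ∨ B = Q) := by
      by_cases h1 : P.card ≤ 45
      · exact ⟨P, h1, Or.inl rfl⟩
      · by_cases h2 : Q.card ≤ 45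
        · exact ⟨Q, h2, Or.inr rfl⟩
        · exfalso
          have h1' : 46 ≤ P.card := by omega
          have h2' : 46 ≤ Q.card := by omega
          rcases le_total P.card Q.card with h | h <;> nlinarith
    refine ⟨w, ?_⟩
    have hfin : ((K n).filter (fun e => c e = some γ ∧ w ∉ e)).card ≤
        (((Z1 ∪ Z2) ∪ B).erase w).card * 15 := by
      refine count_pairs _ _ (fun v => Nb c γ v) 15 ?_ ?_
      · intro v hv
        exact low v (Finset.ne_of_mem_erase hv)
      · intro e he
        rw [Finset.mem_filter] at he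
        obtain ⟨u, v, huv, rfl⟩ := pair_of_mem hK he.1
        obtain ⟨_, hcol, hwe⟩ := he
        simp only [Finset.mem_insert, Finset.mem_singleton, not_or] at hwe
        have key : u ∈ (Z1 ∪ Z2) ∪ B ∨ v ∈ (Z1 ∪ Z2) ∪ B := by
          simp only [Finset.mem_union]
          by_cases h1 : u ∈ A c α ∧ v ∈ A c α
          · rcases c1 u v hcol h1.1 h1.2 with h | h
            · exact Or.inl (Or.inl (Or.inl h))
            · exact Or.inr (Or.inl (Or.inl h))
          · by_cases h2 : u ∈ A c β ∧ v ∈ A c β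
            · rcases c2 u v hcol h2.1 h2.2 with h | h
              · exact Or.inl (Or.inl (Or.inr h))
              · exact Or.inr (Or.inl (Or.inr h))
            · have hu := hAB u (fun h => hwe.1 h.symm)
              have hv := hAB v (fun h => hwe.2 h.symm)
              have hpq : (u ∈ P ∧ v ∈ Q) ∨ (v ∈ P ∧ u ∈ Q) := by
                simp only [hP, hQ, Finset.mem_sdiff, Finset.mem_univ, true_and, Finset.mem_union,
                  Finset.mem_singleton, not_or]
                have e1 : ¬ u = w := fun h => hwe.1 h.symm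
                have e2 : ¬ v = w := fun h => hwe.2 h.symm
                tauto
              rcases hB with rfl | rfl
              · rcases hpq with h | h
                · exact Or.inl (Or.inr h.1)
                · exact Or.inr (Or.inr h.1)
              · rcases hpq with h | h
                · exact Or.inr (Or.inr h.2)
                · exact Or.inl (Or.inr h.2)
        rcases key with h | h
        · refine ⟨u, Finset.mem_erase.mpr ⟨fun h => hwe.1 h.symm, h⟩, v, ?_, rfl⟩
          rw [mem_Nb]; exact hcol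
        · refine ⟨v, Finset.mem_erase.mpr ⟨fun h => hwe.2 h.symm, h⟩, u, ?_, Finset.pair_comm _ _⟩
          rw [mem_Nb, Finset.pair_comm]; exact hcol
    have h1 : (((Z1 ∪ Z2) ∪ B).erase w).card ≤ 57 := by
      have h1 := Finset.card_le_card (Finset.erase_subset w ((Z1 ∪ Z2) ∪ B))
      have h2 := Finset.card_union_le (Z1 ∪ Z2) B
      have h3 := Finset.card_union_le Z1 Z2
      omega
    omega

/-- Structure of colourings without the pattern. -/
theorem structure_thm (hn : 300 ≤ n) (hfree : Pfree (K n) c) :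
    (∃ i, Small c i) ∨ (∃ γ, MainAt c γ) := by
  classical
  have d01 : (0 : Fin 3) ≠ 1 := by decide
  have d02 : (0 : Fin 3) ≠ 2 := by decide
  have d12 : (1 : Fin 3) ≠ 2 := by decide
  have ex : ∀ i : Fin 3, (∀ u v, c {u, v} = some i → u ∈ A c i → v ∈ A c i → False) ∨
      (∃ u v, c {u, v} = some i ∧ u ∈ A c i ∧ v ∈ A c i) := by
    intro i
    by_cases h : ∃ u v, c {u, v} = some i ∧ u ∈ A c i ∧ v ∈ A c i
    · exact Or.inr h
    · left
      intro u v h1 h2 h3
      exact h ⟨u, v, h1, h2, h3⟩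
  rcases ex 0 with h0 | h0 <;> rcases ex 1 with h1 | h1 <;> rcases ex 2 with h2 | h2
  · exact Or.inl ⟨2, case_two hK 2 0 1 d02.symm d12.symm d01 h0 h1⟩
  · exact Or.inl ⟨2, case_two hK 2 0 1 d02.symm d12.symm d01 h0 h1⟩
  · exact Or.inl ⟨1, case_two hK 1 0 2 d01.symm d12 d02 h0 h2⟩
  · rcases case_one hK hn hfree 1 2 0 d12 d01.symm d02.symm h1 h2 h0 with h | h
    · exact Or.inl h
    · exact Or.inr ⟨_, h⟩
  · exact Or.inl ⟨0, case_two hK 0 1 2 d01 d02 d12 h1 h2⟩
  · rcases case_one hK hn hfree 0 2 1 d02 d01 d12.symm h0 h2 h1 with h | h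
    · exact Or.inl h
    · exact Or.inr ⟨_, h⟩
  · rcases case_one hK hn hfree 0 1 2 d01 d02 d12 h0 h1 h2 with h | h
    · exact Or.inl h
    · exact Or.inr ⟨_, h⟩
  · left
    have hcov : (Finset.univ : Finset (Fin n)) ⊆ (A c 0 ∪ A c 1) ∪ A c 2 := by
      intro v _
      have h2 := deg_sum hK 0 1 2 d01 d02 d12 v
      rw [Finset.mem_union, Finset.mem_union, mem_A, mem_A, mem_A]
      omega
    have k1 := Finset.card_le_card hcov
    rw [Finset.card_univ, Fintype.card_fin] at k1
    have k2 := Finset.card_union_le (A c 0 ∪ A c 1) (A c 2)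
    have k3 := Finset.card_union_le (A c 0) (A c 1)
    have k4 : n ≤ 3 * (A c 0).card ∨ n ≤ 3 * (A c 1).card ∨ n ≤ 3 * (A c 2).card := by omega
    rcases k4 with k | k | k
    · exact ⟨0, case_none hK hn hfree 0 1 2 d01 d02 d12 h0 h1 h2 k⟩
    · exact ⟨1, case_none hK hn hfree 1 0 2 d01.symm d12 d02 h1 h0 h2 k⟩
    · exact ⟨2, case_none hK hn hfree 2 0 1 d02.symm d12.symm d01 h2 h0 h1 k⟩

end Structure

end Pool.Agent.H273R3.Pat
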