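import Mathlib
import Pool.Agent.H273R3.PatC

set_option autoImplicit false
set_option linter.unusedSectionVars false

namespace Pool.Agent.H273R3.Pat

open Finset

/-- Turan bound for the forest: linearly many edges. -/
lemma turan_linear {n : ℕ} (H : Finset (Finset (Fin n))) (hH : ∀ e ∈ H, e.card = 2)
    (hfree : ¬ ∃ φ : Fin 16 → Fin n, Function.Injective φ ∧ ∀ e ∈ F, e.image φ ∈ H) :
    H.card ≤ 22 * n := by
  classical
  let c : Finset (Fin n) → Option (Fin 3) :=
    fun e => if e ∈ H then some 0 else if e ∈ K n then some 1 else none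
  have hHK : ∀ e ∈ H, e ∈ K n := fun e he => by
    rw [Finset.mem_powersetCard]; exact ⟨Finset.subset_univ _, hH e he⟩
  have hK : ∀ e, c e = none ↔ e ∉ K n := by
    intro e
    by_cases h1 : e ∈ H
    · simp only [c, h1, if_true]
      simp only [reduceCtorEq, false_iff, not_not]
      exact hHK e h1
    · by_cases h2 : e ∈ K n
      · simp only [c, h1, h2, if_true, if_false]
        simp
      · simp only [c, h1, h2, if_false]
        simp
  have hc0 : ∀ e, c e = some 0 ↔ e ∈ H := by
    intro e
    by_cases h1 : e ∈ H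
    · simp only [c, h1, if_true]
    · by_cases h2 : e ∈ K n
      · simp only [c, h1, h2, if_true, if_false]
        simp
      · simp only [c, h1, h2, if_false]
        simp
  have hHeq : (K n).filter (fun e => c e = some 0) = H := by
    ext e
    rw [Finset.mem_filter, hc0]
    exact ⟨fun h => h.2, fun h => ⟨hHK e h, h⟩⟩
  rcases matching_or_cover 3 (fun x y => c {x, y} = some 0 ∧ x ∈ A c 0 ∧ y ∈ A c 0)
      (fun x hx => irr hK x 0 hx.1) with ⟨l, hl, hlR, hnd⟩ | ⟨Z, hZ, hcov⟩
  · exfalso
    obtain ⟨e1, l', rfl⟩ := List.exists_cons_of_length_eq_add_one hl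
    have hl' : l'.length = 3 := by simpa using hl
    obtain ⟨e2, e3, e4, rfl⟩ := List.length_eq_three.mp hl'
    obtain ⟨a, b⟩ := e1
    obtain ⟨u, v⟩ := e2
    obtain ⟨x, y⟩ := e3
    obtain ⟨z, w⟩ := e4
    have h1 := hlR (a, b) (by simp)
    have h2 := hlR (u, v) (by simp)
    have h3 := hlR (x, y) (by simp)
    have h4 := hlR (z, w) (by simp)
    simp only [mem_A] at h1 h2 h3 h4
    have hnd' : [a, b, u, v, x, y, z, w].Nodup := hnd
    obtain ⟨φ, hinj, e8, e9, e10, e11, e12, e13, e14, e15, e7, e6, e5, e4, e3, e2, e1, e0⟩ :=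
      embed (Nb c 0) (Nb c 0) a b u v x y z w hnd' h1.2.1 h1.2.2 h2.2.1 h2.2.2
    rw [mem_Nb] at e7 e6 e5 e4 e3 e2 e1 e0
    apply hfree
    refine ⟨φ, hinj, ?_⟩
    intro e he
    obtain ⟨q, hq, rfl⟩ := (mem_F e).mp he
    rw [image_pair, ← hc0]
    simp only [L, List.mem_cons, List.not_mem_nil, or_false] at hq
    rcases hq with rfl | rfl | rfl | rfl | rfl | rfl | rfl | rfl | rfl | rfl | rfl | rfl
    · show c {φ 8, φ 9} = some 0; rw [e8, e9]; exact h1.1
    · show c {φ 12, φ 13} = some 0; rw [e12, e13]; exact h3.1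
    · show c {φ 14, φ 15} = some 0; rw [e14, e15]; exact h4.1
    · show c {φ 8, φ 7} = some 0; rw [e8]; exact e7
    · show c {φ 8, φ 6} = some 0; rw [e8]; exact e6
    · show c {φ 9, φ 5} = some 0; rw [e9]; exact e5
    · show c {φ 9, φ 4} = some 0; rw [e9]; exact e4
    · show c {φ 10, φ 11} = some 0; rw [e10, e11]; exact h2.1
    · show c {φ 10, φ 3} = some 0; rw [e10]; exact e3
    · show c {φ 10, φ 2} = some 0; rw [e10]; exact e2
    · show c {φ 11, φ 1} = some 0; rw [e11]; exact e1
    · show c {φ 11, φ 0} = some 0; rw [e11]; exact e0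
  · have h1 := sparse_pairs hK 0 Z (fun u v h1 h2 h3 => hcov u v ⟨h1, h2, h3⟩)
    rw [hHeq] at h1
    have h2 : Z.card * n ≤ 6 * n := Nat.mul_le_mul_right _ (by omega)
    omega

/-- The pairs listed by `f`. -/
def Yf {n m : ℕ} (f : Fin m → Fin n × Fin n) : Finset (Finset (Fin n)) :=
  Finset.univ.image (fun i => {(f i).1, (f i).2})

lemma Yf_card {n m : ℕ} (f : Fin m → Fin n × Fin n) : (Yf f).card ≤ m := by
  unfold Yf
  exact Finset.card_image_le.trans (by rw [Finset.card_univ, Fintype.card_fin])

lemma exists_Yf {n m : ℕ} (hn : 0 < n) (Y : Finset (Finset (Fin n))) (hY : ∀ e ∈ Y, e ∈ K n)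
    (hm : Y.card ≤ m) : ∃ f : Fin m → Fin n × Fin n, Y ⊆ Yf f := by
  classical
  have hg : ∀ e : Finset (Fin n), ∃ q : Fin n × Fin n, e ∈ K n → e = {q.1, q.2} := by
    intro e
    by_cases he : e ∈ K n
    · rw [Finset.mem_powersetCard] at he
      obtain ⟨u, v, huv, rfl⟩ := Finset.card_eq_two.mp he.2
      exact ⟨(u, v), fun _ => rfl⟩
    · exact ⟨(⟨0, hn⟩, ⟨0, hn⟩), fun h => absurd h he⟩
  choose g hg using hg
  refine ⟨fun i => g (Y.toList.getD i.val ∅), ?_⟩
  intro e he
  have hmem : e ∈ Y.toList := Finset.mem_toList.mpr he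
  obtain ⟨i, hi, hie⟩ := List.mem_iff_getElem.mp hmem
  have hi' : i < m := by
    rw [Finset.length_toList] at hi
    omega
  unfold Yf
  rw [Finset.mem_image]
  refine ⟨⟨i, hi'⟩, Finset.mem_univ _, ?_⟩
  simp only
  rw [List.getD_eq_getElem _ _ hi, hie]
  exact (hg e (hY e he)).symm

/-- All real colours. -/
def all3 : Finset (Option (Fin 3)) := Finset.univ.erase none

lemma all3_card : all3.card = 3 := by decide

lemma mem_all3 (x : Option (Fin 3)) : x ∈ all3 ↔ x ≠ none := by simp [all3]

/-- The box of colourings that are almost entirely of colour `β`. -/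
noncomputable def boxS {n m : ℕ} (β : Fin 3) (f : Fin m → Fin n × Fin n) :
    Finset (Finset (Fin n) → Option (Fin 3)) :=
  Fintype.piFinset (fun e => if e ∈ K n then (if e ∈ Yf f then all3 else {some β}) else {none})

/-- The box of colourings in which `γ` is confined to `w` and few other pairs. -/
noncomputable def boxM {n m : ℕ} (γ : Fin 3) (w : Fin n) (f : Fin m → Fin n × Fin n) :
    Finset (Finset (Fin n) → Option (Fin 3)) :=
  Fintype.piFinset (fun e => if e ∈ K n then (if w ∈ e ∨ e ∈ Yf f then all3 else all3.erase (some γ))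
    else {none})

lemma boxS_card {n m : ℕ} (β : Fin 3) (f : Fin m → Fin n × Fin n) :
    (boxS β f).card ≤ 3 ^ m := by
  classical
  unfold boxS
  rw [Fintype.card_piFinset]
  have h1 : ∏ e : Finset (Fin n), (if e ∈ K n then (if e ∈ Yf f then all3 else {some β}) else {none} :
      Finset (Option (Fin 3))).card ≤ ∏ e : Finset (Fin n), (if e ∈ Yf f then 3 else 1) := by
    apply Finset.prod_le_prod'
    intro e _
    by_cases h1 : e ∈ K n <;> by_cases h2 : e ∈ Yf f <;> simp [h1, h2, all3_card]
  refine h1.trans ?_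
  rw [Finset.prod_ite, Finset.prod_const, Finset.prod_const_one, mul_one]
  apply Nat.pow_le_pow_right (by norm_num)
  calc (Finset.univ.filter (fun e => e ∈ Yf f)).card = (Yf f).card := by
        congr 1; ext e; simp
    _ ≤ m := Yf_card f

lemma star_card {n : ℕ} (w : Fin n) : ((K n).filter (fun e => w ∈ e)).card ≤ n := by
  classical
  have := count_pairs ((K n).filter (fun e => w ∈ e)) {w} (fun _ => Finset.univ) n
    (fun v _ => by rw [Finset.card_univ, Fintype.card_fin]) ?_
  · simpa using this
  · intro e he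
    rw [Finset.mem_filter, Finset.mem_powersetCard] at he
    obtain ⟨u, v, huv, rfl⟩ := Finset.card_eq_two.mp he.1.2
    have h := he.2
    rw [Finset.mem_insert, Finset.mem_singleton] at h
    rcases h with rfl | rfl
    · exact ⟨w, by simp, v, Finset.mem_univ _, rfl⟩
    · exact ⟨w, by simp, u, Finset.mem_univ _, Finset.pair_comm _ _⟩

lemma boxM_card {n m : ℕ} (γ : Fin 3) (w : Fin n) (f : Fin m → Fin n × Fin n)
    (hX : n + m ≤ n.choose 2) :
    (boxM γ w f).card ≤ 3 ^ (n + m) * 2 ^ (n.choose 2 - (n + m)) := by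
  classical
  unfold boxM
  rw [Fintype.card_piFinset]
  have herase : (all3.erase (some γ)).card = 2 := by
    rw [Finset.card_erase_of_mem (by simp [all3]), all3_card]
  have h1 : ∏ e : Finset (Fin n), (if e ∈ K n then (if w ∈ e ∨ e ∈ Yf f then all3 else all3.erase (some γ))
    else {none} : Finset (Option (Fin 3))).card = ∏ e ∈ K n, (if w ∈ e ∨ e ∈ Yf f then 3 else 2) := by
    rw [← Finset.prod_subset (Finset.subset_univ (K n))]
    · apply Finset.prod_congr rfl
      intro e he
      rw [if_pos he]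
      split_ifs
      · exact all3_card
      · exact herase
    · intro e _ he
      rw [if_neg he, Finset.card_singleton]
  rw [h1, Finset.prod_ite, Finset.prod_const, Finset.prod_const]
  set a := ((K n).filter (fun e => w ∈ e ∨ e ∈ Yf f)).card with ha
  set b := ((K n).filter (fun e => ¬ (w ∈ e ∨ e ∈ Yf f))).card with hb
  have hab : a + b = n.choose 2 := by
    rw [ha, hb, Finset.card_filter_add_card_filter_not, Finset.card_powersetCard, Finset.card_univ,
      Fintype.card_fin]
  have ha2 : a ≤ n + m := by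
    have hsub : (K n).filter (fun e => w ∈ e ∨ e ∈ Yf f) ⊆ (K n).filter (fun e => w ∈ e) ∪ Yf f := by
      intro e he
      rw [Finset.mem_filter] at he
      rw [Finset.mem_union, Finset.mem_filter]
      rcases he.2 with h | h
      · exact Or.inl ⟨he.1, h⟩
      · exact Or.inr h
    have h2 := Finset.card_le_card hsub
    have h3 := Finset.card_union_le ((K n).filter (fun e => w ∈ e)) (Yf f)
    have h4 := star_card w
    have h5 := Yf_card f
    omega
  obtain ⟨d, hd⟩ := Nat.exists_eq_add_of_le ha2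
  have hb2 : b = d + (n.choose 2 - (n + m)) := by omega
  rw [hb2, hd, pow_add, pow_add, ← mul_assoc]
  apply Nat.mul_le_mul_right
  apply Nat.mul_le_mul_left
  exact Nat.pow_le_pow_left (by norm_num) _

/-- The colourings of `H` without the pattern. -/
noncomputable def Cn {n : ℕ} (H : Finset (Finset (Fin n))) : ℕ :=
  Nat.card {c : Finset (Fin n) → Option (Fin 3) //
            (∀ e : Finset (Fin n), c e = none ↔ e ∉ H) ∧
            ¬ ∃ φ : Fin 16 → Fin n, Function.Injective φ ∧
                (∀ e ∈ F, e.image φ ∈ H) ∧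
                (∀ e ∈ F, ∀ e' ∈ F,
                  (c (e.image φ) = c (e'.image φ) ↔ p e = p e'))}

/-- Upper bound for the complete graph. -/
theorem upper {n : ℕ} (hn : 300 ≤ n) (hX : n + 855 ≤ n.choose 2) :
    Cn (K n) ≤ (3 * (n * (n * n) ^ 855)) * (3 ^ (n + 855) * 2 ^ (n.choose 2 - (n + 855))) +
      (3 * (n * n) ^ (96 * n)) * 3 ^ (96 * n) := by
  classical
  unfold Cn
  rw [Nat.card_eq_fintype_card, Fintype.card_subtype]
  let M := (Finset.univ : Finset (Fin 3 × Fin n × (Fin 855 → Fin n × Fin n))).biUnion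
    (fun t => boxM t.1 t.2.1 t.2.2)
  let S := (Finset.univ : Finset (Fin 3 × (Fin (96 * n) → Fin n × Fin n))).biUnion
    (fun t => boxS t.1 t.2)
  have hsub : (Finset.univ.filter (fun c : Finset (Fin n) → Option (Fin 3) =>
      (∀ e : Finset (Fin n), c e = none ↔ e ∉ K n) ∧
            ¬ ∃ φ : Fin 16 → Fin n, Function.Injective φ ∧
                (∀ e ∈ F, e.image φ ∈ K n) ∧
                (∀ e ∈ F, ∀ e' ∈ F,
                  (c (e.image φ) = c (e'.image φ) ↔ p e = p e')))) ⊆ M ∪ S := by
    intro c hc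
    rw [Finset.mem_filter] at hc
    obtain ⟨_, hK, hfree⟩ := hc
    rw [Finset.mem_union]
    rcases structure_thm hK hn hfree with ⟨β, hβ⟩ | ⟨γ, w, hγ⟩
    · right
      obtain ⟨f, hf⟩ := exists_Yf (by omega) _ (fun e he => (Finset.mem_filter.mp he).1) hβ
      rw [Finset.mem_biUnion]
      refine ⟨(β, f), Finset.mem_univ _, ?_⟩
      show c ∈ boxS β f
      unfold boxS
      rw [Fintype.mem_piFinset]
      intro e
      by_cases h1 : e ∈ K n
      · by_cases h2 : e ∈ Yf f
        · rw [if_pos h1, if_pos h2, mem_all3]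
          intro h3
          exact ((hK e).mp h3) h1
        · rw [if_pos h1, if_neg h2, Finset.mem_singleton]
          by_contra h3
          exact h2 (hf (Finset.mem_filter.mpr ⟨h1, h3⟩))
      · rw [if_neg h1, Finset.mem_singleton]
        exact (hK e).mpr h1
    · left
      obtain ⟨f, hf⟩ := exists_Yf (by omega) _ (fun e he => (Finset.mem_filter.mp he).1) hγ
      rw [Finset.mem_biUnion]
      refine ⟨(γ, w, f), Finset.mem_univ _, ?_⟩
      show c ∈ boxM γ w f
      unfold boxM
      rw [Fintype.mem_piFinset]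
      intro e
      by_cases h1 : e ∈ K n
      · have hne : c e ≠ none := fun h3 => ((hK e).mp h3) h1
        by_cases h2 : w ∈ e ∨ e ∈ Yf f
        · rw [if_pos h1, if_pos h2, mem_all3]
          exact hne
        · rw [if_pos h1, if_neg h2, Finset.mem_erase, mem_all3]
          refine ⟨?_, hne⟩
          intro h3
          rw [not_or] at h2
          exact h2.2 (hf (Finset.mem_filter.mpr ⟨h1, h3, h2.1⟩))
      · rw [if_neg h1, Finset.mem_singleton]
        exact (hK e).mpr h1
  refine (Finset.card_le_card hsub).trans ((Finset.card_union_le _ _).trans ?_)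
  have hM : M.card ≤ (3 * (n * (n * n) ^ 855)) * (3 ^ (n + 855) * 2 ^ (n.choose 2 - (n + 855))) := by
    have := Finset.card_biUnion_le_card_mul
      (Finset.univ : Finset (Fin 3 × Fin n × (Fin 855 → Fin n × Fin n)))
      (fun t => boxM t.1 t.2.1 t.2.2) (3 ^ (n + 855) * 2 ^ (n.choose 2 - (n + 855)))
      (fun t _ => boxM_card t.1 t.2.1 t.2.2 hX)
    rw [Finset.card_univ, Fintype.card_prod, Fintype.card_prod, Fintype.card_fun,
      Fintype.card_prod, Fintype.card_fin, Fintype.card_fin, Fintype.card_fin] at this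
    exact this
  have hS : S.card ≤ (3 * (n * n) ^ (96 * n)) * 3 ^ (96 * n) := by
    have := Finset.card_biUnion_le_card_mul
      (Finset.univ : Finset (Fin 3 × (Fin (96 * n) → Fin n × Fin n)))
      (fun t => boxS t.1 t.2) (3 ^ (96 * n)) (fun t _ => boxS_card t.1 t.2)
    rw [Finset.card_univ, Fintype.card_prod, Fintype.card_fun,
      Fintype.card_prod, Fintype.card_fin, Fintype.card_fin, Fintype.card_fin] at this
    exact this
  exact Nat.add_le_add hM hS

end Pool.Agent.H273R3.Pat
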