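import Mathlib
import Pool.Agent.H273R3.PatD

set_option autoImplicit false
set_option linter.unusedSectionVars false

namespace Pool.Agent.H273R3.Pat

open Finset

/-- The complete graph minus the pair `{0, 1}`. -/
abbrev H0 (m : ℕ) : Finset (Finset (Fin (m + 2))) := (K (m + 2)).erase {0, 1}

/-- The box of colourings where only pairs meeting `{0, 1}` may use the third colour. -/
noncomputable def box0 (m : ℕ) : Finset (Finset (Fin (m + 2)) → Option (Fin 3)) :=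
  Fintype.piFinset (fun e => if e ∈ H0 m then
    (if (0 : Fin (m + 2)) ∈ e ∨ (1 : Fin (m + 2)) ∈ e then all3 else {some 0, some 1}) else {none})

lemma two_points {m : ℕ} (φ : Fin 16 → Fin (m + 2)) (hφ : Function.Injective φ) :
    ∃ i j : Fin 16, ∀ x, (φ x = 0 ∨ φ x = 1) → x = i ∨ x = j := by
  have h : ∀ v : Fin (m + 2), ∃ i : Fin 16, ∀ x, φ x = v → x = i := by
    intro v
    by_cases hv : ∃ i, φ i = v
    · obtain ⟨i, hi⟩ := hv
      exact ⟨i, fun x hx => hφ (hx.trans hi.symm)⟩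
    · exact ⟨0, fun x hx => absurd ⟨x, hx⟩ hv⟩
  obtain ⟨i, hi⟩ := h 0
  obtain ⟨j, hj⟩ := h 1
  exact ⟨i, j, fun x hx => hx.imp (hi x) (hj x)⟩

set_option maxRecDepth 100000 in
lemma dec1 : ∀ i j : Fin 16, ¬ (((8 = i ∨ 8 = j) ∨ (9 = i ∨ 9 = j)) ∧
    ((12 = i ∨ 12 = j) ∨ (13 = i ∨ 13 = j)) ∧ ((14 = i ∨ 14 = j) ∨ (15 = i ∨ 15 = j))) := by
  decide +kernel

set_option maxRecDepth 100000 in
lemma dec0 : ∀ i j : Fin 16, (((8 = i ∨ 8 = j) ∨ (7 = i ∨ 7 = j)) ∧
    ((8 = i ∨ 8 = j) ∨ (6 = i ∨ 6 = j)) ∧ ((9 = i ∨ 9 = j) ∨ (5 = i ∨ 5 = j)) ∧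
    ((9 = i ∨ 9 = j) ∨ (4 = i ∨ 4 = j))) → (¬ (7 = i ∨ 7 = j) ∧ ¬ (5 = i ∨ 5 = j)) := by
  decide +kernel

set_option maxRecDepth 100000 in
lemma dec2 : ∀ i j : Fin 16, (((10 = i ∨ 10 = j) ∨ (3 = i ∨ 3 = j)) ∧
    ((10 = i ∨ 10 = j) ∨ (2 = i ∨ 2 = j)) ∧ ((11 = i ∨ 11 = j) ∨ (1 = i ∨ 1 = j)) ∧
    ((11 = i ∨ 11 = j) ∨ (0 = i ∨ 0 = j))) → (¬ (3 = i ∨ 3 = j) ∧ ¬ (1 = i ∨ 1 = j)) := by
  decide +kernel

lemma opt3 : ∀ x y z : Option (Fin 3), x ≠ none → y ≠ none → z ≠ none → x ≠ y → x ≠ z → y ≠ z →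
    x = some 2 ∨ y = some 2 ∨ z = some 2 := by decide

lemma box0_free (m : ℕ) (c : Finset (Fin (m + 2)) → Option (Fin 3)) (hc : c ∈ box0 m) :
    (∀ e, c e = none ↔ e ∉ H0 m) ∧
            ¬ ∃ φ : Fin 16 → Fin (m + 2), Function.Injective φ ∧
                (∀ e ∈ F, e.image φ ∈ H0 m) ∧
                (∀ e ∈ F, ∀ e' ∈ F,
                  (c (e.image φ) = c (e'.image φ) ↔ p e = p e')) := by
  classical
  unfold box0 at hc
  rw [Fintype.mem_piFinset] at hc
  have hnone : ∀ e, c e = none ↔ e ∉ H0 m := by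
    intro e
    have h := hc e
    by_cases h1 : e ∈ H0 m
    · rw [if_pos h1] at h
      have : c e ≠ none := by
        by_cases h2 : (0 : Fin (m + 2)) ∈ e ∨ (1 : Fin (m + 2)) ∈ e
        · rw [if_pos h2, mem_all3] at h; exact h
        · rw [if_neg h2, Finset.mem_insert, Finset.mem_singleton] at h
          rcases h with h | h <;> rw [h] <;> simp
      exact ⟨fun h3 => absurd h3 this, fun h3 => absurd h1 h3⟩
    · rw [if_neg h1, Finset.mem_singleton] at h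
      exact ⟨fun _ => h1, fun _ => h⟩
  refine ⟨hnone, ?_⟩
  rintro ⟨φ, hinj, hH, hpat⟩
  have h2 : ∀ e, c e = some 2 → (0 : Fin (m + 2)) ∈ e ∨ (1 : Fin (m + 2)) ∈ e := by
    intro e he
    have h := hc e
    by_contra hcon
    by_cases h1 : e ∈ H0 m
    · rw [if_pos h1, if_neg hcon, Finset.mem_insert, Finset.mem_singleton, he] at h
      revert h; decide
    · rw [if_neg h1, Finset.mem_singleton, he] at h
      exact absurd h (by simp)
  have hL : ∀ q ∈ L, c {φ q.1, φ q.2} = some 2 → (φ q.1 = 0 ∨ φ q.1 = 1) ∨ (φ q.2 = 0 ∨ φ q.2 = 1) := by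
    intro q _ hq
    have := h2 _ hq
    simp only [Finset.mem_insert, Finset.mem_singleton] at this
    rcases this with (h | h) | (h | h)
    · exact Or.inl (Or.inl h.symm)
    · exact Or.inr (Or.inl h.symm)
    · exact Or.inl (Or.inr h.symm)
    · exact Or.inr (Or.inr h.symm)
  have hF : ∀ q ∈ L, ∀ q' ∈ L, (c {φ q.1, φ q.2} = c {φ q'.1, φ q'.2} ↔ cls q = cls q') := by
    intro q hq q' hq'
    have := hpat {q.1, q.2} ((mem_F _).mpr ⟨q, hq, rfl⟩) {q'.1, q'.2} ((mem_F _).mpr ⟨q', hq', rfl⟩)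
    rw [image_pair, image_pair, p_cls q hq, p_cls q' hq'] at this
    exact this
  have hne : ∀ q ∈ L, c {φ q.1, φ q.2} ≠ none := by
    intro q hq h
    have := hH {q.1, q.2} ((mem_F _).mpr ⟨q, hq, rfl⟩)
    rw [image_pair] at this
    exact ((hnone _).mp h) this
  obtain ⟨i, j, hij⟩ := two_points φ hinj
  have two : ∀ q ∈ L, c {φ q.1, φ q.2} = some 2 → ((q.1 = i ∨ q.1 = j) ∨ (q.2 = i ∨ q.2 = j)) :=
    fun q hq h => (hL q hq h).imp (hij _) (hij _)
  have m0 : ((8, 7) : Fin 16 × Fin 16) ∈ L := by decide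
  have m0b : ((8, 6) : Fin 16 × Fin 16) ∈ L := by decide
  have m0c : ((9, 5) : Fin 16 × Fin 16) ∈ L := by decide
  have m0d : ((9, 4) : Fin 16 × Fin 16) ∈ L := by decide
  have m1 : ((8, 9) : Fin 16 × Fin 16) ∈ L := by decide
  have m1b : ((12, 13) : Fin 16 × Fin 16) ∈ L := by decide
  have m1c : ((14, 15) : Fin 16 × Fin 16) ∈ L := by decide
  have m2 : ((10, 11) : Fin 16 × Fin 16) ∈ L := by decide
  have m2b : ((10, 3) : Fin 16 × Fin 16) ∈ L := by decide
  have m2c : ((10, 2) : Fin 16 × Fin 16) ∈ L := by decide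
  have m2d : ((11, 1) : Fin 16 × Fin 16) ∈ L := by decide
  have m2e : ((11, 0) : Fin 16 × Fin 16) ∈ L := by decide
  have no01 : ∀ x y : Fin 16, ({x, y} : Finset (Fin 16)) ∈ F → x ≠ y → (φ x = 0 ∨ φ x = 1) →
      (φ y = 0 ∨ φ y = 1) → False := by
    intro x y hF hxy hx hy
    have h := hH _ hF
    rw [image_pair, Finset.mem_erase] at h
    apply h.1
    rcases hx with hx | hx <;> rcases hy with hy | hy
    · exact absurd (hinj (hx.trans hy.symm)) hxy
    · rw [hx, hy]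
    · rw [hx, hy, Finset.pair_comm]
    · exact absurd (hinj (hx.trans hy.symm)) hxy
  have hd01 : c {φ 8, φ 7} ≠ c {φ 8, φ 9} := by
    intro h
    have := (hF (8, 7) m0 (8, 9) m1).mp h
    revert this; decide
  have hd02 : c {φ 8, φ 7} ≠ c {φ 10, φ 11} := by
    intro h
    have := (hF (8, 7) m0 (10, 11) m2).mp h
    revert this; decide
  have hd12 : c {φ 8, φ 9} ≠ c {φ 10, φ 11} := by
    intro h
    have := (hF (8, 9) m1 (10, 11) m2).mp h
    revert this; decide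
  rcases opt3 _ _ _ (hne _ m0) (hne _ m1) (hne _ m2) hd01 hd02 hd12 with h | h | h
  · -- first class has the third colour
    have a1 := h
    have a2 : c {φ 8, φ 6} = some 2 := ((hF (8, 6) m0b (8, 7) m0).mpr (by decide)).trans h
    have a3 : c {φ 9, φ 5} = some 2 := ((hF (9, 5) m0c (8, 7) m0).mpr (by decide)).trans h
    have a4 : c {φ 9, φ 4} = some 2 := ((hF (9, 4) m0d (8, 7) m0).mpr (by decide)).trans h
    have hd := dec0 i j ⟨two (8, 7) m0 a1, two (8, 6) m0b a2, two (9, 5) m0c a3, two (9, 4) m0d a4⟩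
    have b1 : φ 8 = 0 ∨ φ 8 = 1 := (hL (8, 7) m0 a1).resolve_right (fun h => hd.1 (hij 7 h))
    have b2 : φ 9 = 0 ∨ φ 9 = 1 := (hL (9, 5) m0c a3).resolve_right (fun h => hd.2 (hij 5 h))
    exact no01 8 9 ((mem_F _).mpr ⟨(8, 9), m1, rfl⟩) (by decide) b1 b2
  · have a1 := h
    have a2 : c {φ 12, φ 13} = some 2 := ((hF (12, 13) m1b (8, 9) m1).mpr (by decide)).trans h
    have a3 : c {φ 14, φ 15} = some 2 := ((hF (14, 15) m1c (8, 9) m1).mpr (by decide)).trans h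
    exact dec1 i j ⟨two (8, 9) m1 a1, two (12, 13) m1b a2, two (14, 15) m1c a3⟩
  · have a1 : c {φ 10, φ 3} = some 2 := ((hF (10, 3) m2b (10, 11) m2).mpr (by decide)).trans h
    have a2 : c {φ 10, φ 2} = some 2 := ((hF (10, 2) m2c (10, 11) m2).mpr (by decide)).trans h
    have a3 : c {φ 11, φ 1} = some 2 := ((hF (11, 1) m2d (10, 11) m2).mpr (by decide)).trans h
    have a4 : c {φ 11, φ 0} = some 2 := ((hF (11, 0) m2e (10, 11) m2).mpr (by decide)).trans h
    have hd := dec2 i j ⟨two (10, 3) m2b a1, two (10, 2) m2c a2, two (11, 1) m2d a3, two (11, 0) m2e a4⟩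
    have b1 : φ 10 = 0 ∨ φ 10 = 1 := (hL (10, 3) m2b a1).resolve_right (fun h => hd.1 (hij 3 h))
    have b2 : φ 11 = 0 ∨ φ 11 = 1 := (hL (11, 1) m2d a3).resolve_right (fun h => hd.2 (hij 1 h))
    exact no01 10 11 ((mem_F _).mpr ⟨(10, 11), m2, rfl⟩) (by decide) b1 b2

lemma choose_id (m : ℕ) : (m + 2).choose 2 = m.choose 2 + 2 * m + 1 := by
  have h1 := Nat.choose_succ_succ' (m + 1) 1
  have h2 := Nat.choose_succ_succ' m 1
  simp only [Nat.reduceAdd, Nat.choose_one_right] at h1 h2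
  have h3 : m + 1 + 1 = m + 2 := rfl
  rw [h3] at h1
  omega

lemma box0_card (m : ℕ) : 3 ^ (2 * m) * 2 ^ (m.choose 2) ≤ (box0 m).card := by
  classical
  unfold box0
  rw [Fintype.card_piFinset]
  have h1 : ∏ e : Finset (Fin (m + 2)), (if e ∈ H0 m then
    (if (0 : Fin (m + 2)) ∈ e ∨ (1 : Fin (m + 2)) ∈ e then all3 else {some 0, some 1}) else {none} :
      Finset (Option (Fin 3))).card =
      ∏ e ∈ H0 m, (if (0 : Fin (m + 2)) ∈ e ∨ (1 : Fin (m + 2)) ∈ e then 3 else 2) := by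
    rw [← Finset.prod_subset (Finset.subset_univ (H0 m))]
    · apply Finset.prod_congr rfl
      intro e he
      rw [if_pos he]
      split_ifs
      · exact all3_card
      · rfl
    · intro e _ he
      rw [if_neg he, Finset.card_singleton]
  rw [h1, Finset.prod_ite, Finset.prod_const, Finset.prod_const]
  set a := ((H0 m).filter (fun e => (0 : Fin (m + 2)) ∈ e ∨ (1 : Fin (m + 2)) ∈ e)).card with ha
  set b := ((H0 m).filter (fun e => ¬ ((0 : Fin (m + 2)) ∈ e ∨ (1 : Fin (m + 2)) ∈ e))).card with hb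
  have h01 : (0 : Fin (m + 2)) ≠ 1 := by
    intro h
    have := congrArg Fin.val h
    simp at this
  have hmem : ({0, 1} : Finset (Fin (m + 2))) ∈ K (m + 2) := by
    rw [Finset.mem_powersetCard]
    exact ⟨Finset.subset_univ _, Finset.card_pair h01⟩
  have hab : a + b = m.choose 2 + 2 * m := by
    rw [ha, hb, Finset.card_filter_add_card_filter_not, Finset.card_erase_of_mem hmem,
      Finset.card_powersetCard, Finset.card_univ, Fintype.card_fin, choose_id]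
    rfl
  have hb2 : b = m.choose 2 := by
    have : (H0 m).filter (fun e => ¬ ((0 : Fin (m + 2)) ∈ e ∨ (1 : Fin (m + 2)) ∈ e)) =
        Finset.powersetCard 2 (Finset.univ \ {0, 1}) := by
      ext e
      simp only [Finset.mem_filter, Finset.mem_erase, Finset.mem_powersetCard, not_or]
      constructor
      · rintro ⟨⟨_, _, h1⟩, h2, h3⟩
        refine ⟨?_, h1⟩
        intro x hx
        rw [Finset.mem_sdiff, Finset.mem_insert, Finset.mem_singleton, not_or]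
        refine ⟨Finset.mem_univ _, ?_, ?_⟩
        · rintro rfl; exact h2 hx
        · rintro rfl; exact h3 hx
      · rintro ⟨h1, h2⟩
        have h3 : (0 : Fin (m + 2)) ∉ e := fun h => by
          have := h1 h; simp at this
        have h4 : (1 : Fin (m + 2)) ∉ e := fun h => by
          have := h1 h; simp at this
        refine ⟨⟨?_, Finset.subset_univ _, h2⟩, h3, h4⟩
        rintro rfl
        exact h3 (by simp)
    rw [hb, this, Finset.card_powersetCard, Finset.card_sdiff_of_subset (Finset.subset_univ _),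
      Finset.card_univ, Fintype.card_fin, Finset.card_pair h01]
    rfl
  have ha2 : a = 2 * m := by omega
  rw [ha2, hb2]

/-- Lower bound for the complete graph minus a pair. -/
theorem lowerH (m : ℕ) : 3 ^ (2 * m) * 2 ^ (m.choose 2) ≤ Cn (H0 m) := by
  classical
  refine (box0_card m).trans ?_
  unfold Cn
  rw [Nat.card_eq_fintype_card, Fintype.card_subtype]
  apply Finset.card_le_card
  intro c hc
  rw [Finset.mem_filter]
  exact ⟨Finset.mem_univ _, box0_free m c hc⟩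

lemma grow : ∀ s : ℕ, 15 ≤ s → 1711 * (s + 1) + 1718 ≤ 2 ^ s := by
  intro s hs
  induction s, hs using Nat.le_induction with
  | base => norm_num
  | succ s hs ih =>
    rw [pow_succ]
    omega

lemma arith (s j : ℕ) (h : 1711 * (s + 1) + 1717 ≤ j) :
    2 * (s + 1) * (96 * (2 * j + 2)) + 192 * (2 * j + 2) + 3 ≤ j * (2 * j - 1) := by
  have h1 : 768 * (s + 2) + 1 ≤ 2 * j - 1 := by omega
  have h2 : j * (768 * (s + 2) + 1) ≤ j * (2 * j - 1) := Nat.mul_le_mul_left _ h1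
  have h3 : 384 * (s + 2) * (j + 1) ≤ 384 * (s + 2) * (2 * j) := Nat.mul_le_mul_left _ (by omega)
  have h4 : 384 * (s + 2) * (2 * j) = j * (768 * (s + 2)) := by ring
  have h5 : j * (768 * (s + 2) + 1) = j * (768 * (s + 2)) + j := by ring
  have h6 : 2 * (s + 1) * (96 * (2 * j + 2)) + 192 * (2 * j + 2) = 384 * (s + 2) * (j + 1) := by ring
  have h7 : 3 ≤ j := by omega
  rw [h6]
  refine (Nat.add_le_add_right h3 3).trans ?_
  rw [h4]
  refine (Nat.add_le_add_left h7 _).trans ?_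
  rw [← h5]
  exact h2

lemma pow_main (m a b c : ℕ) :
    2 ^ a * ((3 ^ m * 2 ^ b) * 2 ^ c) * 2 = 3 ^ m * 2 ^ (a + b + c + 1) := by ring

lemma pow_small (a b : ℕ) : (4 * 2 ^ a) * 2 ^ b * 2 = 2 ^ (a + b + 3) := by ring

lemma three_pow (k : ℕ) : 3 ^ k ≤ 2 ^ (2 * k) := by
  rw [pow_mul]
  exact Nat.pow_le_pow_left (by norm_num) _

/-- The comparison. -/
theorem compare (s : ℕ) (hs : 15 ≤ s) :
    Cn (K (2 * (2 ^ s - 1) + 2)) < Cn (H0 (2 * (2 ^ s - 1))) := by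
  have hg := grow s hs
  obtain ⟨j, hj⟩ : ∃ j, 2 ^ s = j + 1 := ⟨2 ^ s - 1, by omega⟩
  have hj2 : 2 ^ s - 1 = j := by omega
  rw [hj2]
  have hjb : 1711 * (s + 1) + 1717 ≤ j := by omega
  have hn2 : 2 * j + 2 = 2 ^ (s + 1) := by rw [pow_succ]; omega
  clear hj2 hg
  obtain ⟨C, hC⟩ : ∃ C, C = (2 * j).choose 2 := ⟨_, rfl⟩
  have hCval : C = j * (2 * j - 1) := by
    rw [hC, Nat.choose_two_right, mul_assoc, Nat.mul_div_cancel_left _ (by norm_num)]
  have hN := choose_id (2 * j)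
  rw [← hC] at hN
  have hmC : 2 * j ≤ C := by
    rw [hCval, Nat.mul_comm 2 j]
    apply Nat.mul_le_mul_left
    omega
  have hup := upper (n := 2 * j + 2) (by omega) (by omega)
  refine lt_of_le_of_lt hup (lt_of_lt_of_le ?_ (lowerH (2 * j)))
  rw [← hC]
  have e2 : (2 * j + 2).choose 2 - (2 * j + 2 + 855) ≤ C + 2 * j := by omega
  have b1 : 3 * ((2 * j + 2) * ((2 * j + 2) * (2 * j + 2)) ^ 855) ≤ 2 ^ (1711 * (s + 1) + 2) := by
    have h1 : (2 * j + 2) * ((2 * j + 2) * (2 * j + 2)) ^ 855 = 2 ^ (1711 * (s + 1)) := by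
      rw [hn2, ← pow_add, ← pow_mul, ← pow_add]
      congr 1; omega
    rw [h1, pow_add]
    have : 0 < 2 ^ (1711 * (s + 1)) := by positivity
    omega
  have b2 : 3 ^ (2 * j + 2 + 855) ≤ 3 ^ (2 * j) * 2 ^ (2 * 857) := by
    have e1 : 2 * j + 2 + 855 = 2 * j + 857 := by omega
    rw [e1, pow_add]
    exact Nat.mul_le_mul_left _ (three_pow 857)
  have b3 : 2 ^ ((2 * j + 2).choose 2 - (2 * j + 2 + 855)) ≤ 2 ^ (C + 2 * j) :=
    Nat.pow_le_pow_right (by norm_num) e2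
  have main : (3 * ((2 * j + 2) * ((2 * j + 2) * (2 * j + 2)) ^ 855)) *
      (3 ^ (2 * j + 2 + 855) * 2 ^ ((2 * j + 2).choose 2 - (2 * j + 2 + 855))) * 2 ≤
      3 ^ (2 * (2 * j)) * 2 ^ C := by
    have s1 := Nat.mul_le_mul_right 2 (Nat.mul_le_mul b1 (Nat.mul_le_mul b2 b3))
    rw [pow_main] at s1
    refine s1.trans ?_
    have s2 : 1711 * (s + 1) + 2 + 2 * 857 + (C + 2 * j) + 1 ≤ C + 3 * j := by omega
    have s3 : 2 ^ (1711 * (s + 1) + 2 + 2 * 857 + (C + 2 * j) + 1) ≤ 2 ^ (C + 3 * j) :=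
      Nat.pow_le_pow_right (by norm_num) s2
    refine (Nat.mul_le_mul_left _ s3).trans ?_
    have s4 : 2 ^ (3 * j) ≤ 3 ^ (2 * j) := by
      rw [pow_mul, pow_mul]
      exact Nat.pow_le_pow_left (by norm_num) _
    calc 3 ^ (2 * j) * 2 ^ (C + 3 * j) = 3 ^ (2 * j) * 2 ^ C * 2 ^ (3 * j) := by
          rw [pow_add, mul_assoc]
      _ ≤ 3 ^ (2 * j) * 2 ^ C * 3 ^ (2 * j) := Nat.mul_le_mul_left _ s4
      _ = 3 ^ (2 * (2 * j)) * 2 ^ C := by
          rw [two_mul (2 * j), pow_add]; ac_rfl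
  have small : (3 * ((2 * j + 2) * (2 * j + 2)) ^ (96 * (2 * j + 2))) * 3 ^ (96 * (2 * j + 2)) * 2
      ≤ 2 ^ C := by
    have c1 : 3 ^ (96 * (2 * j + 2)) ≤ 2 ^ (2 * (96 * (2 * j + 2))) := three_pow _
    have c2 : ((2 * j + 2) * (2 * j + 2)) ^ (96 * (2 * j + 2)) =
        2 ^ (2 * (s + 1) * (96 * (2 * j + 2))) := by
      have : (2 * j + 2) * (2 * j + 2) = 2 ^ (2 * (s + 1)) := by
        rw [hn2, ← pow_add]; congr 1; omega
      rw [this, ← pow_mul]
    have c3 : 3 * ((2 * j + 2) * (2 * j + 2)) ^ (96 * (2 * j + 2)) ≤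
        4 * 2 ^ (2 * (s + 1) * (96 * (2 * j + 2))) := by
      rw [c2]; exact Nat.mul_le_mul_right _ (by norm_num)
    have s1 := Nat.mul_le_mul_right 2 (Nat.mul_le_mul c3 c1)
    rw [pow_small] at s1
    refine s1.trans (Nat.pow_le_pow_right (by norm_num) ?_)
    have h6 : 2 * (96 * (2 * j + 2)) = 192 * (2 * j + 2) := by ring
    rw [hCval, h6]
    exact arith s j hjb
  have hpos : 2 ^ C < 3 ^ (2 * (2 * j)) * 2 ^ C := by
    have h1 : 1 < 3 ^ (2 * (2 * j)) := Nat.one_lt_pow (by omega) (by norm_num)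
    have h2 : 0 < 2 ^ C := by positivity
    calc 2 ^ C = 1 * 2 ^ C := (one_mul _).symm
      _ < 3 ^ (2 * (2 * j)) * 2 ^ C := Nat.mul_lt_mul_of_pos_right h1 h2
  generalize 3 * ((2 * j + 2) * ((2 * j + 2) * (2 * j + 2)) ^ 855) *
      (3 ^ (2 * j + 2 + 855) * 2 ^ ((2 * j + 2).choose 2 - (2 * j + 2 + 855))) = MM at *
  generalize (3 * ((2 * j + 2) * (2 * j + 2)) ^ (96 * (2 * j + 2))) * 3 ^ (96 * (2 * j + 2)) = SS at *
  generalize 3 ^ (2 * (2 * j)) * 2 ^ C = TT at *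
  generalize 2 ^ C = CC at *
  omega

end Pool.Agent.H273R3.Pat
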