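import Mathlib

set_option autoImplicit false

namespace Pool.Agent.H273R3.RainbowA

open Finset

/-- The nine edges of three disjoint triangles on `Fin 9`. -/
def F9 : Finset (Finset (Fin 9)) :=
  {{0,1},{0,2},{1,2},{3,4},{3,5},{4,5},{6,7},{6,8},{7,8}}

set_option maxRecDepth 100000 in
lemma F9_card : ∀ e ∈ F9, e.card = 2 := by decide +kernel

set_option maxRecDepth 100000 in
lemma F9_linear : ∀ e ∈ F9, ∀ f ∈ F9, e ≠ f → (e ∩ f).card ≤ 1 := by decide +kernel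

/-- A graph with more than `n^2/4 + 6 n` edges has a triangle avoiding any six vertices. -/
lemma exists_triangle {n : ℕ} (G : Finset (Finset (Fin n))) (hG : ∀ e ∈ G, e.card = 2)
    (Z : Finset (Fin n)) (hZ : Z.card ≤ 6) (hcard : n ^ 2 / 4 + 6 * n < G.card) :
    ∃ a b c : Fin n, a ∉ Z ∧ b ∉ Z ∧ c ∉ Z ∧ a ≠ b ∧ a ≠ c ∧ b ≠ c ∧
      {a, b} ∈ G ∧ {a, c} ∈ G ∧ {b, c} ∈ G := by
  classical
  let Γ : SimpleGraph (Fin n) :=
    { Adj := fun u v => u ≠ v ∧ {u, v} ∈ G ∧ u ∉ Z ∧ v ∉ Z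
      symm := ⟨fun u v h => ⟨h.1.symm, by rw [Finset.pair_comm]; exact h.2.1, h.2.2.2, h.2.2.1⟩⟩
      loopless := ⟨fun u h => h.1 rfl⟩ }
  have hΓ : ∀ u v, Γ.Adj u v ↔ (u ≠ v ∧ {u, v} ∈ G ∧ u ∉ Z ∧ v ∉ Z) := fun u v => Iff.rfl
  -- edges avoiding Z
  have h1 : (G.filter (fun e => Disjoint e Z)).card ≤ Γ.edgeFinset.card := by
    have hsub : (G.filter (fun e => Disjoint e Z)) ⊆ Γ.edgeFinset.image (fun s => s.toFinset) := by
      intro e he
      rw [Finset.mem_filter] at he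
      obtain ⟨u, v, huv, rfl⟩ := Finset.card_eq_two.mp (hG e he.1)
      rw [Finset.mem_image]
      refine ⟨s(u, v), ?_, ?_⟩
      · rw [SimpleGraph.mem_edgeFinset, SimpleGraph.mem_edgeSet, hΓ]
        have hd := he.2
        rw [Finset.disjoint_left] at hd
        exact ⟨huv, he.1, hd (by simp), hd (by simp)⟩
      · ext x; simp
    exact (Finset.card_le_card hsub).trans Finset.card_image_le
  have h2 : (G.filter (fun e => ¬ Disjoint e Z)).card ≤ 6 * n := by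
    have hsub : (G.filter (fun e => ¬ Disjoint e Z)) ⊆
        (Z ×ˢ (Finset.univ : Finset (Fin n))).image (fun p => {p.1, p.2}) := by
      intro e he
      rw [Finset.mem_filter] at he
      obtain ⟨u, v, huv, rfl⟩ := Finset.card_eq_two.mp (hG e he.1)
      have hd := he.2
      rw [Finset.not_disjoint_iff] at hd
      obtain ⟨x, hx, hxZ⟩ := hd
      rw [Finset.mem_image]
      rw [Finset.mem_insert, Finset.mem_singleton] at hx
      rcases hx with rfl | rfl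
      · exact ⟨(x, v), by simp [hxZ], rfl⟩
      · exact ⟨(x, u), by simp [hxZ], Finset.pair_comm _ _⟩
    calc (G.filter (fun e => ¬ Disjoint e Z)).card ≤ _ := Finset.card_le_card hsub
      _ ≤ (Z ×ˢ (Finset.univ : Finset (Fin n))).card := Finset.card_image_le
      _ = Z.card * n := by rw [Finset.card_product, Finset.card_univ, Fintype.card_fin]
      _ ≤ 6 * n := Nat.mul_le_mul_right _ hZ
  have h3 : (G.filter (fun e => Disjoint e Z)).card + (G.filter (fun e => ¬ Disjoint e Z)).card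
      = G.card := Finset.card_filter_add_card_filter_not _
  have h4 : n ^ 2 / 4 < Γ.edgeFinset.card := by omega
  have h5 : ¬ Γ.CliqueFree 3 := by
    intro hc
    have := SimpleGraph.CliqueFree.card_edgeFinset_le (r := 2) hc
    simp only [Fintype.card_fin] at this
    have h6 : (n % 2).choose 2 = 0 := by
      rcases Nat.mod_two_eq_zero_or_one n with h | h <;> rw [h] <;> rfl
    rw [h6] at this
    have h7 : (n ^ 2 - (n % 2) ^ 2) * (2 - 1) / (2 * 2) ≤ n ^ 2 / 4 := by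
      apply Nat.div_le_div_right
      simp
    omega
  unfold SimpleGraph.CliqueFree at h5
  rw [not_forall] at h5
  obtain ⟨t, ht⟩ := h5
  rw [not_not] at ht
  rw [SimpleGraph.is3Clique_iff] at ht
  obtain ⟨a, b, c, hab, hac, hbc, rfl⟩ := ht
  rw [hΓ] at hab hac hbc
  exact ⟨a, b, c, hab.2.2.1, hab.2.2.2, hac.2.2.2, hab.1, hac.1, hbc.1, hab.2.1, hac.2.1, hbc.2.1⟩

lemma inj9 {n : ℕ} (a b c a' b' c' a'' b'' c'' : Fin n) (hab : a ≠ b) (hac : a ≠ c) (hbc : b ≠ c)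
   (hab' : a' ≠ b') (hac' : a' ≠ c') (hbc' : b' ≠ c') (hab'' : a'' ≠ b'') (hac'' : a'' ≠ c'') (hbc'' : b'' ≠ c'')
   (ha' : ¬a' = a ∧ ¬a' = b ∧ ¬a' = c) (hb' : ¬b' = a ∧ ¬b' = b ∧ ¬b' = c) (hc' : ¬c' = a ∧ ¬c' = b ∧ ¬c' = c)
   (ha'' : ¬a'' = a ∧ ¬a'' = b ∧ ¬a'' = c ∧ ¬a'' = a' ∧ ¬a'' = b' ∧ ¬a'' = c')
   (hb'' : ¬b'' = a ∧ ¬b'' = b ∧ ¬b'' = c ∧ ¬b'' = a' ∧ ¬b'' = b' ∧ ¬b'' = c')
   (hc'' : ¬c'' = a ∧ ¬c'' = b ∧ ¬c'' = c ∧ ¬c'' = a' ∧ ¬c'' = b' ∧ ¬c'' = c') :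
   Function.Injective ![a, b, c, a', b', c', a'', b'', c''] := by
  rw [← List.nodup_ofFn]
  simp only [List.ofFn_succ, List.ofFn_zero, Matrix.cons_val_zero, Matrix.cons_val_succ, List.nodup_cons, List.mem_cons, List.not_mem_nil, or_false, not_or, List.nodup_nil, and_true, not_false_eq_true]
  obtain ⟨h1,h2,h3⟩ := ha'
  obtain ⟨h4,h5,h6⟩ := hb'
  obtain ⟨h7,h8,h9⟩ := hc'
  obtain ⟨k1,k2,k3,k4,k5,k6⟩ := ha''
  obtain ⟨l1,l2,l3,l4,l5,l6⟩ := hb''
  obtain ⟨m1,m2,m3,m4,m5,m6⟩ := hc''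
  refine ⟨⟨hab, hac, Ne.symm h1, Ne.symm h4, Ne.symm h7, Ne.symm k1, Ne.symm l1, Ne.symm m1⟩, ⟨hbc, Ne.symm h2, Ne.symm h5, Ne.symm h8, Ne.symm k2, Ne.symm l2, Ne.symm m2⟩, ⟨Ne.symm h3, Ne.symm h6, Ne.symm h9, Ne.symm k3, Ne.symm l3, Ne.symm m3⟩, ⟨hab', hac', Ne.symm k4, Ne.symm l4, Ne.symm m4⟩, ⟨hbc', Ne.symm k5, Ne.symm l5, Ne.symm m5⟩, ⟨Ne.symm k6, Ne.symm l6, Ne.symm m6⟩, ⟨hab'', hac''⟩, hbc''⟩


/-- Upper bound for graphs without three disjoint triangles. -/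
lemma card_le_of_free {n : ℕ} (G : Finset (Finset (Fin n))) (hG : ∀ e ∈ G, e.card = 2)
    (hfree : ¬ ∃ φ : Fin 9 ↪ Fin n, ∀ e ∈ F9, e.map φ ∈ G) : G.card ≤ n ^ 2 / 4 + 6 * n := by
  by_contra hcon
  rw [not_le] at hcon
  obtain ⟨a, b, c, -, -, -, hab, hac, hbc, e1, e2, e3⟩ :=
    exists_triangle G hG ∅ (by simp) hcon
  obtain ⟨a', b', c', ha', hb', hc', hab', hac', hbc', e1', e2', e3'⟩ :=
    exists_triangle G hG {a, b, c} (Finset.card_le_three.trans (by norm_num)) hcon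
  obtain ⟨a'', b'', c'', ha'', hb'', hc'', hab'', hac'', hbc'', e1'', e2'', e3''⟩ :=
    exists_triangle G hG {a, b, c, a', b', c'} Finset.card_le_six hcon
  simp only [Finset.mem_insert, Finset.mem_singleton, not_or] at ha' hb' hc' ha'' hb'' hc''
  apply hfree
  refine ⟨⟨![a, b, c, a', b', c', a'', b'', c''], ?_⟩, ?_⟩
  · exact inj9 a b c a' b' c' a'' b'' c'' hab hac hbc hab' hac' hbc' hab'' hac'' hbc''
      ha' hb' hc' ha'' hb'' hc''
  · intro e he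
    simp only [F9, Finset.mem_insert, Finset.mem_singleton] at he
    rcases he with rfl | rfl | rfl | rfl | rfl | rfl | rfl | rfl | rfl <;>
      simp [Finset.map_insert, Finset.map_singleton] <;> assumption

end Pool.Agent.H273R3.RainbowA
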