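import Mathlib
import Pool.Agent.H273R3.RainbowA

set_option autoImplicit false

namespace Pool.Agent.H273R3.RainbowB

open Finset Pool.Agent.H273R3.RainbowA

/-- All pairs of `Fin (2 * q)`. -/
abbrev K (q : ℕ) : Finset (Finset (Fin (2 * q))) := Finset.powersetCard 2 Finset.univ

/-- A pair is crossing when it has one point below `q` and one point at least `q`. -/
def Cross {q : ℕ} (e : Finset (Fin (2 * q))) : Prop :=
  ∃ u ∈ e, ∃ v ∈ e, u.val < q ∧ q ≤ v.val

noncomputable instance {q : ℕ} : DecidablePred (@Cross q) := fun _ => Classical.propDecidable _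

/-- The palette allowed on a pair. -/
noncomputable def T (R q : ℕ) (x : {x // x ∈ K q}) : Finset (Fin (R + 2)) :=
  if Cross x.1 then Finset.univ else {0, 1}

lemma card_T (R q : ℕ) (x : {x // x ∈ K q}) :
    (T R q x).card = if Cross x.1 then R + 2 else 2 := by
  unfold T
  split_ifs
  · simp
  · rw [Finset.card_pair]
    intro h
    have := congrArg Fin.val h
    simp at this

lemma cross_count (q : ℕ) :
    q ^ 2 ≤ (Finset.univ.filter (fun x : {x // x ∈ K q} => Cross x.1)).card := by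
  classical
  have hinj : (Finset.univ : Finset (Fin q × Fin q)).card ≤
      (Finset.univ.filter (fun x : {x // x ∈ K q} => Cross x.1)).card := by
    refine Finset.card_le_card_of_injOn
      (fun p => ⟨{⟨p.1.val, by omega⟩, ⟨q + p.2.val, by omega⟩}, ?_⟩) ?_ ?_
    · rw [Finset.mem_powersetCard]
      refine ⟨Finset.subset_univ _, Finset.card_pair ?_⟩
      intro h
      have := congrArg Fin.val h
      simp at this
      omega
    · intro p _
      rw [Finset.mem_coe, Finset.mem_filter]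
      refine ⟨Finset.mem_univ _, ⟨p.1.val, by omega⟩, by simp, ⟨q + p.2.val, by omega⟩, by simp, ?_, ?_⟩
      · exact p.1.isLt
      · show q ≤ q + p.2.val
        omega
    · intro p _ p' _ h
      simp only [Subtype.mk.injEq] at h
      have h1 : (⟨p.1.val, by omega⟩ : Fin (2 * q)) ∈
          ({⟨p'.1.val, by omega⟩, ⟨q + p'.2.val, by omega⟩} : Finset (Fin (2 * q))) := by
        rw [← h]; simp
      have h2 : (⟨q + p.2.val, by omega⟩ : Fin (2 * q)) ∈
          ({⟨p'.1.val, by omega⟩, ⟨q + p'.2.val, by omega⟩} : Finset (Fin (2 * q))) := by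
        rw [← h]; simp
      simp only [Finset.mem_insert, Finset.mem_singleton, Fin.mk.injEq] at h1 h2
      have b1 := p.1.isLt
      have b2 := p'.1.isLt
      ext
      · omega
      · omega
  calc q ^ 2 = (Finset.univ : Finset (Fin q × Fin q)).card := by
        rw [Finset.card_univ, Fintype.card_prod, Fintype.card_fin, sq]
    _ ≤ _ := hinj

lemma total_count (q : ℕ) :
    (Finset.univ.filter (fun x : {x // x ∈ K q} => Cross x.1)).card +
    (Finset.univ.filter (fun x : {x // x ∈ K q} => ¬ Cross x.1)).card = q * (2 * q - 1) := by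
  rw [Finset.card_filter_add_card_filter_not, Finset.card_univ, Fintype.card_coe,
    Finset.card_powersetCard, Finset.card_univ, Fintype.card_fin, Nat.choose_two_right]
  rw [mul_assoc, Nat.mul_div_cancel_left _ (by norm_num)]

lemma card_pi (R q : ℕ) :
    (R + 2) ^ (q ^ 2) * 2 ^ (q * (2 * q - 1) - q ^ 2) ≤ (Fintype.piFinset (T R q)).card := by
  rw [Fintype.card_piFinset]
  simp_rw [card_T]
  rw [Finset.prod_ite, Finset.prod_const, Finset.prod_const]
  have h1 := cross_count q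
  have h2 := total_count q
  set a := (Finset.univ.filter (fun x : {x // x ∈ K q} => Cross x.1)).card
  set b := (Finset.univ.filter (fun x : {x // x ∈ K q} => ¬ Cross x.1)).card
  obtain ⟨d, hd⟩ := Nat.exists_eq_add_of_le h1
  have h3 : q * (2 * q - 1) - q ^ 2 = d + b := by omega
  rw [h3, hd, pow_add, pow_add, mul_assoc]
  apply Nat.mul_le_mul_left
  apply Nat.mul_le_mul_right
  exact Nat.pow_le_pow_left (by omega) _

/-- Two points on the same side give a non-crossing pair. -/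
lemma not_cross {q : ℕ} (u v : Fin (2 * q)) (h : (u.val < q) ↔ (v.val < q)) :
    ¬ Cross ({u, v} : Finset (Fin (2 * q))) := by
  rintro ⟨x, hx, y, hy, hxq, hyq⟩
  rw [Finset.mem_insert, Finset.mem_singleton] at hx hy
  rcases hx with rfl | rfl <;> rcases hy with rfl | rfl <;> omega

/-- Each triangle has a non-crossing pair. -/
lemma tri {q : ℕ} (φ : Fin 9 ↪ Fin (2 * q)) (a b c : Fin 9) :
    ¬ Cross (({a, b} : Finset (Fin 9)).map φ) ∨ ¬ Cross (({a, c} : Finset (Fin 9)).map φ) ∨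
      ¬ Cross (({b, c} : Finset (Fin 9)).map φ) := by
  simp only [Finset.map_insert, Finset.map_singleton]
  by_cases h1 : ((φ a).val < q ↔ (φ b).val < q)
  · exact Or.inl (not_cross _ _ h1)
  · by_cases h2 : ((φ a).val < q ↔ (φ c).val < q)
    · exact Or.inr (Or.inl (not_cross _ _ h2))
    · refine Or.inr (Or.inr (not_cross _ _ ?_))
      tauto

lemma no_rainbow (R q : ℕ) (c : {x // x ∈ K q} → Fin (R + 2))
    (hc : c ∈ Fintype.piFinset (T R q)) :
    ¬ ∃ φ : Fin 9 ↪ Fin (2 * q), (∀ e ∈ F9, e.map φ ∈ K q) ∧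
              ∀ e ∈ F9, ∀ f ∈ F9, ∀ x y : {x // x ∈ K q},
                x.1 = e.map φ → y.1 = f.map φ → e ≠ f → c x ≠ c y := by
  rintro ⟨φ, hφ, hr⟩
  rw [Fintype.mem_piFinset] at hc
  have key : ∀ e ∈ F9, ∀ h : e.map φ ∈ K q, ¬ Cross (e.map φ) → c ⟨e.map φ, h⟩ = 0 ∨ c ⟨e.map φ, h⟩ = 1 := by
    intro e _ h hn
    have := hc ⟨e.map φ, h⟩
    unfold T at this
    rw [if_neg hn] at this
    simpa using this
  have fin : ∀ e ∈ F9, ∀ f ∈ F9, ∀ g ∈ F9, e ≠ f → e ≠ g → f ≠ g → ¬ Cross (e.map φ) →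
      ¬ Cross (f.map φ) → ¬ Cross (g.map φ) → False := by
    intro e he f hf g hg h1 h2 h3 n1 n2 n3
    have k1 := key e he (hφ e he) n1
    have k2 := key f hf (hφ f hf) n2
    have k3 := key g hg (hφ g hg) n3
    have m1 := hr e he f hf ⟨_, hφ e he⟩ ⟨_, hφ f hf⟩ rfl rfl h1
    have m2 := hr e he g hg ⟨_, hφ e he⟩ ⟨_, hφ g hg⟩ rfl rfl h2
    have m3 := hr f hf g hg ⟨_, hφ f hf⟩ ⟨_, hφ g hg⟩ rfl rfl h3
    rcases k1 with k1 | k1 <;> rcases k2 with k2 | k2 <;> rcases k3 with k3 | k3 <;>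
      simp_all
  have t1 : ∃ e ∈ ({{0,1},{0,2},{1,2}} : Finset (Finset (Fin 9))), ¬ Cross (e.map φ) := by
    rcases tri φ 0 1 2 with h | h | h
    · exact ⟨_, by simp, h⟩
    · exact ⟨_, by simp, h⟩
    · exact ⟨_, by simp, h⟩
  have t2 : ∃ e ∈ ({{3,4},{3,5},{4,5}} : Finset (Finset (Fin 9))), ¬ Cross (e.map φ) := by
    rcases tri φ 3 4 5 with h | h | h
    · exact ⟨_, by simp, h⟩
    · exact ⟨_, by simp, h⟩
    · exact ⟨_, by simp, h⟩
  have t3 : ∃ e ∈ ({{6,7},{6,8},{7,8}} : Finset (Finset (Fin 9))), ¬ Cross (e.map φ) := by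
    rcases tri φ 6 7 8 with h | h | h
    · exact ⟨_, by simp, h⟩
    · exact ⟨_, by simp, h⟩
    · exact ⟨_, by simp, h⟩
  obtain ⟨e, he, hen⟩ := t1
  obtain ⟨f, hf, hfn⟩ := t2
  obtain ⟨g, hg, hgn⟩ := t3
  have hd : ∀ e ∈ ({{0,1},{0,2},{1,2}} : Finset (Finset (Fin 9))),
      ∀ f ∈ ({{3,4},{3,5},{4,5}} : Finset (Finset (Fin 9))),
      ∀ g ∈ ({{6,7},{6,8},{7,8}} : Finset (Finset (Fin 9))),
      e ∈ F9 ∧ f ∈ F9 ∧ g ∈ F9 ∧ e ≠ f ∧ e ≠ g ∧ f ≠ g := by
    decide +kernel
  obtain ⟨a1, a2, a3, a4, a5, a6⟩ := hd e he f hf g hg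
  exact fin e a1 f a2 g a3 a4 a5 a6 hen hfn hgn

lemma lower (R q : ℕ) :
    (R + 2) ^ (q ^ 2) * 2 ^ (q * (2 * q - 1) - q ^ 2) ≤
      Nat.card {c : {x // x ∈ K q} → Fin (R + 2) //
            ¬ ∃ φ : Fin 9 ↪ Fin (2 * q), (∀ e ∈ F9, e.map φ ∈ K q) ∧
              ∀ e ∈ F9, ∀ f ∈ F9, ∀ x y : {x // x ∈ K q},
                x.1 = e.map φ → y.1 = f.map φ → e ≠ f → c x ≠ c y} := by
  classical
  refine (card_pi R q).trans ?_
  rw [Nat.card_eq_fintype_card, Fintype.card_subtype]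
  apply Finset.card_le_card
  intro c hc
  rw [Finset.mem_filter]
  exact ⟨Finset.mem_univ _, no_rainbow R q c hc⟩

end Pool.Agent.H273R3.RainbowB
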